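import Pool.Agent.H87.QH.Defs
import Pool.Agent.H82.BK.Touch

/-!
# Module CptQ: the first touching point

Model: `ftouch` in PR/Cpt (the private lemmas `cpt_per`, `cpt_bdd` must be copied). `Br p α δ Γ t v w = (δ t + Γ t mu α (v-w)) Wp p v`, continuous, `≥ δ t Wp p v ≥ β Wp p v` with `β > 0` the minimum of `δ` on `[0,T₁]`. Let `S` be the set of `(t,x,y,v,w)`, `t ∈ [0,T₁]`, `x, y` in the unit cube, `len (v-w) ≤ 1`, with `Br ≤ f t x v - f t y w`.
Bad points have `len (v-w) < 1` (`hbig`) and `f t x v ≥ β Wp p v`, so `‖v‖ ≤ R` (decay of order `2p+1`), `‖w‖ ≤ R + 1`: `S` is compact, nonempty (`hbad`, periodicity in `x` and in `y` separately); take the point with minimal `t = t₀`; `t₀ > 0` by `hini`. For `t < t₀` nothing is bad, at `t₀` `≤` by continuity in `t`.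
-/

set_option autoImplicit false

open MeasureTheory Set Filter Topology Pool.Agent.H25.Kin Pool.Agent.H48.PL Pool.Agent.H48.PD
open Pool.Agent.H82.BK Pool.Agent.H82.CM Pool.Agent.H48.PR
open scoped ENNReal

namespace Pool.Agent.H87.QH

variable {d : ℕ} {T : ℝ} {Q f : ℝ → Vec d → Vec d → ℝ}

/-- reduction of the position to the unit cube -/
private lemma cptQ_per {F : Vec d → ℝ} (hF : Per F) (x : Vec d) :
    ∃ y ∈ Icc (0 : Vec d) 1, F y = F x := by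
  refine ⟨fun i => Int.fract (x i), ⟨fun i => Int.fract_nonneg _, fun i => (Int.fract_lt_one _).le⟩, ?_⟩
  have hl : (fun i => (-(⌊x i⌋ : ℤ) : ℝ)) ∈
      Submodule.span ℤ (Set.range (Pi.basisFun ℝ (Fin d))) := by
    have e : (fun i => (-(⌊x i⌋ : ℤ) : ℝ)) = ∑ i, (-⌊x i⌋ : ℤ) • (Pi.basisFun ℝ (Fin d) i) := by
      funext j
      rw [Finset.sum_apply]
      simp only [Pi.basisFun_apply, Pi.smul_apply, Pi.single_apply]
      rw [Finset.sum_eq_single j]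
      · simp
      · intro b _ hb
        simp [Ne.symm hb]
      · intro h
        exact absurd (Finset.mem_univ _) h
    rw [e]
    exact Submodule.sum_mem _ fun i _ => Submodule.smul_mem _ _
      (Submodule.subset_span (Set.mem_range_self i))
  have h := hF.span hl x
  have e2 : (fun i => (-(⌊x i⌋ : ℤ) : ℝ)) + x = fun i => Int.fract (x i) := by
    funext i
    simp only [Pi.add_apply, Int.fract]
    ring
  rw [e2] at h
  exact h

/-- velocities with a large value are bounded -/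
private lemma cptQ_bdd (hf : IsClassicalSol T Q f) (p : ℕ)
    {T₁ : ℝ} (hT₁ : T₁ < T) {β : ℝ} (hβ : 0 < β) :
    ∃ R : ℝ, ∀ t ∈ Icc 0 T₁, ∀ x v, β * Wp p v ≤ f t x v → ‖v‖ ≤ R := by
  obtain ⟨C, hC⟩ := hf.decay T₁ hT₁ (2 * p + 1)
  refine ⟨((d : ℝ) + 1) ^ p * C / β, fun t ht x v h' => ?_⟩
  have h : β ≤ f t x v * (1 + nsq v) ^ p := by
    have h10 : β * Wp p v * (1 + nsq v) ^ p ≤ f t x v * (1 + nsq v) ^ p :=
      mul_le_mul_of_nonneg_right h' (by have := sq_nonneg' v; positivity)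
    rwa [mul_assoc, Wp_mul, mul_one] at h10
  have h0 : 0 ≤ f t x v := hf.nonneg t ⟨ht.1, ht.2.trans_lt hT₁⟩ x v
  have h1 := hC t ht x v
  have hn := norm_nonneg v
  have h2 : 1 + nsq v ≤ ((d : ℝ) + 1) * (1 + ‖v‖) ^ 2 := by
    have h3 := sq_le v
    have h4 : (0 : ℝ) ≤ d := Nat.cast_nonneg _
    nlinarith [mul_nonneg h4 hn]
  have h5 : (1 + nsq v) ^ p ≤ ((d : ℝ) + 1) ^ p * (1 + ‖v‖) ^ (2 * p) := by
    rw [pow_mul, ← mul_pow]
    exact pow_le_pow_left₀ (by have := sq_nonneg' v; linarith) h2 p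
  have h6 : f t x v * (1 + nsq v) ^ p ≤ f t x v * (((d : ℝ) + 1) ^ p * (1 + ‖v‖) ^ (2 * p)) :=
    mul_le_mul_of_nonneg_left h5 h0
  rw [le_div_iff₀ hβ]
  have h7 : β * (1 + ‖v‖) ≤ ((d : ℝ) + 1) ^ p * C := by
    calc β * (1 + ‖v‖) ≤ (f t x v * (((d : ℝ) + 1) ^ p * (1 + ‖v‖) ^ (2 * p))) * (1 + ‖v‖) := by
          gcongr
          exact h.trans h6
      _ = ((d : ℝ) + 1) ^ p * ((1 + ‖v‖) ^ (2 * p + 1) * f t x v) := by ring
      _ ≤ ((d : ℝ) + 1) ^ p * C := by gcongr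
  nlinarith

/-- continuity of the barrier -/
private lemma cptQ_cont (p : ℕ) {α : ℝ} (hα : 0 < α) {δ Γ : ℝ → ℝ} (hδc : Continuous δ)
    (hΓc : Continuous Γ) : Continuous (fun q : ℝ × Vec d × Vec d × Vec d × Vec d =>
      Br p α δ Γ q.1 q.2.2.2.1 q.2.2.2.2) := by
  unfold Br mu
  have c1 : Continuous fun q : ℝ × Vec d × Vec d × Vec d × Vec d =>
      min 1 (len (q.2.2.2.1 - q.2.2.2.2)) ^ α := by
    refine Continuous.rpow_const ?_ fun q => Or.inr hα.le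
    exact continuous_const.min (continuous_len.comp (by fun_prop))
  have c2 : Continuous fun q : ℝ × Vec d × Vec d × Vec d × Vec d => Wp p q.2.2.2.1 :=
    (Wp_cont p).comp (by fun_prop)
  exact (((hδc.comp continuous_fst).add ((hΓc.comp continuous_fst).mul c1))).mul c2

/-- continuity of the difference -/
private lemma cptQ_dif (hf : IsClassicalSol T Q f) :
    ContinuousOn (fun q : ℝ × Vec d × Vec d × Vec d × Vec d =>
      f q.1 q.2.1 q.2.2.2.1 - f q.1 q.2.2.1 q.2.2.2.2) (Ico 0 T ×ˢ univ) := by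
  have c0 : ContinuousOn (unc f) (Ico 0 T ×ˢ univ) := hf.isCont
  have c1 : ContinuousOn (fun q : ℝ × Vec d × Vec d × Vec d × Vec d =>
      unc f (q.1, q.2.1, q.2.2.2.1)) (Ico 0 T ×ˢ univ) := by
    refine c0.comp (Continuous.continuousOn (by fun_prop)) fun q hq => ?_
    exact ⟨hq.1, mem_univ _⟩
  have c2 : ContinuousOn (fun q : ℝ × Vec d × Vec d × Vec d × Vec d =>
      unc f (q.1, q.2.2.1, q.2.2.2.2)) (Ico 0 T ×ˢ univ) := by
    refine c0.comp (Continuous.continuousOn (by fun_prop)) fun q hq => ?_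
    exact ⟨hq.1, mem_univ _⟩
  exact c1.sub c2

theorem ftouchQ (hf : IsClassicalSol T Q f) {T₁ : ℝ} (hT₀ : 0 ≤ T₁) (hT₁ : T₁ < T) (p : ℕ) {α : ℝ}
    (hα : 0 < α) {δ Γ : ℝ → ℝ} (hδc : Continuous δ) (hΓc : Continuous Γ) (hδ : ∀ t, 0 < δ t)
    (hΓ : ∀ t, 0 < Γ t)
    (hbig : ∀ t ∈ Icc 0 T₁, ∀ x y v w : Vec d, 1 ≤ len (v - w) →
      f t x v - f t y w < Br p α δ Γ t v w)
    (hini : ∀ x y v w : Vec d, f 0 x v - f 0 y w < Br p α δ Γ 0 v w)
    (hbad : ∃ t ∈ Icc 0 T₁, ∃ x y v w : Vec d, Br p α δ Γ t v w ≤ f t x v - f t y w) :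
    ∃ t₀ ∈ Ioc 0 T₁, ∃ x y v w : Vec d, len (v - w) < 1 ∧
      f t₀ x v - f t₀ y w = Br p α δ Γ t₀ v w ∧
      (∀ t ∈ Ico 0 t₀, ∀ x y v w : Vec d, f t x v - f t y w < Br p α δ Γ t v w) ∧
      ∀ x y v w : Vec d, f t₀ x v - f t₀ y w ≤ Br p α δ Γ t₀ v w := by
  have hsub : Icc (0 : ℝ) T₁ ⊆ Ico 0 T := fun t ht => ⟨ht.1, ht.2.trans_lt hT₁⟩
  obtain ⟨tm, htm, hmin⟩ := isCompact_Icc.exists_isMinOn (nonempty_Icc.2 hT₀)
    (hδc.continuousOn (s := Icc 0 T₁))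
  have hβ : 0 < δ tm := hδ tm
  obtain ⟨R, hR⟩ := cptQ_bdd hf p hT₁ hβ
  have hBar : ∀ t ∈ Icc (0 : ℝ) T₁, ∀ v w : Vec d, δ tm * Wp p v ≤ Br p α δ Γ t v w := by
    intro t ht v w
    unfold Br
    have a1 : δ tm ≤ δ t := hmin ht
    have a2 : 0 ≤ Γ t * mu α (v - w) := mul_nonneg (hΓ t).le (mu_nonneg α _)
    exact mul_le_mul_of_nonneg_right (by linarith) (Wp_pos p v).le
  have hsmall : ∀ t ∈ Icc (0 : ℝ) T₁, ∀ x y v w : Vec d,
      Br p α δ Γ t v w ≤ f t x v - f t y w → len (v - w) < 1 := by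
    intro t ht x y v w h
    by_contra hcon
    push Not at hcon
    exact absurd (hbig t ht x y v w hcon) (not_lt.2 h)
  have hPc := cptQ_dif hf
  have hBc : Continuous (fun q : ℝ × Vec d × Vec d × Vec d × Vec d =>
      Br p α δ Γ q.1 q.2.2.2.1 q.2.2.2.2) := cptQ_cont p hα hδc hΓc
  set K : Set (ℝ × Vec d × Vec d × Vec d × Vec d) := Icc 0 T₁ ×ˢ (Icc (0 : Vec d) 1 ×ˢ
    (Icc (0 : Vec d) 1 ×ˢ (Metric.closedBall (0 : Vec d) R ×ˢ
      Metric.closedBall (0 : Vec d) (R + 1)))) with hK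
  have hKc : IsCompact K := isCompact_Icc.prod (isCompact_Icc.prod (isCompact_Icc.prod
    ((isCompact_closedBall _ _).prod (isCompact_closedBall _ _))))
  have hGc : ContinuousOn (fun q : ℝ × Vec d × Vec d × Vec d × Vec d =>
      (f q.1 q.2.1 q.2.2.2.1 - f q.1 q.2.2.1 q.2.2.2.2) -
        Br p α δ Γ q.1 q.2.2.2.1 q.2.2.2.2) K :=
    (hPc.mono fun q hq => ⟨hsub hq.1, mem_univ _⟩).sub hBc.continuousOn
  set S : Set (ℝ × Vec d × Vec d × Vec d × Vec d) :=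
    K ∩ (fun q : ℝ × Vec d × Vec d × Vec d × Vec d =>
      (f q.1 q.2.1 q.2.2.2.1 - f q.1 q.2.2.1 q.2.2.2.2) -
        Br p α δ Γ q.1 q.2.2.2.1 q.2.2.2.2) ⁻¹' Ici 0 with hS
  have hSc : IsCompact S := hKc.of_isClosed_subset
    (hGc.preimage_isClosed_of_isClosed hKc.isClosed isClosed_Ici) inter_subset_left
  have hmem : ∀ t ∈ Icc (0 : ℝ) T₁, ∀ x y v w : Vec d,
      Br p α δ Γ t v w ≤ f t x v - f t y w → ∃ x' y', (t, x', y', v, w) ∈ S := by
    intro t ht x y v w h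
    have hper : ∀ v, Per fun x => f t x v := fun v x i => hf.periodic t (hsub ht) x v i
    obtain ⟨x', hx', hxx⟩ := cptQ_per (hper v) x
    obtain ⟨y', hy', hyy⟩ := cptQ_per (hper w) y
    have hxx' : f t x' v = f t x v := hxx
    have hyy' : f t y' w = f t y w := hyy
    have hs := hsmall t ht x y v w h
    have h0 : 0 ≤ f t y w := hf.nonneg t (hsub ht) y w
    have b1 : ‖v‖ ≤ R := hR t ht x v (by linarith [hBar t ht v w])
    have b2 : ‖w‖ ≤ R + 1 := by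
      have h1 : ‖v - w‖ ≤ len (v - w) := norm_le_len _
      have h2 : ‖w‖ ≤ ‖v‖ + ‖v - w‖ := by
        have h3 := norm_sub_le v (v - w)
        rwa [sub_sub_cancel] at h3
      linarith
    refine ⟨x', y', ⟨⟨ht, hx', hy', ?_, ?_⟩, ?_⟩⟩
    · rw [Metric.mem_closedBall, dist_zero_right]; exact b1
    · rw [Metric.mem_closedBall, dist_zero_right]; exact b2
    · simp only [mem_preimage, mem_Ici]
      rw [hxx', hyy']
      linarith
  obtain ⟨t2, ht2, x2, y2, v2, w2, h2⟩ := hbad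
  obtain ⟨x2', y2', hy2⟩ := hmem t2 ht2 x2 y2 v2 w2 h2
  obtain ⟨q, hqS, hq⟩ := hSc.exists_isMinOn ⟨_, hy2⟩
    (f := fun q : ℝ × Vec d × Vec d × Vec d × Vec d => q.1) continuous_fst.continuousOn
  obtain ⟨t₀, x₀, y₀, v₀, w₀⟩ := q
  have ht₀ : t₀ ∈ Icc 0 T₁ := hqS.1.1
  have hge : Br p α δ Γ t₀ v₀ w₀ ≤ f t₀ x₀ v₀ - f t₀ y₀ w₀ := by
    have := hqS.2
    simp only [mem_preimage, mem_Ici] at this
    linarith
  have hlt : ∀ t ∈ Ico 0 t₀, ∀ x y v w : Vec d, f t x v - f t y w < Br p α δ Γ t v w := by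
    intro t ht x y v w
    by_contra hcon
    push Not at hcon
    obtain ⟨x', y', hy⟩ := hmem t ⟨ht.1, ht.2.le.trans ht₀.2⟩ x y v w hcon
    have h3 : t₀ ≤ t := hq hy
    exact absurd ht.2 (not_lt.2 h3)
  have hpos : 0 < t₀ := by
    rcases ht₀.1.lt_or_eq with h | h
    · exact h
    · exfalso
      subst h
      exact absurd hge (not_le.2 (hini x₀ y₀ v₀ w₀))
  have hle : ∀ x y v w : Vec d, f t₀ x v - f t₀ y w ≤ Br p α δ Γ t₀ v w := by
    intro x y v w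
    have hc : ContinuousOn (fun t : ℝ => f t x v - f t y w) (Icc 0 T₁) := by
      have h3 : ContinuousOn (fun t : ℝ => (fun q : ℝ × Vec d × Vec d × Vec d × Vec d =>
          f q.1 q.2.1 q.2.2.2.1 - f q.1 q.2.2.1 q.2.2.2.2) (t, x, y, v, w)) (Icc 0 T₁) := by
        refine hPc.comp (Continuous.continuousOn (by fun_prop)) fun t ht => ⟨hsub ht, mem_univ _⟩
      exact h3
    have hc2 : Continuous fun t : ℝ => Br p α δ Γ t v w := by
      unfold Br
      fun_prop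
    have hne : (𝓝[Ico 0 t₀] t₀).NeBot := by
      rw [← mem_closure_iff_nhdsWithin_neBot, closure_Ico hpos.ne]
      exact ⟨hpos.le, le_rfl⟩
    have hs : Ico 0 t₀ ⊆ Icc 0 T₁ := fun t ht => ⟨ht.1, ht.2.le.trans ht₀.2⟩
    have l1 : Tendsto (fun t : ℝ => f t x v - f t y w) (𝓝[Ico 0 t₀] t₀)
        (𝓝 (f t₀ x v - f t₀ y w)) := (hc t₀ ht₀).mono hs
    have l2 : Tendsto (fun t : ℝ => Br p α δ Γ t v w) (𝓝[Ico 0 t₀] t₀)
        (𝓝 (Br p α δ Γ t₀ v w)) := hc2.continuousAt.mono_left inf_le_left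
    refine le_of_tendsto_of_tendsto l1 l2 ?_
    filter_upwards [self_mem_nhdsWithin] with t ht
    exact (hlt t ht x y v w).le
  exact ⟨t₀, ⟨hpos, ht₀.2⟩, x₀, y₀, v₀, w₀, hsmall t₀ ht₀ x₀ y₀ v₀ w₀ hge,
    le_antisymm (hle x₀ y₀ v₀ w₀) hge, hlt, hle⟩

end Pool.Agent.H87.QH
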