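import Pool.Agent.H87.QH.Defs

/-!
# Module MasQ: mass in a ball

`FB Cl G`, `m₀ ≤ ∫ G`. `∫_{nsq z > R²} G ≤ R^(-2) ∫ nsq z G ≤ R^(-2) C ≤ m₀/2`; `nsq z ≤ d ‖z‖²` (`sq_le`), `G (1+‖z‖)^(d+3) ≤ Cl (d+3)`, `nsq z G ≤ d Cl(d+3) (1+‖z‖)^(-(d+1))`, integrable (`wt`, `integrable_wt`); or `mom_le` (PR/MLow or H48/PD: bound of `∫ G jb^k`). `∫ G = ∫_{nsq ≤ R²} + ∫_{nsq > R²}` (`integral_add_compl`).
-/

set_option autoImplicit false

open MeasureTheory Set Filter Topology Pool.Agent.H25.Kin Pool.Agent.H48.PL Pool.Agent.H48.PD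
open Pool.Agent.H82.BK Pool.Agent.H82.CM Pool.Agent.H48.PR
open scoped ENNReal

namespace Pool.Agent.H87.QH

variable {d : ℕ}

theorem masQ (Cl : ℕ → ℝ) {m₀ : ℝ} (hm : 0 < m₀) : ∃ R : ℝ, 0 < R ∧ ∀ G : Vec d → ℝ, FB Cl G →
    m₀ ≤ ∫ v, G v → m₀ / 2 ≤ ∫ z in {z : Vec d | nsq z ≤ R ^ 2}, G z := by
  obtain ⟨K, hK, hKf⟩ := mom_le d Cl 2
  have hR2 : 0 < 2 * K / m₀ + 1 := by positivity
  refine ⟨Real.sqrt (2 * K / m₀ + 1), Real.sqrt_pos.2 hR2, fun G hG hmass => ?_⟩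
  rw [Real.sq_sqrt hR2.le]
  set S : ℝ := 2 * K / m₀ + 1 with hS
  obtain ⟨hi, hle⟩ := hKf G hG
  obtain ⟨K0, -, hK0⟩ := mom_le d Cl 0
  have hGi : Integrable G := by
    have h := (hK0 G hG).1
    simpa using h
  have hcn : Continuous (nsq : Vec d → ℝ) := continuous_sq
  have hms : MeasurableSet {z : Vec d | nsq z ≤ S} := (isClosed_le hcn continuous_const).measurableSet
  have hadd := integral_add_compl hms hGi
  have hcomp : ∫ z in {z : Vec d | nsq z ≤ S}ᶜ, G z ≤ K / S := by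
    have h1 : ∫ z in {z : Vec d | nsq z ≤ S}ᶜ, G z ≤
        ∫ z in {z : Vec d | nsq z ≤ S}ᶜ, S⁻¹ * (G z * jb z ^ 2) := by
      refine setIntegral_mono_on hGi.integrableOn (hi.const_mul S⁻¹).integrableOn hms.compl fun z hz => ?_
      have hz' : S < nsq z := not_le.1 hz
      have h0 := hG.nonneg z
      have h2 : jb z ^ 2 = 1 + nsq z := Real.sq_sqrt (by linarith [sq_nonneg' z])
      rw [h2, inv_mul_eq_div, le_div_iff₀ hR2]
      exact mul_le_mul_of_nonneg_left (by linarith) h0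
    have h3 : ∫ z in {z : Vec d | nsq z ≤ S}ᶜ, S⁻¹ * (G z * jb z ^ 2) ≤ ∫ z, S⁻¹ * (G z * jb z ^ 2) := by
      refine setIntegral_le_integral (hi.const_mul S⁻¹) (Eventually.of_forall fun z => ?_)
      have h0 := hG.nonneg z
      have h4 : 0 ≤ S⁻¹ := (inv_pos.2 hR2).le
      positivity
    have h8 : ∫ z, S⁻¹ * (G z * jb z ^ 2) = S⁻¹ * ∫ z, G z * jb z ^ 2 := integral_const_mul _ _
    rw [h8] at h3
    have h5 : S⁻¹ * ∫ z, G z * jb z ^ 2 ≤ S⁻¹ * K := mul_le_mul_of_nonneg_left hle (inv_pos.2 hR2).le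
    have h6 : S⁻¹ * K = K / S := by rw [inv_mul_eq_div]
    linarith
  have hKS : K / S ≤ m₀ / 2 := by
    rw [div_le_iff₀ hR2]
    have h7 : m₀ / 2 * (2 * K / m₀ + 1) = K + m₀ / 2 := by
      field_simp
    rw [h7]
    linarith
  linarith

end Pool.Agent.H87.QH
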