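import Pool.Agent.H87.QH.Defs

/-!
# Module OneQ: one sided increments at a touching pair

`Λ = δ + Γ mu α (v-w)`, `W = Wp p`, `0 < α' < α ≤ 1`. `mu α (v+h-w) ≤ mu α (v-w) + mu α h` (`min 1 (x+y) ≤ min 1 x + min 1 y`, `(x+y)^α ≤ x^α + y^α`: `Real.rpow_add_le_add_rpow`).
* `G(v+h) - G(v) ≤ (δ + Γ mu(v+h-w)) W(v+h) - (δ + Γ mu(v-w)) W(v)` (from `hup` at `(v+h, w)` and `htou`) `≤ Γ mu α h W(v+h) + (δ+Γ)(W(v+h)-W(v))⁺`, for `len h ≤ 1/2`: `≤ K (1+Γ) (len h)^α W(v)` (`δ ≤ 1`; `W(v+h) ≤ 2^p W(v)`, `W(v+h)-W(v) ≤ K len h W(v)`: `one_W`, `one_Wd` in PR/One, private, copy).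
* `F(w) - F(w+h) ≤ (δ + Γ mu(v-w-h)) W(v) - (δ + Γ mu(v-w)) W(v) ≤ Γ mu α h W(v)` (`hup` at `(v, w+h)` and `htou`).
* interpolation to the exponent `α'` and the weight `Wp (p+2)`: `one_interp`, `one_fin` (PR/One, private, copy): the decay `G(v+h) - G(v) ≤ G(v+h) ≤ C W_q(v)`, `q = p+2+2m`, and `F(w) - F(w+h) ≤ F(w) ≤ C W_q(w) ≤ C 4^q W_q(v)` (`len (v-w) ≤ 1`: `1+nsq v ≤ 4 (1+nsq w)`); for `len h ≥ 1/2`: `mu α' h ≥ 1/2`.
* `up`: `c² (G v' - F w') ≤ c² (δ + Γ mu α (v'-w')) W(v')`, `c² mu α (v'-w') ≤ (c len (v'-w'))^α ≤ len (v-w)^α = mu α (v-w)` (`len (v-w) ≤ 1`, `c² ≤ c^α`), `c² δ ≤ δ`.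
-/

set_option autoImplicit false

open MeasureTheory Set Filter Topology Pool.Agent.H25.Kin Pool.Agent.H48.PL Pool.Agent.H48.PD
open Pool.Agent.H82.BK Pool.Agent.H82.CM Pool.Agent.H48.PR
open scoped ENNReal

namespace Pool.Agent.H87.QH

variable {d : ℕ}

private lemma OneQ_dot_le {u v : Vec d} : dot u v ≤ len u * len v := by
  have h1 := dot_sq_le u v
  rw [← len_sq u, ← len_sq v, ← mul_pow] at h1
  exact (le_abs_self _).trans (abs_le_of_sq_le_sq h1 (mul_nonneg (len_nonneg u) (len_nonneg v)))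

/-- weights at neighbouring points are comparable -/
private lemma OneQ_W (p : ℕ) {v h : Vec d} (hh : len h ≤ 1 / 2) :
    Wp p (v + h) ≤ 2 ^ p * Wp p v := by
  have hv := sq_nonneg' v
  have hvh := sq_nonneg' (v + h)
  have h2 : nsq h ≤ 1 / 4 := by
    rw [← len_sq]
    nlinarith [len_nonneg h]
  have h1 : 1 + nsq v ≤ 2 * (1 + nsq (v + h)) := by
    have h3 := nsq_par (v + h) h
    have h4 := sq_nonneg' (v + h + h)
    rw [add_sub_cancel_right] at h3
    linarith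
  have h5 : (1 + nsq v) ^ p ≤ 2 ^ p * (1 + nsq (v + h)) ^ p := by
    rw [← mul_pow]
    exact pow_le_pow_left₀ (by linarith) h1 p
  unfold Wp
  rw [← div_eq_mul_inv, inv_eq_one_div, div_le_div_iff₀ (by positivity) (by positivity)]
  linarith

/-- the increments of the weight -/
private lemma OneQ_Wd (p : ℕ) {v h : Vec d} (hh : len h ≤ 1 / 2) :
    Wp p (v + h) - Wp p v ≤ 2 * p * 2 ^ p * len h * Wp p v := by
  have hl := len_nonneg h
  have hv := sq_nonneg' v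
  have hvh := sq_nonneg' (v + h)
  have hW := Wp_pos p v
  have hW' := Wp_pos p (v + h)
  set a := 1 + nsq v with ha
  set b := 1 + nsq (v + h) with hb
  have ha1 : 1 ≤ a := by linarith
  have hb1 : 1 ≤ b := by linarith
  -- `a - b ≤ 2 a |h|`
  have h1 : a - b ≤ 2 * a * len h := by
    have e1 : nsq (v + h) = nsq v + 2 * dot v h + nsq h := nsq_add v h
    have e2 : -dot v h ≤ len v * len h := by
      have h3 := OneQ_dot_le (u := v) (v := -h)
      rw [len_neg] at h3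
      have e3 : dot v (-h) = - dot v h := by
        unfold dot
        simp
      linarith
    have e4 : 2 * len v ≤ a := by
      have := len_sq v
      nlinarith [sq_nonneg (len v - 1)]
    have e5 : 2 * (len v * len h) ≤ a * len h := by nlinarith
    have e6 := sq_nonneg' h
    have e7 : 0 ≤ a * len h := by positivity
    linarith
  -- Bernoulli
  have h2 : a ^ p - b ^ p ≤ p * a ^ p * (2 * len h) := by
    have hba : -2 ≤ b / a - 1 := by
      have : 0 ≤ b / a := by positivity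
      linarith
    have h3 := one_add_mul_le_pow hba p
    have e1 : (1 + (b / a - 1)) ^ p * a ^ p = b ^ p := by
      rw [← mul_pow]
      congr 1
      field_simp
      ring
    have h4 : (1 + (p : ℝ) * (b / a - 1)) * a ^ p ≤ b ^ p := by
      rw [← e1]
      exact mul_le_mul_of_nonneg_right h3 (by positivity)
    have h5 : 1 - b / a ≤ 2 * len h := by
      rw [← div_self (by positivity : a ≠ 0), ← sub_div, div_le_iff₀ (by positivity)]
      linarith
    have h6 : (p : ℝ) * a ^ p * (1 - b / a) ≤ p * a ^ p * (2 * len h) :=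
      mul_le_mul_of_nonneg_left h5 (by positivity)
    have h7 : (1 + (p : ℝ) * (b / a - 1)) * a ^ p = a ^ p - p * a ^ p * (1 - b / a) := by ring
    linarith
  have h3 : Wp p (v + h) - Wp p v ≤ p * (2 * len h) * Wp p (v + h) := by
    unfold Wp
    rw [← ha, ← hb]
    have e1 : (b ^ p)⁻¹ - (a ^ p)⁻¹ = (a ^ p - b ^ p) * ((a ^ p)⁻¹ * (b ^ p)⁻¹) := by
      field_simp
    have e2 : p * (2 * len h) * (b ^ p)⁻¹ =
        (p * a ^ p * (2 * len h)) * ((a ^ p)⁻¹ * (b ^ p)⁻¹) := by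
      field_simp
    rw [e1, e2]
    exact mul_le_mul_of_nonneg_right h2 (by positivity)
  have h4 := OneQ_W p (v := v) hh
  calc Wp p (v + h) - Wp p v ≤ p * (2 * len h) * Wp p (v + h) := h3
    _ ≤ p * (2 * len h) * (2 ^ p * Wp p v) := mul_le_mul_of_nonneg_left h4 (by positivity)
    _ = 2 * p * 2 ^ p * len h * Wp p v := by ring

/-- interpolation between a Hoelder bound and a decay bound -/
private lemma OneQ_interp {a r α α' K K' D : ℝ} (p m : ℕ) (ha : 1 ≤ a) (hr : 0 ≤ r) (hr1 : r ≤ 1)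
    (h0 : 0 < α') (h1 : α' < α) (hm : α' / (α - α') ≤ m) (hK : 0 ≤ K) (hK' : 0 ≤ K')
    (hA : D ≤ K * r ^ α * (a ^ p)⁻¹) (hB : D ≤ K' * (a ^ (p + 2 + 2 * m))⁻¹) :
    D ≤ (K + K') * r ^ α' * (a ^ (p + 2))⁻¹ := by
  have hap : 0 < a := by linarith
  have hra : 0 ≤ r ^ α' := Real.rpow_nonneg hr _
  have hrb : 0 ≤ r ^ (α - α') := Real.rpow_nonneg hr _
  have hnn1 : 0 ≤ K * r ^ α' * (a ^ (p + 2))⁻¹ := by positivity
  have hnn2 : 0 ≤ K' * r ^ α' * (a ^ (p + 2))⁻¹ := by positivity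
  have hsp : (K + K') * r ^ α' * (a ^ (p + 2))⁻¹ =
      K * r ^ α' * (a ^ (p + 2))⁻¹ + K' * r ^ α' * (a ^ (p + 2))⁻¹ := by ring
  rcases le_or_gt (r ^ (α - α')) ((a ^ 2)⁻¹) with hc | hc
  · have h2 : r ^ α = r ^ (α - α') * r ^ α' := by
      rw [← Real.rpow_add_of_nonneg hr (by linarith) h0.le]
      congr 1
      ring
    have h3 : K * r ^ α * (a ^ p)⁻¹ ≤ K * r ^ α' * (a ^ (p + 2))⁻¹ := by
      rw [h2]
      calc K * (r ^ (α - α') * r ^ α') * (a ^ p)⁻¹ = (K * r ^ α' * (a ^ p)⁻¹) * r ^ (α - α') := by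
            ring
        _ ≤ (K * r ^ α' * (a ^ p)⁻¹) * (a ^ 2)⁻¹ := mul_le_mul_of_nonneg_left hc (by positivity)
        _ = K * r ^ α' * (a ^ (p + 2))⁻¹ := by
            rw [pow_add, mul_inv]
            ring
    linarith
  · have h2 : ((a ^ 2)⁻¹) ^ m ≤ (r ^ (α - α')) ^ m := pow_le_pow_left₀ (by positivity) hc.le m
    have h3 : (r ^ (α - α')) ^ m = r ^ ((α - α') * m) := by
      rw [Real.rpow_mul hr, Real.rpow_natCast]
    have hrp : 0 < r := by
      rcases hr.eq_or_lt with h | h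
      · rw [← h, Real.zero_rpow (by linarith)] at hc
        exact absurd hc (not_lt.2 (by positivity))
      · exact h
    have h4 : r ^ ((α - α') * m) ≤ r ^ α' := by
      apply Real.rpow_le_rpow_of_exponent_ge hrp hr1
      rw [div_le_iff₀ (by linarith)] at hm
      linarith
    have h5 : (a ^ (2 * m))⁻¹ ≤ r ^ α' := by
      rw [pow_mul, ← inv_pow]
      linarith
    have h6 : K' * (a ^ (p + 2 + 2 * m))⁻¹ ≤ K' * r ^ α' * (a ^ (p + 2))⁻¹ := by
      calc K' * (a ^ (p + 2 + 2 * m))⁻¹ = (K' * (a ^ (p + 2))⁻¹) * (a ^ (2 * m))⁻¹ := by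
            rw [pow_add a (p + 2) (2 * m), mul_inv]
            ring
        _ ≤ (K' * (a ^ (p + 2))⁻¹) * r ^ α' := mul_le_mul_of_nonneg_left h5 (by positivity)
        _ = K' * r ^ α' * (a ^ (p + 2))⁻¹ := by ring
    linarith

/-- decay of a function of the class `FB` in terms of the weight -/
private lemma OneQ_dec {C : ℕ → ℝ} {g : Vec d → ℝ} (hg : FB C g) (q : ℕ) (v : Vec d) :
    g v ≤ |(d + 1) ^ q * C (2 * q)| * Wp q v := by
  have h1 : 1 + nsq v ≤ (d + 1) * (1 + ‖v‖) ^ 2 := by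
    have h2 := sq_le v
    have h3 := norm_nonneg v
    have h4 : (0 : ℝ) ≤ d := Nat.cast_nonneg d
    nlinarith [mul_nonneg h4 h3]
  have hv := sq_nonneg' v
  have h2 : (1 + nsq v) ^ q ≤ (d + 1) ^ q * (1 + ‖v‖) ^ (2 * q) := by
    rw [pow_mul, ← mul_pow]
    exact pow_le_pow_left₀ (by linarith) h1 q
  have h3 : g v * (1 + nsq v) ^ q ≤ (d + 1) ^ q * C (2 * q) := by
    calc g v * (1 + nsq v) ^ q ≤ g v * ((d + 1) ^ q * (1 + ‖v‖) ^ (2 * q)) :=
          mul_le_mul_of_nonneg_left h2 (hg.nonneg v)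
      _ = (d + 1) ^ q * ((1 + ‖v‖) ^ (2 * q) * g v) := by ring
      _ ≤ (d + 1) ^ q * C (2 * q) := mul_le_mul_of_nonneg_left (hg.le _ _) (by positivity)
  unfold Wp
  rw [← div_eq_mul_inv, le_div_iff₀ (by positivity)]
  exact h3.trans (le_abs_self _)

/-- weights at points of distance at most one are comparable -/
private lemma OneQ_W1 (q : ℕ) {v w : Vec d} (hh : len (v - w) ≤ 1) : Wp q w ≤ 4 ^ q * Wp q v := by
  have hv := sq_nonneg' v
  have hw := sq_nonneg' w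
  have h2 : nsq (v - w) ≤ 1 := by
    rw [← len_sq]
    exact pow_le_one₀ (len_nonneg _) hh
  have h1 : 1 + nsq v ≤ 4 * (1 + nsq w) := by
    have h3 := nsq_par w (v - w)
    have h4 := sq_nonneg' (w - (v - w))
    rw [add_sub_cancel] at h3
    linarith
  have h5 : (1 + nsq v) ^ q ≤ 4 ^ q * (1 + nsq w) ^ q := by
    rw [← mul_pow]
    exact pow_le_pow_left₀ (by linarith) h1 q
  unfold Wp
  rw [← div_eq_mul_inv, inv_eq_one_div, div_le_div_iff₀ (by positivity) (by positivity)]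
  linarith

private lemma OneQ_mu_sub {α : ℝ} (ha : 0 < α) (ha1 : α ≤ 1) (a b : Vec d) :
    mu α (a + b) ≤ mu α a + mu α b := by
  have la := len_nonneg a
  have lb := len_nonneg b
  have h1 : min 1 (len (a + b)) ≤ min 1 (len a) + min 1 (len b) := by
    have h2 := len_add_le a b
    rcases le_total 1 (len a) with h3 | h3
    · rw [min_eq_left h3]
      exact (min_le_left _ _).trans (le_add_of_nonneg_right (le_min zero_le_one lb))
    · rcases le_total 1 (len b) with h4 | h4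
      · rw [min_eq_left h4]
        exact (min_le_left _ _).trans (le_add_of_nonneg_left (le_min zero_le_one la))
      · rw [min_eq_right h3, min_eq_right h4]
        exact (min_le_right _ _).trans h2
  unfold mu
  calc min 1 (len (a + b)) ^ α ≤ (min 1 (len a) + min 1 (len b)) ^ α :=
        Real.rpow_le_rpow (le_min zero_le_one (len_nonneg _)) h1 ha.le
    _ ≤ min 1 (len a) ^ α + min 1 (len b) ^ α :=
        Real.rpow_add_le_add_rpow (le_min zero_le_one la) (le_min zero_le_one lb) ha.le ha1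

private lemma OneQ_mu_small {α : ℝ} {h : Vec d} (hh : len h ≤ 1 / 2) : mu α h = len h ^ α := by
  unfold mu
  rw [min_eq_right (by linarith)]

private lemma OneQ_mu_scale {α c : ℝ} (ha : 0 < α) (ha1 : α ≤ 1) (hc : 0 < c) (hc1 : c ≤ 1)
    {a b : Vec d} (h : c * len b ≤ len a) : c ^ 2 * mu α b ≤ mu α a := by
  have hb0 : 0 ≤ min 1 (len b) := le_min zero_le_one (len_nonneg b)
  have h1 : c ^ 2 ≤ c ^ α := by
    rw [← Real.rpow_natCast c 2]
    exact Real.rpow_le_rpow_of_exponent_ge hc hc1 (by push_cast; linarith)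
  have h2 : c * min 1 (len b) ≤ min 1 (len a) := by
    refine le_min ?_ ?_
    · exact (mul_le_mul_of_nonneg_left (min_le_left _ _) hc.le).trans (by linarith)
    · exact (mul_le_mul_of_nonneg_left (min_le_right _ _) hc.le).trans h
  unfold mu
  calc c ^ 2 * min 1 (len b) ^ α ≤ c ^ α * min 1 (len b) ^ α :=
        mul_le_mul_of_nonneg_right h1 (Real.rpow_nonneg hb0 _)
    _ = (c * min 1 (len b)) ^ α := (Real.mul_rpow hc.le hb0).symm
    _ ≤ min 1 (len a) ^ α := Real.rpow_le_rpow (mul_nonneg hc.le hb0) h2 ha.le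

private lemma OneQ_big {α' : ℝ} (h0 : 0 < α') (h1 : α' ≤ 1) {h : Vec d} (hh : 1 / 2 < len h) :
    1 ≤ 2 * mu α' h := by
  have h3 : (1 / 2 : ℝ) ≤ min 1 (len h) := le_min (by norm_num) hh.le
  have h4 : (1 / 2 : ℝ) ^ α' ≤ min 1 (len h) ^ α' := Real.rpow_le_rpow (by norm_num) h3 h0.le
  have h5 : (1 / 2 : ℝ) ≤ (1 / 2 : ℝ) ^ α' := by
    calc (1 / 2 : ℝ) = (1 / 2 : ℝ) ^ (1 : ℝ) := (Real.rpow_one _).symm
      _ ≤ (1 / 2 : ℝ) ^ α' :=
          Real.rpow_le_rpow_of_exponent_ge (by norm_num) (by norm_num) h1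
  unfold mu
  linarith

/-- the raw increments, `G` -/
private lemma OneQ_rawG {p : ℕ} {α Γ δ : ℝ} (ha : 0 < α) (ha1 : α ≤ 1) (hΓ : 0 ≤ Γ)
    (hδ : 0 ≤ δ) (hδ1 : δ ≤ 1) {F G : Vec d → ℝ} {v w : Vec d}
    (hup : ∀ v' w' : Vec d, G v' - F w' ≤ (δ + Γ * mu α (v' - w')) * Wp p v')
    (htou : G v - F w = (δ + Γ * mu α (v - w)) * Wp p v) {h : Vec d} (hh : len h ≤ 1 / 2) :
    G (v + h) - G v ≤ 2 ^ p * (2 * p + 1) * (1 + Γ) * len h ^ α * Wp p v := by
  have hW := Wp_pos p v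
  have hW' := Wp_pos p (v + h)
  have hlα : 0 ≤ len h ^ α := Real.rpow_nonneg (len_nonneg h) _
  have i1 := OneQ_W p (v := v) hh
  have i2 := OneQ_Wd p (v := v) hh
  have i3 : len h ≤ len h ^ α := by
    rcases (len_nonneg h).eq_or_lt with h3 | h3
    · rw [← h3, Real.zero_rpow ha.ne']
    · calc len h = len h ^ (1 : ℝ) := (Real.rpow_one _).symm
        _ ≤ len h ^ α := Real.rpow_le_rpow_of_exponent_ge h3 (by linarith) ha1
  have e1 : v + h - w = (v - w) + h := by abel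
  have i4 : mu α (v + h - w) ≤ mu α (v - w) + len h ^ α := by
    rw [e1, ← OneQ_mu_small (α := α) hh]
    exact OneQ_mu_sub ha ha1 _ _
  have m0 := mu_nonneg α (v - w)
  have m1 := mu_le_one ha.le (v - w)
  have i5 := hup (v + h) w
  have i6 : (δ + Γ * mu α (v + h - w)) * Wp p (v + h) ≤
      (δ + Γ * mu α (v - w)) * Wp p (v + h) + Γ * len h ^ α * Wp p (v + h) := by
    have := mul_le_mul_of_nonneg_right (mul_le_mul_of_nonneg_left i4 hΓ) hW'.le
    linarith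
  have hΛ0 : 0 ≤ δ + Γ * mu α (v - w) := by positivity
  have hΛ1 : δ + Γ * mu α (v - w) ≤ 1 + Γ := by
    have := mul_le_mul_of_nonneg_left m1 hΓ
    linarith
  have i7 : (δ + Γ * mu α (v - w)) * (Wp p (v + h) - Wp p v) ≤
      (1 + Γ) * (2 * p * 2 ^ p * len h ^ α * Wp p v) := by
    calc (δ + Γ * mu α (v - w)) * (Wp p (v + h) - Wp p v)
        ≤ (δ + Γ * mu α (v - w)) * (2 * p * 2 ^ p * len h * Wp p v) :=
          mul_le_mul_of_nonneg_left i2 hΛ0
      _ ≤ (1 + Γ) * (2 * p * 2 ^ p * len h * Wp p v) := by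
          refine mul_le_mul_of_nonneg_right hΛ1 ?_
          have := len_nonneg h
          positivity
      _ ≤ (1 + Γ) * (2 * p * 2 ^ p * len h ^ α * Wp p v) := by gcongr
  have i8 : Γ * len h ^ α * Wp p (v + h) ≤ (1 + Γ) * (2 ^ p * len h ^ α * Wp p v) := by
    calc Γ * len h ^ α * Wp p (v + h) ≤ Γ * len h ^ α * (2 ^ p * Wp p v) :=
          mul_le_mul_of_nonneg_left i1 (mul_nonneg hΓ hlα)
      _ = Γ * (2 ^ p * len h ^ α * Wp p v) := by ring
      _ ≤ (1 + Γ) * (2 ^ p * len h ^ α * Wp p v) :=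
          mul_le_mul_of_nonneg_right (by linarith) (by positivity)
  have e2 : 2 ^ p * (2 * p + 1) * (1 + Γ) * len h ^ α * Wp p v =
      (1 + Γ) * (2 * p * 2 ^ p * len h ^ α * Wp p v) + (1 + Γ) * (2 ^ p * len h ^ α * Wp p v) := by
    ring
  rw [e2]
  have e3 : (δ + Γ * mu α (v - w)) * (Wp p (v + h) - Wp p v) =
      (δ + Γ * mu α (v - w)) * Wp p (v + h) - (δ + Γ * mu α (v - w)) * Wp p v := by ring
  rw [e3] at i7
  linarith

/-- the raw increments, `F` -/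
private lemma OneQ_rawF {p : ℕ} {α Γ δ : ℝ} (ha : 0 < α) (ha1 : α ≤ 1) (hΓ : 0 ≤ Γ)
    {F G : Vec d → ℝ} {v w : Vec d}
    (hup : ∀ v' w' : Vec d, G v' - F w' ≤ (δ + Γ * mu α (v' - w')) * Wp p v')
    (htou : G v - F w = (δ + Γ * mu α (v - w)) * Wp p v) {h : Vec d} (hh : len h ≤ 1 / 2) :
    F w - F (w + h) ≤ 2 ^ p * (2 * p + 1) * (1 + Γ) * len h ^ α * Wp p v := by
  have hW := Wp_pos p v
  have hlα : 0 ≤ len h ^ α := Real.rpow_nonneg (len_nonneg h) _
  have e1 : v - (w + h) = (v - w) + -h := by abel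
  have hh' : len (-h) ≤ 1 / 2 := by rw [len_neg]; exact hh
  have i4 : mu α (v - (w + h)) ≤ mu α (v - w) + len h ^ α := by
    have h3 := OneQ_mu_sub ha ha1 (v - w) (-h)
    rw [OneQ_mu_small hh', len_neg] at h3
    rw [e1]
    exact h3
  have i5 := hup v (w + h)
  have i6 : (δ + Γ * mu α (v - (w + h))) * Wp p v ≤
      (δ + Γ * mu α (v - w)) * Wp p v + Γ * len h ^ α * Wp p v := by
    have := mul_le_mul_of_nonneg_right (mul_le_mul_of_nonneg_left i4 hΓ) hW.le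
    linarith
  have h3 : (1 : ℝ) ≤ 2 ^ p * (2 * p + 1) := by
    have j1 : (1 : ℝ) ≤ 2 ^ p := one_le_pow₀ (by norm_num)
    have j2 : (1 : ℝ) ≤ 2 * p + 1 := by
      have : (0 : ℝ) ≤ p := Nat.cast_nonneg p
      linarith
    calc (1 : ℝ) = 1 * 1 := (one_mul 1).symm
      _ ≤ 2 ^ p * (2 * p + 1) := mul_le_mul j1 j2 zero_le_one (by linarith)
  have h4 : Γ ≤ 2 ^ p * (2 * p + 1) * (1 + Γ) := by
    calc Γ ≤ 1 * (1 + Γ) := by linarith
      _ ≤ 2 ^ p * (2 * p + 1) * (1 + Γ) := mul_le_mul_of_nonneg_right h3 (by linarith)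
  have h5 : Γ * len h ^ α * Wp p v ≤ 2 ^ p * (2 * p + 1) * (1 + Γ) * len h ^ α * Wp p v :=
    mul_le_mul_of_nonneg_right (mul_le_mul_of_nonneg_right h4 hlα) hW.le
  linarith

/-- the final form for small increments -/
private lemma OneQ_small {α α' K K' B D Γ : ℝ} {p m : ℕ} {v h : Vec d} (h0 : 0 < α') (h1 : α' < α)
    (hm : α' / (α - α') ≤ m) (hK : 0 ≤ K) (hK' : 0 ≤ K') (hΓ : 0 ≤ Γ) (hB : K + K' ≤ B)
    (hh : len h ≤ 1 / 2) (hA : D ≤ K * (1 + Γ) * len h ^ α * Wp p v)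
    (hD : D ≤ K' * Wp (p + 2 + 2 * m) v) :
    D ≤ B * (1 + Γ) * mu α' h * Wp (p + 2) v := by
  have ha1 : 1 ≤ 1 + nsq v := by linarith [sq_nonneg' v]
  have h3 := OneQ_interp (a := 1 + nsq v) (D := D) p m ha1 (len_nonneg h)
    (by linarith) h0 h1 hm (mul_nonneg hK (by linarith : 0 ≤ 1 + Γ)) hK' hA hD
  have e2 : ((1 + nsq v) ^ (p + 2))⁻¹ = Wp (p + 2) v := rfl
  rw [e2] at h3
  have h4 : K * (1 + Γ) + K' ≤ B * (1 + Γ) := by
    have h5 : K' ≤ K' * (1 + Γ) := le_mul_of_one_le_right hK' (by linarith)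
    have h6 := mul_le_mul_of_nonneg_right hB (by linarith : 0 ≤ 1 + Γ)
    linarith
  rw [OneQ_mu_small hh]
  refine h3.trans ?_
  exact mul_le_mul_of_nonneg_right (mul_le_mul_of_nonneg_right h4
    (Real.rpow_nonneg (len_nonneg h) _)) (Wp_pos _ _).le

theorem one_Q (Cl : ℕ → ℝ) (p : ℕ) {α α' : ℝ} (h0 : 0 < α') (h1 : α' < α) (h2 : α ≤ 1) :
    ∃ K : ℝ, 0 ≤ K ∧ ∀ (Γ δ : ℝ) (F G : Vec d → ℝ) (v w : Vec d), 0 ≤ Γ → 0 ≤ δ → δ ≤ 1 →
      FB Cl F → FB Cl G → len (v - w) ≤ 1 →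
      (∀ v' w' : Vec d, G v' - F w' ≤ (δ + Γ * mu α (v' - w')) * Wp p v') →
      (∀ u, |G u - F u| ≤ δ * Wp p u) →
      G v - F w = (δ + Γ * mu α (v - w)) * Wp p v →
      TQ Cl p α' (K * (1 + Γ)) δ (δ + Γ * mu α (v - w)) F G v w := by
  obtain ⟨m, hm⟩ := exists_nat_ge (α' / (α - α'))
  have hα0 : 0 < α := h0.trans h1
  obtain ⟨q, hq⟩ : ∃ q, q = p + 2 + 2 * m := ⟨_, rfl⟩
  obtain ⟨Cq, hCq⟩ : ∃ Cq : ℝ, Cq = |(d + 1) ^ q * Cl (2 * q)| := ⟨_, rfl⟩
  obtain ⟨C2, hC2⟩ : ∃ C2 : ℝ, C2 = |(d + 1) ^ (p + 2) * Cl (2 * (p + 2))| := ⟨_, rfl⟩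
  have hCq0 : 0 ≤ Cq := by rw [hCq]; exact abs_nonneg _
  have hC20 : 0 ≤ C2 := by rw [hC2]; exact abs_nonneg _
  have hK0 : (0 : ℝ) ≤ 2 ^ p * (2 * p + 1) := by positivity
  have hpw : (2 : ℝ) ^ q ≤ 4 ^ q := pow_le_pow_left₀ (by norm_num) (by norm_num) q
  have h4p : (1 : ℝ) ≤ 4 ^ (p + 2) := one_le_pow₀ (by norm_num)
  have hK' : 0 ≤ 4 ^ q * Cq := by positivity
  have hK2 : 0 ≤ 2 * (4 ^ (p + 2) * C2) := by positivity
  refine ⟨2 ^ p * (2 * p + 1) + 4 ^ q * Cq + 2 * (4 ^ (p + 2) * C2), by positivity, ?_⟩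
  intro Γ δ F G v w hΓ hδ hδ1 hF hG hvw hup hdif htou
  have hG1 : 0 < 1 + Γ := by linarith
  have m0 := mu_nonneg α (v - w)
  have hBsum : 2 ^ p * (2 * p + 1) + 4 ^ q * Cq ≤
      2 ^ p * (2 * p + 1) + 4 ^ q * Cq + 2 * (4 ^ (p + 2) * C2) := by linarith
  have hB2 : 2 * (4 ^ (p + 2) * C2) ≤
      (2 ^ p * (2 * p + 1) + 4 ^ q * Cq + 2 * (4 ^ (p + 2) * C2)) * (1 + Γ) := by
    refine (show 2 * (4 ^ (p + 2) * C2) ≤ 2 ^ p * (2 * p + 1) + 4 ^ q * Cq +
      2 * (4 ^ (p + 2) * C2) by linarith).trans ?_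
    exact le_mul_of_one_le_right (by positivity) (by linarith)
  refine ⟨hF, hG, by positivity, hδ, ?_, hvw, hdif, ?_, htou, ?_, ?_⟩
  · have := mul_nonneg hΓ m0
    linarith
  · intro v' w' c hc hc1 hcl
    have hW := Wp_pos p v'
    have j1 := mul_le_mul_of_nonneg_left (hup v' w') (sq_nonneg c)
    refine j1.trans ?_
    rw [← mul_assoc]
    refine mul_le_mul_of_nonneg_right ?_ hW.le
    have j2 := mul_le_mul_of_nonneg_left (OneQ_mu_scale hα0 h2 hc hc1 hcl) hΓ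
    have j3 : c ^ 2 * δ ≤ δ := mul_le_of_le_one_left hδ (pow_le_one₀ hc.le hc1)
    calc c ^ 2 * (δ + Γ * mu α (v' - w')) = c ^ 2 * δ + Γ * (c ^ 2 * mu α (v' - w')) := by ring
      _ ≤ δ + Γ * mu α (v - w) := add_le_add j3 j2
  · intro h
    have w1 := Wp_pos (p + 2) v
    have w2 := Wp_pos (p + 2) (v + h)
    have hmu := mu_nonneg α' h
    rcases le_or_gt (len h) (1 / 2) with hh | hh
    · have hD : G (v + h) - G v ≤ 4 ^ q * Cq * Wp (p + 2 + 2 * m) v := by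
        rw [← hq]
        have i1 := OneQ_dec hG q (v + h)
        rw [← hCq] at i1
        have i2 := OneQ_W q (v := v) hh
        have i3 := hG.nonneg v
        calc G (v + h) - G v ≤ G (v + h) := by linarith
          _ ≤ Cq * Wp q (v + h) := i1
          _ ≤ Cq * (2 ^ q * Wp q v) := mul_le_mul_of_nonneg_left i2 hCq0
          _ ≤ Cq * (4 ^ q * Wp q v) := mul_le_mul_of_nonneg_left
              (mul_le_mul_of_nonneg_right hpw (Wp_pos q v).le) hCq0
          _ = 4 ^ q * Cq * Wp q v := by ring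
      have h3 := OneQ_small (D := G (v + h) - G v) h0 h1 hm hK0 hK' hΓ hBsum hh
        (OneQ_rawG hα0 h2 hΓ hδ hδ1 hup htou hh) hD
      refine h3.trans ?_
      exact mul_le_mul_of_nonneg_left (by linarith) (by positivity)
    · have h3 := OneQ_big h0 (by linarith) hh
      have i1 := OneQ_dec hG (p + 2) (v + h)
      rw [← hC2] at i1
      have i3 := hG.nonneg v
      have hx : 0 ≤ C2 * Wp (p + 2) (v + h) := by positivity
      calc G (v + h) - G v ≤ C2 * Wp (p + 2) (v + h) := by linarith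
        _ ≤ (2 * mu α' h) * (C2 * Wp (p + 2) (v + h)) := le_mul_of_one_le_left hx h3
        _ = 2 * (1 * C2) * mu α' h * Wp (p + 2) (v + h) := by ring
        _ ≤ 2 * (4 ^ (p + 2) * C2) * mu α' h * (Wp (p + 2) v + Wp (p + 2) (v + h)) := by
            gcongr
            linarith
        _ ≤ _ := mul_le_mul_of_nonneg_right (mul_le_mul_of_nonneg_right hB2 hmu) (by positivity)
  · intro h
    have w1 := Wp_pos (p + 2) v
    have hmu := mu_nonneg α' h
    rcases le_or_gt (len h) (1 / 2) with hh | hh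
    · have hD : F w - F (w + h) ≤ 4 ^ q * Cq * Wp (p + 2 + 2 * m) v := by
        rw [← hq]
        have i1 := OneQ_dec hF q w
        rw [← hCq] at i1
        have i2 := OneQ_W1 q hvw
        have i3 := hF.nonneg (w + h)
        calc F w - F (w + h) ≤ F w := by linarith
          _ ≤ Cq * Wp q w := i1
          _ ≤ Cq * (4 ^ q * Wp q v) := mul_le_mul_of_nonneg_left i2 hCq0
          _ = 4 ^ q * Cq * Wp q v := by ring
      exact OneQ_small (D := F w - F (w + h)) h0 h1 hm hK0 hK' hΓ hBsum hh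
        (OneQ_rawF hα0 h2 hΓ hup htou hh) hD
    · have h3 := OneQ_big h0 (by linarith) hh
      have i1 := OneQ_dec hF (p + 2) w
      rw [← hC2] at i1
      have i2 := OneQ_W1 (p + 2) hvw
      have i3 := hF.nonneg (w + h)
      have hx : 0 ≤ C2 * (4 ^ (p + 2) * Wp (p + 2) v) := by positivity
      calc F w - F (w + h) ≤ C2 * Wp (p + 2) w := by linarith
        _ ≤ C2 * (4 ^ (p + 2) * Wp (p + 2) v) := mul_le_mul_of_nonneg_left i2 hC20
        _ ≤ (2 * mu α' h) * (C2 * (4 ^ (p + 2) * Wp (p + 2) v)) := le_mul_of_one_le_left hx h3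
        _ = 2 * (4 ^ (p + 2) * C2) * mu α' h * Wp (p + 2) v := by ring
        _ ≤ _ := mul_le_mul_of_nonneg_right (mul_le_mul_of_nonneg_right hB2 hmu) w1.le

end Pool.Agent.H87.QH
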