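import Pool.Agent.H87.QH.Defs

/-!
# Module CplG: geometry of the coupling

`e = dir m`, `e₁ = dir m₁`, `u = uu m m₁`. If `e + e₁ ≠ 0`: `nsq u = 1` (`nsq_dir`, H82/BK/Geo), `S x = x - 2(u·x)u = -refl u x`, `S e = -e₁` (`2(u·e)u = e + e₁` since `|e+e₁|² = 2(1+e·e₁)`), so `m₁ = -ρ S m`, `ρ = |m₁|/|m|`. If `e + e₁ = 0`: `u = 0`, `S = id`, `S e = e = -e₁`.
* `nsq_cpl`: `nsq (S h) = nsq h` (`nsq_refl`; `u = 0` trivial).
* `cpl_dist`: with `h = hh σ m ⟂ m` (`dot m (hh σ m) = 0`): `v' - w' = (v-w) + h - ρ S h = (m - m₁) + h - ρ S h = (m+h) + ρ S (m-h)`, `v - w = m + ρ S m`. With `N = nsq m`, `n = nsq h`, `A = (u·m)²`, `B = (u·h)²`, `nsq u = 1`: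
`nsq (v'-w') = (1+ρ²)(N+n) + 2ρ (N - n - 2A + 2B)`, `nsq (v-w) = (1+ρ²) N + 2ρ(N-2A)`, `(N+n)/N · nsq(v-w) - nsq(v'-w') = 4ρ [n (1 - A/N) - B] ≥ 0`: `B = (h·(u - (u·e)e))² ≤ n (1 - (u·e)²)` (`dot_sq_le`, `h ⟂ e`). Also
`N/(N+n) = c²` (`nsq_hh`: `nsq (hh σ m) = nsq m (1-c²)/c²`). For `u = 0`: `A = B = 0`, and `nsq(v'-w') = (1+ρ²)(N+n) + 2ρ(N-n)`, `nsq(v-w) = (1+ρ)² N`: also `≤`.
* `m₁ = m + (w-v)` may be `0`: then `cpl = 0` (`len m₁ / len m = 0`) and `v' - w' = m + h`, `v - w = m`, `|m+h| = |m|/c`: equality. (`m ≠ 0` follows from `0 < dot m σ`.)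
-/

set_option autoImplicit false

open MeasureTheory Set Filter Topology Pool.Agent.H25.Kin Pool.Agent.H48.PL Pool.Agent.H48.PD
open Pool.Agent.H82.BK Pool.Agent.H82.CM Pool.Agent.H48.PR
open scoped ENNReal

namespace Pool.Agent.H87.QH

variable {d : ℕ}

private lemma S_nsq (u x : Vec d) (hu : nsq u = 1 ∨ u = 0) : nsq (x - (2 * dot u x) • u) = nsq x := by
  rcases hu with hu | hu
  · rw [nsq_sub, nsq_smul, dot_smul, hu, dot_comm x u]
    ring
  · rw [hu, smul_zero, sub_zero]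

private lemma dir_zero' : dir (0 : Vec d) = 0 := by
  unfold dir
  rw [smul_zero]

private lemma uu_cases (m m₁ : Vec d) : nsq (uu m m₁) = 1 ∨ uu m m₁ = 0 := by
  unfold uu
  rcases eq_or_ne (dir m + dir m₁) 0 with h | h
  · right
    rw [h, dir_zero']
  · left
    exact nsq_dir h

private lemma dir_smul' {m : Vec d} (hm : m ≠ 0) : len m • dir m = m := by
  unfold dir
  rw [smul_smul, mul_inv_cancel₀ (len_pos hm).ne', one_smul]

private lemma S_dir {m m₁ : Vec d} (hm : m ≠ 0) (h1 : m₁ ≠ 0) :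
    dir m - (2 * dot (uu m m₁) (dir m)) • uu m m₁ = -dir m₁ := by
  rcases eq_or_ne (dir m + dir m₁) 0 with h | h
  · have h0 : uu m m₁ = 0 := by
      unfold uu
      rw [h, dir_zero']
    rw [h0, smul_zero, sub_zero]
    exact eq_neg_of_add_eq_zero_left h
  · have n1 := nsq_dir hm
    have n2 := nsq_dir h1
    have hs := len_pos h
    have e3 : nsq (dir m + dir m₁) = 2 * dot (dir m + dir m₁) (dir m) := by
      rw [nsq_add, dot_comm (dir m + dir m₁), dot_add, dot_self, n1, n2]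
      ring
    have e4 : (2 * dot (uu m m₁) (dir m)) • uu m m₁ = dir m + dir m₁ := by
      have e5 : uu m m₁ = (len (dir m + dir m₁))⁻¹ • (dir m + dir m₁) := rfl
      rw [e5, smul_dot, smul_smul]
      have e6 : 2 * ((len (dir m + dir m₁))⁻¹ * dot (dir m + dir m₁) (dir m)) *
          (len (dir m + dir m₁))⁻¹ = 1 := by
        rw [← len_sq] at e3
        field_simp
        linarith
      rw [e6, one_smul]
    rw [e4]
    abel

private lemma S_m {m m₁ : Vec d} (hm : m ≠ 0) :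
    (len m₁ / len m) • (m - (2 * dot (uu m m₁) m) • uu m m₁) = -m₁ := by
  rcases eq_or_ne m₁ 0 with h1 | h1
  · have h0 : len m₁ = 0 := by rw [h1, len_zero]
    rw [h0, zero_div, zero_smul, h1, neg_zero]
  · have e1 : m - (2 * dot (uu m m₁) m) • uu m m₁ = len m • (-dir m₁) := by
      rw [← S_dir hm h1, smul_sub, dir_smul' hm, smul_smul]
      have e7 : dot (uu m m₁) m = len m * dot (uu m m₁) (dir m) := by rw [← dot_smul, dir_smul' hm]
      rw [e7]
      congr 2
      ring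
    rw [e1, smul_smul, div_mul_cancel₀ _ (len_pos hm).ne', smul_neg, dir_smul' h1]

theorem len_cpl {m m₁ : Vec d} (h : Vec d) : len (cpl m m₁ h) = len m₁ / len m * len h := by
  unfold cpl
  rw [len_smul (div_nonneg (len_nonneg _) (len_nonneg _))]
  congr 1
  unfold len
  rw [S_nsq _ _ (uu_cases m m₁)]

private lemma perp_bound {u m h : Vec d} (hu : nsq u = 1 ∨ u = 0) (hp : dot h m = 0) :
    dot u h ^ 2 * nsq m ≤ nsq h * (nsq m - dot u m ^ 2) := by
  rcases hu with hu | hu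
  · rcases eq_or_ne m 0 with hm | hm
    · subst hm
      have e1 : nsq (0 : Vec d) = 0 := by unfold nsq; simp
      have e2 : dot u (0 : Vec d) = 0 := by unfold dot; simp
      rw [e1, e2]
      simp
    · have hN : 0 < nsq m := sq_pos_of_ne hm
      have h1 := dot_sq_le h (u - (dot u m / nsq m) • m)
      have h2 : dot h (u - (dot u m / nsq m) • m) = dot u h := by
        rw [dot_sub, dot_smul, hp, mul_zero, sub_zero, dot_comm]
      have h3 : nsq (u - (dot u m / nsq m) • m) * nsq m = nsq m - dot u m ^ 2 := by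
        rw [nsq_sub, nsq_smul, dot_smul, hu]
        field_simp
        ring
      rw [h2] at h1
      calc dot u h ^ 2 * nsq m ≤ nsq h * nsq (u - (dot u m / nsq m) • m) * nsq m :=
            mul_le_mul_of_nonneg_right h1 hN.le
        _ = _ := by rw [mul_assoc, h3]
  · have e1 : dot u h = 0 := by rw [hu]; unfold dot; simp
    have e2 : dot u m = 0 := by rw [hu]; unfold dot; simp
    rw [e1, e2]
    have h1 : 0 ≤ nsq h := sq_nonneg' h
    have h2 : 0 ≤ nsq m := sq_nonneg' m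
    nlinarith [mul_nonneg h1 h2]

private lemma core {u m h : Vec d} (hu : nsq u = 1 ∨ u = 0) (hp : dot h m = 0) {ρ : ℝ} (hρ : 0 ≤ ρ) :
    nsq m * nsq (m + ρ • (m - (2 * dot u m) • u) + h - ρ • (h - (2 * dot u h) • u)) ≤
      (nsq m + nsq h) * nsq (m + ρ • (m - (2 * dot u m) • u)) := by
  have e1 : nsq (m + ρ • (m - (2 * dot u m) • u)) =
      (1 + ρ ^ 2) * nsq m + 2 * ρ * (nsq m - 2 * dot u m ^ 2) := by
    rw [nsq_add, nsq_smul, S_nsq _ _ hu, dot_smul, dot_sub, dot_smul, dot_self, dot_comm m u]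
    ring
  have e2 : m + ρ • (m - (2 * dot u m) • u) + h - ρ • (h - (2 * dot u h) • u) =
      (m + h) + ρ • ((m - h) - (2 * dot u (m - h)) • u) := by
    rw [dot_sub]
    module
  have hp' : dot m h = 0 := by rw [dot_comm]; exact hp
  have e3 : nsq (m + ρ • (m - (2 * dot u m) • u) + h - ρ • (h - (2 * dot u h) • u)) =
      (1 + ρ ^ 2) * (nsq m + nsq h) +
        2 * ρ * (nsq m - nsq h - 2 * dot u m ^ 2 + 2 * dot u h ^ 2) := by
    rw [e2, nsq_add, nsq_smul, S_nsq _ _ hu, dot_smul, dot_sub (m + h), dot_smul (2 * dot u (m - h)),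
      dot_comm (m + h) u, dot_add u, dot_sub u, dot_sub (m + h), dot_comm (m + h) m,
      dot_comm (m + h) h, dot_add m, dot_add h, dot_self, dot_self, nsq_add, nsq_sub, hp, hp']
    ring
  have h1 := perp_bound hu hp
  rw [e1, e3]
  nlinarith [mul_nonneg hρ (sub_nonneg.2 h1)]

theorem cpl_dist {v w m σ : Vec d} (hσ : nsq σ = 1) (hm : 0 < dot m σ) :
    co m σ * len (v + hh σ m - (w + cpl m (m + (w - v)) (hh σ m))) ≤ len (v - w) := by
  have hm0 := ne_zero_of_dot hm
  have hc := co_pos hm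
  have hN : 0 < nsq m := sq_pos_of_ne hm0
  have hn : 0 ≤ nsq (hh σ m) := sq_nonneg' _
  have e0 := S_m (m := m) (m₁ := m + (w - v)) hm0
  have e1 : v - w = m + (len (m + (w - v)) / len m) •
      (m - (2 * dot (uu m (m + (w - v))) m) • uu m (m + (w - v))) := by
    rw [e0]
    abel
  have e2 : v + hh σ m - (w + cpl m (m + (w - v)) (hh σ m)) =
      m + (len (m + (w - v)) / len m) •
        (m - (2 * dot (uu m (m + (w - v))) m) • uu m (m + (w - v))) + hh σ m -
      (len (m + (w - v)) / len m) •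
        (hh σ m - (2 * dot (uu m (m + (w - v))) (hh σ m)) • uu m (m + (w - v))) := by
    rw [← e1]
    unfold cpl
    abel
  have h1 := core (uu_cases m (m + (w - v))) (dot_hh hm)
    (div_nonneg (len_nonneg (m + (w - v))) (len_nonneg m))
  rw [← e2, ← e1] at h1
  have h2 : co m σ ^ 2 * (nsq m + nsq (hh σ m)) = nsq m := by
    rw [nsq_hh hσ hm]
    field_simp
    ring
  have h3 : (co m σ * len (v + hh σ m - (w + cpl m (m + (w - v)) (hh σ m)))) ^ 2 ≤
      len (v - w) ^ 2 := by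
    rw [mul_pow, len_sq, len_sq]
    have h4 : (nsq m + nsq (hh σ m)) *
        (co m σ ^ 2 * nsq (v + hh σ m - (w + cpl m (m + (w - v)) (hh σ m)))) ≤
        (nsq m + nsq (hh σ m)) * nsq (v - w) := by
      calc _ = (co m σ ^ 2 * (nsq m + nsq (hh σ m))) *
            nsq (v + hh σ m - (w + cpl m (m + (w - v)) (hh σ m))) := by ring
        _ = nsq m * nsq (v + hh σ m - (w + cpl m (m + (w - v)) (hh σ m))) := by rw [h2]
        _ ≤ _ := h1
    exact le_of_mul_le_mul_left h4 (by linarith)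
  exact abs_le_of_sq_le_sq' h3 (len_nonneg _) |>.2

end Pool.Agent.H87.QH
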