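import Pool.Agent.H87.QH.Defs

/-!
# Module CplI: the coupling preserves the angular integrals

`e = dir m`, `e₁ = dir m₁`, `u = uu m m₁`, `R x = refl e₁ (refl u x)` (Cap.lean: `refl k z = 2(k·z)k - z`). If `e + e₁ ≠ 0`: `nsq u = 1`, `refl u e = e₁` (`2(u·e)u = e+e₁`), `R e = e₁`; `R` preserves `surf d` (`refl_preserving` twice), `dot` (polarize `nsq_refl`),
`dot m₁ (R σ) = |m₁| (e·σ)`, so the half spaces correspond and `co m₁ (R σ) = co m σ`; `hh (R σ) m₁ = |m₁| R (σ/(e·σ) - e) = (|m₁|/|m|) R (hh σ m) = cpl m m₁ (hh σ m)`, since `hh σ m ⟂ m` and `R h = -refl u h = h - 2(u·h)u` for `h ⟂ e`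
(`e₁ · refl u h = refl u e · refl u h = e·h = 0`). If `e₁ = -e` (`u = 0`): `R = refl e₁ ∘ (-1)`, the same.
`cpl_int`: `lintegral_comp` for the measure preserving map `R` restricted to the half spaces (`MeasurePreserving.restrict_preimage`, as in `refl_avg`, H82/BK/Avg).
`cpl_ind`: `Φ` independent of `h`; `BB_dir` (`BB_eq` at `m` and `m₁`).
`gain_cpl`: `gain_eq` (H82/CM/FoldG) at `w`, translate `m₁ = m + (w-v)` (`lintegral_add_right_eq_self`), `w - m₁ = v - m`, `cpl_int` for a.e. `m` (`m ≠ 0`, `m + (w-v) ≠ 0`: `ae_ne`). `loss_cpl`: `loss_eq`, `BB_dir`.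
`measurable_cpl`: `dir` is measurable (`len⁻¹ • id`).
-/

set_option autoImplicit false

open MeasureTheory Set Filter Topology Pool.Agent.H25.Kin Pool.Agent.H48.PL Pool.Agent.H48.PD
open Pool.Agent.H82.BK Pool.Agent.H82.CM Pool.Agent.H48.PR
open scoped ENNReal

namespace Pool.Agent.H87.QH

variable {d : ℕ}

private lemma CplI_dir_meas : Measurable (dir : Vec d → Vec d) := by
  unfold dir
  exact (continuous_len.measurable.inv).smul measurable_id

private lemma CplI_dot_meas {α : Type*} [MeasurableSpace α] {f g : α → Vec d} (hf : Measurable f)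
    (hg : Measurable g) : Measurable fun q => dot (f q) (g q) := by
  have h : Continuous fun q : Vec d × Vec d => dot q.1 q.2 := by
    unfold dot
    fun_prop
  have h1 : Measurable fun q => (f q, g q) := hf.prodMk hg
  have h2 := h.measurable.comp h1
  exact h2

private lemma CplI_uu_meas : Measurable fun q : Vec d × Vec d => uu q.1 q.2 := by
  unfold uu
  have h0 : Measurable fun q : Vec d × Vec d => dir q.1 := CplI_dir_meas.comp measurable_fst
  have h0' : Measurable fun q : Vec d × Vec d => dir q.2 := CplI_dir_meas.comp measurable_snd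
  have h1 : Measurable fun q : Vec d × Vec d => dir q.1 + dir q.2 := h0.add h0'
  have h2 := CplI_dir_meas.comp h1
  exact h2

theorem measurable_cpl : Measurable fun q : Vec d × Vec d × Vec d => cpl q.1 q.2.1 q.2.2 := by
  unfold cpl
  have hp : Measurable fun q : Vec d × Vec d × Vec d => ((q.1, q.2.1) : Vec d × Vec d) :=
    measurable_fst.prodMk (measurable_fst.comp measurable_snd)
  have hu0 := CplI_uu_meas.comp hp
  have hu : Measurable fun q : Vec d × Vec d × Vec d => uu q.1 q.2.1 := hu0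
  have hh' : Measurable fun q : Vec d × Vec d × Vec d => q.2.2 := measurable_snd.comp measurable_snd
  have hh1 : Measurable fun q : Vec d × Vec d × Vec d => q.2.1 := measurable_fst.comp measurable_snd
  have hl0 := continuous_len.measurable.comp hh1
  have hl1 : Measurable fun q : Vec d × Vec d × Vec d => len q.2.1 := hl0
  have hl2 : Measurable fun q : Vec d × Vec d × Vec d => len q.1 :=
    continuous_len.measurable.comp measurable_fst
  have hl : Measurable fun q : Vec d × Vec d × Vec d => len q.2.1 / len q.1 := hl1.div hl2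
  have hd1 : Measurable fun q : Vec d × Vec d × Vec d => 2 * dot (uu q.1 q.2.1) q.2.2 :=
    (CplI_dot_meas hu hh').const_mul 2
  exact hl.smul (hh'.sub (hd1.smul hu))

private lemma CplI_adj (k x y : Vec d) : dot x (refl k y) = dot (refl k x) y := by
  rw [refl_apply, refl_apply, dot_sub, dot_smul, dot_comm (_ - x) y, dot_sub, dot_smul,
    dot_comm x k, dot_comm y k, dot_comm y x]
  ring

private lemma CplI_uu {m m₁ : Vec d} (hm : m ≠ 0) (hm₁ : m₁ ≠ 0) :
    (nsq (uu m m₁) = 1 ∨ uu m m₁ = 0) ∧ refl (uu m m₁) (dir m) = dir m₁ := by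
  have h1 : nsq (dir m) = 1 := nsq_dir hm
  have h2 : nsq (dir m₁) = 1 := nsq_dir hm₁
  by_cases h : dir m + dir m₁ = 0
  · have hu : uu m m₁ = 0 := by
      unfold uu
      rw [h]
      unfold dir
      exact smul_zero _
    refine ⟨Or.inr hu, ?_⟩
    rw [hu, refl_apply, smul_zero, zero_sub]
    exact (eq_neg_of_add_eq_zero_right h).symm
  · refine ⟨Or.inl (nsq_dir h), ?_⟩
    rw [refl_apply]
    set s : Vec d := dir m + dir m₁ with hs
    have hl : 0 < len s := len_pos h
    have hl2 : len s ^ 2 = nsq s := Real.sq_sqrt (sq_nonneg' s)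
    have h3 : nsq s = 2 * dot s (dir m) := by
      rw [hs, nsq_add, dot_comm (dir m + dir m₁) (dir m), dot_add, dot_self, h1, h2]
      ring
    have h4 : (2 * dot (uu m m₁) (dir m)) • uu m m₁ = s := by
      have h5 : uu m m₁ = (len s)⁻¹ • s := rfl
      rw [h5, smul_dot, smul_smul]
      have h6 : 2 * ((len s)⁻¹ * dot s (dir m)) * (len s)⁻¹ = 1 := by
        have h7 : 2 * ((len s)⁻¹ * dot s (dir m)) * (len s)⁻¹ =
            (2 * dot s (dir m)) * ((len s ^ 2)⁻¹) := by
          rw [pow_two, mul_inv]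
          ring
        rw [h7, ← h3, hl2]
        exact mul_inv_cancel₀ (by rw [← hl2]; positivity)
      rw [h6, one_smul]
    rw [h4, hs, add_sub_cancel_left]

private lemma CplI_refl0 (z : Vec d) : refl 0 z = -z := by
  rw [refl_apply, smul_zero, zero_sub]

private lemma CplI_inv {m m₁ : Vec d} (hm : m ≠ 0) (hm₁ : m₁ ≠ 0) :
    refl (uu m m₁) (dir m₁) = dir m := by
  obtain ⟨h, h1⟩ := CplI_uu hm hm₁
  rw [← h1]
  rcases h with h | h
  · exact refl_refl h _
  · rw [h, CplI_refl0, CplI_refl0, neg_neg]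

private lemma CplI_pres (hd : 1 ≤ d) {m m₁ : Vec d} (hm : m ≠ 0) (hm₁ : m₁ ≠ 0) :
    MeasurePreserving (fun σ : Vec d => refl (dir m₁) (refl (uu m m₁) σ)) (surf d) (surf d) := by
  have h1 : MeasurePreserving (refl (dir m₁)) (surf d) (surf d) := refl_preserving hd (nsq_dir hm₁)
  have h2 : MeasurePreserving (refl (uu m m₁)) (surf d) (surf d) := by
    rcases (CplI_uu hm hm₁).1 with h | h
    · exact refl_preserving hd h
    · have h3 := neg_preserving hd
      have h4 : (fun σ : Vec d => -σ) = refl (uu m m₁) := by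
        funext σ
        rw [h, CplI_refl0]
      rwa [h4] at h3
  exact h1.comp h2

private lemma CplI_dot {m m₁ : Vec d} (hm : m ≠ 0) (hm₁ : m₁ ≠ 0) (σ : Vec d) :
    dot (dir m₁) (refl (dir m₁) (refl (uu m m₁) σ)) = dot (dir m) σ := by
  rw [dot_refl (nsq_dir hm₁), CplI_adj, CplI_inv hm hm₁]

private lemma CplI_len_dir {m : Vec d} (hm : m ≠ 0) : len m • dir m = m := by
  unfold dir
  rw [smul_smul, mul_inv_cancel₀ (len_pos hm).ne', one_smul]

private lemma CplI_dotm {m : Vec d} (hm : m ≠ 0) (σ : Vec d) :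
    dot m σ = len m * dot (dir m) σ := by
  conv_lhs => rw [← CplI_len_dir hm]
  rw [smul_dot]

private lemma CplI_hh {m σ : Vec d} (h : 0 < dot m σ) :
    hh σ m = len m • ((dot (dir m) σ)⁻¹ • σ - dir m) := by
  have hm := ne_zero_of_dot h
  have hl := len_pos hm
  have hc : 0 < dot (dir m) σ := by
    rw [CplI_dotm hm] at h
    exact pos_of_mul_pos_right h hl.le
  have hl2 : nsq m = len m ^ 2 := (Real.sq_sqrt (sq_nonneg' m)).symm
  unfold hh
  rw [smul_sub, CplI_len_dir hm, smul_smul, CplI_dotm hm, hl2]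
  congr 2
  field_simp

private lemma CplI_key {m m₁ σ : Vec d} (hm : m ≠ 0) (hm₁ : m₁ ≠ 0) (h : 0 < dot m σ) :
    hh (refl (dir m₁) (refl (uu m m₁) σ)) m₁ = cpl m m₁ (hh σ m) := by
  have hl := len_pos hm
  have hl₁ := len_pos hm₁
  have hc : 0 < dot (dir m) σ := by
    rw [CplI_dotm hm] at h
    exact pos_of_mul_pos_right h hl.le
  have h1 : 0 < dot m₁ (refl (dir m₁) (refl (uu m m₁) σ)) := by
    rw [CplI_dotm hm₁, CplI_dot hm hm₁]
    exact mul_pos hl₁ hc
  have h2 : refl (dir m₁) (refl (uu m m₁) (dir m)) = dir m₁ := by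
    rw [(CplI_uu hm hm₁).2, refl_apply, dot_self, nsq_dir hm₁, mul_one, two_smul, add_sub_cancel_right]
  set x : Vec d := (dot (dir m) σ)⁻¹ • σ - dir m with hx
  have h3 : hh (refl (dir m₁) (refl (uu m m₁) σ)) m₁ =
      len m₁ • refl (dir m₁) (refl (uu m m₁) x) := by
    rw [CplI_hh h1, CplI_dot hm hm₁, hx, map_sub, map_sub, map_smul, map_smul, h2]
  have h4 : dot (dir m) x = 0 := by
    rw [hx, dot_sub, dot_smul, dot_self, nsq_dir hm, inv_mul_cancel₀ hc.ne', sub_self]
  have h5 : refl (dir m₁) (refl (uu m m₁) x) = -refl (uu m m₁) x := by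
    rw [refl_apply (dir m₁), CplI_adj, CplI_inv hm hm₁, h4, mul_zero, zero_smul, zero_sub]
  have h6 : hh σ m = len m • x := CplI_hh h
  have h7 : cpl m m₁ (hh σ m) = (len m₁ / len m) • -refl (uu m m₁) (hh σ m) := by
    unfold cpl
    rw [refl_apply, neg_sub]
  rw [h3, h5, h7, h6, map_smul, ← smul_neg, smul_smul, div_mul_cancel₀ _ hl.ne']

private lemma CplI_pair (m : Vec d) : Measurable fun σ : Vec d => ((m, σ) : Vec d × Vec d) :=
  measurable_const.prodMk measurable_id

private lemma CplI_mhh (m : Vec d) : Measurable fun σ : Vec d => hh σ m := by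
  have h1 : Measurable fun q : Vec d × Vec d => hh q.2 q.1 := measurable_hh
  have h2 := h1.comp (CplI_pair m)
  exact h2

private lemma CplI_mco (m : Vec d) : Measurable fun σ : Vec d => co m σ := by
  have h1 : Measurable fun q : Vec d × Vec d => co q.1 q.2 := measurable_co
  have h2 := h1.comp (CplI_pair m)
  exact h2

private lemma CplI_mf {m : Vec d} {Φ : ℝ → Vec d → ℝ≥0∞}
    (hΦ : Measurable fun q : ℝ × Vec d => Φ q.1 q.2) :
    Measurable fun σ : Vec d => Φ (co m σ) (hh σ m) := by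
  have h1 : Measurable fun σ : Vec d => ((co m σ, hh σ m) : ℝ × Vec d) :=
    (CplI_mco m).prodMk (CplI_mhh m)
  have h2 := hΦ.comp h1
  exact h2

theorem cpl_int (hd : 1 ≤ d) {m m₁ : Vec d} (hm : m ≠ 0) (hm₁ : m₁ ≠ 0) {Φ : ℝ → Vec d → ℝ≥0∞}
    (hΦ : Measurable fun q : ℝ × Vec d => Φ q.1 q.2) :
    ∫⁻ σ in {σ : Vec d | 0 < dot m₁ σ}, Φ (co m₁ σ) (hh σ m₁) ∂(surf d) =
      ∫⁻ σ in {σ : Vec d | 0 < dot m σ}, Φ (co m σ) (cpl m m₁ (hh σ m)) ∂(surf d) := by
  have hS := measurableSet_half m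
  have hS₁ := measurableSet_half m₁
  have hR := CplI_pres hd hm hm₁
  have hpre : (fun σ : Vec d => refl (dir m₁) (refl (uu m m₁) σ)) ⁻¹' {σ : Vec d | 0 < dot m₁ σ} =
      {σ : Vec d | 0 < dot m σ} := by
    ext σ
    simp only [mem_preimage, mem_ofPred_eq]
    rw [CplI_dotm hm₁, CplI_dot hm hm₁, CplI_dotm hm]
    exact ⟨fun h => mul_pos (len_pos hm) (pos_of_mul_pos_right h (len_pos hm₁).le),
      fun h => mul_pos (len_pos hm₁) (pos_of_mul_pos_right h (len_pos hm).le)⟩
  have hRr : MeasurePreserving (fun σ : Vec d => refl (dir m₁) (refl (uu m m₁) σ))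
      ((surf d).restrict {σ : Vec d | 0 < dot m σ})
      ((surf d).restrict {σ : Vec d | 0 < dot m₁ σ}) := by
    have := hR.restrict_preimage hS₁
    rwa [hpre] at this
  rw [← hRr.lintegral_comp (CplI_mf hΦ)]
  refine setLIntegral_congr_fun hS fun σ hσ => ?_
  have hσ' : 0 < dot m σ := hσ
  have e1 : co m₁ (refl (dir m₁) (refl (uu m m₁) σ)) = co m σ := by
    rw [co_eq, co_eq, CplI_dot hm hm₁]
  simp only [e1, CplI_key hm hm₁ hσ']

private lemma CplI_Kn {b : ℝ → ℝ} (hb : Measurable b) (γ ε : ℝ) :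
    Measurable fun c : ℝ => Kn d γ (bt b ε) c := by
  unfold Kn
  have h0 : Measurable fun c : ℝ => 2 * c ^ 2 - 1 := by fun_prop
  have h1' := (measurable_bt hb ε).comp h0
  have h1 : Measurable fun c : ℝ => bt b ε (2 * c ^ 2 - 1) := h1'
  have h2 : Measurable fun c : ℝ => c ^ (-2 - γ) := measurable_id.pow_const (-2 - γ)
  exact (h2.const_mul _).mul h1

theorem BB_dir (hd : 2 ≤ d) (γ : ℝ) {b : ℝ → ℝ} (hb : Measurable b) (ε : ℝ) {m m₁ : Vec d}
    (hm : m ≠ 0) (hm₁ : m₁ ≠ 0) : BB b ε (dir m₁) = BB b ε (dir m) := by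
  rw [← BB_eq hd γ hb ε hm, ← BB_eq hd γ hb ε hm₁]
  have hK : Measurable fun q : ℝ × Vec d => Kn d γ (bt b ε) q.1 :=
    (CplI_Kn hb γ ε).comp measurable_fst
  have hp : Measurable fun q : ℝ × Vec d => q.1 ^ ((d : ℝ) + γ) := measurable_fst.pow_const _
  have hΦ : Measurable fun q : ℝ × Vec d =>
      ENNReal.ofReal (Kn d γ (bt b ε) q.1 * q.1 ^ ((d : ℝ) + γ)) := (hK.mul hp).ennreal_ofReal
  exact cpl_int (by omega) hm hm₁ (Φ := fun c _ =>
    ENNReal.ofReal (Kn d γ (bt b ε) c * c ^ ((d : ℝ) + γ))) hΦ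

private lemma CplI_ae (hd : 2 ≤ d) (z : Vec d) :
    ∀ᵐ m ∂(volume : Measure (Vec d)), m ≠ 0 ∧ m + z ≠ 0 := by
  filter_upwards [ae_ne (by omega) (0 : Vec d), ae_ne (by omega) (-z)] with m h1 h2
  exact ⟨h1.symm, fun h => h2 (eq_neg_of_add_eq_zero_left h).symm⟩

theorem gain_cpl (hd : 2 ≤ d) (γ : ℝ) {b : ℝ → ℝ} (hb : Measurable b) {C β : ℝ}
    (hC : AngBound b C β) {ε : ℝ} (hε : 0 < ε) {F : Vec d → ℝ} (hF : Measurable F)
    (hF0 : ∀ u, 0 ≤ F u) (v w : Vec d) :
    Gn γ b ε F w = ∫⁻ m, ENNReal.ofReal (len (m + (w - v)) ^ γ * F (v - m)) *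
      ∫⁻ σ in {σ : Vec d | 0 < dot m σ}, ENNReal.ofReal (Kn d γ (bt b ε) (co m σ) *
        F (w + cpl m (m + (w - v)) (hh σ m))) ∂(surf d) := by
  rw [gain_eq hd γ hb hC hε hF hF0 w, ← lintegral_add_right_eq_self _ (w - v)]
  refine lintegral_congr_ae ?_
  filter_upwards [CplI_ae hd (w - v)] with m hm
  have e1 : w - (m + (w - v)) = v - m := by abel
  have hK : Measurable fun q : ℝ × Vec d => Kn d γ (bt b ε) q.1 :=
    (CplI_Kn hb γ ε).comp measurable_fst
  have hw : Measurable fun q : ℝ × Vec d => w + q.2 := measurable_snd.const_add w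
  have hFw := hF.comp hw
  have hF' : Measurable fun q : ℝ × Vec d => F (w + q.2) := hFw
  have hΦ : Measurable fun q : ℝ × Vec d =>
      ENNReal.ofReal (Kn d γ (bt b ε) q.1 * F (w + q.2)) := (hK.mul hF').ennreal_ofReal
  rw [e1, cpl_int (by omega) hm.1 hm.2 (Φ := fun c h =>
    ENNReal.ofReal (Kn d γ (bt b ε) c * F (w + h))) hΦ]

theorem loss_cpl (hd : 2 ≤ d) (γ : ℝ) {b : ℝ → ℝ} (hb : Measurable b) {C β : ℝ}
    (hC : AngBound b C β) {ε : ℝ} (hε : 0 < ε) {F : Vec d → ℝ} (hF : Measurable F)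
    (hF0 : ∀ u, 0 ≤ F u) (v w : Vec d) :
    Ls γ b ε F w = ∫⁻ m, ENNReal.ofReal (len (m + (w - v)) ^ γ * F (v - m)) *
      (ENNReal.ofReal (F w) * BB b ε (dir m)) := by
  rw [loss_eq hd γ hb hC hε hF hF0 w, ← lintegral_add_right_eq_self _ (w - v)]
  refine lintegral_congr_ae ?_
  filter_upwards [CplI_ae hd (w - v)] with m hm
  have e1 : w - (m + (w - v)) = v - m := by abel
  rw [e1, BB_dir hd γ hb ε hm.1 hm.2]

end Pool.Agent.H87.QH
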