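import Pool.Agent.H87.QH.Defs

/-!
# Module PtQ: the pointwise inequality at a touching pair

`z` outer velocity, `a = |m|^γ`, `a₁ = |m₁|^γ` (here arbitrary nonnegative numbers), `v' = v + h`, `w' = w + h₁`, `H = min (F z) (G z)`, `D⁺ = G z - H`, `D⁻ = F z - H`, both in `[0, δ W(z)]` (`TQ.dif`), `Gv - Fw = Λ W(v)`, `c² (G(v') - F(w')) ≤ Λ W(v')` (hypothesis `hc`):
`a Gz(G'-qGv) - a₁ Fz(F'-qFw) = H[a(G'-qGv) - a₁(F'-qFw)] + a D⁺(G'-qGv) - a₁ D⁻(F'-qFw)`.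
* `a ≥ a₁`: `H[..] = a₁ H[(G'-F') - q(Gv-Fw)] + (a-a₁) H (G'-qGv)`, `G'-qGv = (G'-Gv) + (1-q)Gv ≤ Γ mu h (W₂(v) + W₂(v')) + (1-q) K₁ W₂(v)`, `W₂ = Wp (p+2)`. If `(z,v') ∈ RS v`: `W₂(v') ≤ 16^(p+2) W₂(v)` and `H ≤ Gz ≤ K₁ Wp p z`. Otherwise `1 + nsq v ≤ 16 (1 + nsq z)`
  (see `Slo_mem` in PR/Slo: slow `z` gives `RS`; the direct proof: `¬RS` is `(|v'|² < a/4 ∧ a/4 ≤ |h|²)` with `1+|v'|² = a + |h|² + 2 z·h`, or `(a < |z|² ...)`; it needs `h ⟂ v - z`, hypothesis `hperp`), `W₂(v') ≤ 1`, `H ≤ Gz ≤ K₂ Wp (2p+2) z = K₂ Wp p z Wp (p+2) z ≤ K₂ 16^(p+2) Wp p z W₂(v)`.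
* `a < a₁`: `H[..] = a H[(G'-F') - q(Gv-Fw)] - (a₁-a) H (F'-qFw)`, `-(F'-qFw) = (Fw-F') - (1-q)Fw ≤ Γ mu h₁ W₂(v)`.
* `D⁺`: as in `pt_ineq` (PR/Pt) with `Λ` replaced by `δ`: in `RS`: `≤ a δ W(z)[Γ mu h (1+16^(p+2)) W₂(v) + (1-q) K₁ W₂(v)]`; outside: `a D⁺(G'-qGv) ≤ a δ W(z) G'`. * `D⁻`: `≤ a₁ δ W(z) Γ mu h₁ W₂(v)`.
The private lemmas `pt_sq, pt_wp, pt_rs, pt_fb` of PR/Pt must be copied.
-/

set_option autoImplicit false

open MeasureTheory Set Filter Topology Pool.Agent.H25.Kin Pool.Agent.H48.PL Pool.Agent.H48.PD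
open Pool.Agent.H82.BK Pool.Agent.H82.CM Pool.Agent.H48.PR
open scoped ENNReal

namespace Pool.Agent.H87.QH

variable {d : ℕ}

private lemma PtQ_sq (v w : Vec d) : nsq v ≤ 3 / 2 * nsq w + 3 * nsq (w - v) := by
  unfold nsq
  rw [Finset.mul_sum, Finset.mul_sum, ← Finset.sum_add_distrib]
  refine Finset.sum_le_sum fun i _ => ?_
  simp only [Pi.sub_apply]
  nlinarith [sq_nonneg (3 * w i - 2 * v i)]

private lemma PtQ_wp (n : ℕ) {v w : Vec d} (h : (1 + nsq v) / 16 ≤ 1 + nsq w) :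
    Wp n w ≤ 16 ^ n * Wp n v := by
  unfold Wp
  have hv := sq_nonneg' v
  have hw := sq_nonneg' w
  have h1 : ((1 + nsq v) / 16) ^ n ≤ (1 + nsq w) ^ n := pow_le_pow_left₀ (by positivity) h n
  have h2 : 0 < ((1 + nsq v) / 16) ^ n := by positivity
  have h3 : ((1 + nsq w) ^ n)⁻¹ ≤ (((1 + nsq v) / 16) ^ n)⁻¹ := inv_anti₀ h2 h1
  refine h3.trans (le_of_eq ?_)
  rw [div_pow, inv_div]
  rw [div_eq_mul_inv]

private lemma PtQ_rs (n : ℕ) {z v w : Vec d} (h : (z, w) ∈ RS v) : Wp n w ≤ 16 ^ n * Wp n v := by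
  apply PtQ_wp
  have hv := sq_nonneg' v
  have hw := sq_nonneg' w
  have h1 := h.1
  simp only at h1
  by_cases h2 : nsq w < (1 + nsq v) / 4
  · have h3 : nsq (w - v) < (1 + nsq v) / 4 := by
      by_contra h4
      exact h1 ⟨h2, not_lt.1 h4⟩
    have h5 := PtQ_sq v w
    linarith
  · have h3 := not_lt.1 h2
    linarith

/-- outside `RS v` the outer velocity is not slow -/
private lemma PtQ_nrs {v z h : Vec d} (hp : dot (v - z) h = 0) (hR : (z, v + h) ∉ RS v) :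
    (1 + nsq v) / 16 ≤ 1 + nsq z := by
  have hv := sq_nonneg' v
  have hz := sq_nonneg' z
  by_contra hc
  rw [not_le] at hc
  apply hR
  refine ⟨?_, ?_⟩
  · rintro ⟨q1, _⟩
    change nsq (v + h) < (1 + nsq v) / 4 at q1
    have h1 := nsq_add v h
    have h2 := nsq_add z h
    have h3 := sq_nonneg' (z + h)
    have h4 : dot v h = dot z h := by
      rw [dot_comm, dot_sub, dot_comm h v, dot_comm h z] at hp
      linarith
    rw [h4] at h1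
    linarith
  · rintro ⟨q1, _⟩
    change 1 * (1 + nsq v) < nsq z at q1
    linarith

private lemma PtQ_fb {Cl : ℕ → ℝ} (n : ℕ) {G : Vec d → ℝ} (hG : FB Cl G) (v : Vec d) :
    G v ≤ ((d + 1 : ℝ) ^ n * max 0 (Cl (2 * n))) * Wp n v := by
  have h0 := sq_nonneg' v
  have h1 : (1 + nsq v) ^ n ≤ (d + 1 : ℝ) ^ n * (1 + ‖v‖) ^ (2 * n) := by
    have h2 := one_add_nsq_le v
    have h3 := pow_le_pow_left₀ (by positivity) h2 n
    rwa [mul_pow, ← pow_mul] at h3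
  have h4 := hG.le (2 * n) v
  have h5 := hG.nonneg v
  have h6 : (1 + nsq v) ^ n * G v ≤ (d + 1 : ℝ) ^ n * max 0 (Cl (2 * n)) := by
    calc (1 + nsq v) ^ n * G v ≤ ((d + 1 : ℝ) ^ n * (1 + ‖v‖) ^ (2 * n)) * G v :=
          mul_le_mul_of_nonneg_right h1 h5
      _ = (d + 1 : ℝ) ^ n * ((1 + ‖v‖) ^ (2 * n) * G v) := by ring
      _ ≤ (d + 1 : ℝ) ^ n * max 0 (Cl (2 * n)) :=
          mul_le_mul_of_nonneg_left (h4.trans (le_max_right _ _)) (by positivity)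
  unfold Wp
  rw [← div_eq_mul_inv, le_div_iff₀ (by positivity), mul_comm]
  exact h6

/-- the algebra of the decomposition -/
private lemma PtQ_alg {a a₁ q H Gz Fz G' F' Gv Fw X Y I R2 R4 R5 R6 R7 : ℝ} (ha : 0 ≤ a)
    (ha1 : 0 ≤ a₁)
    (e1 : H * ((G' - F') - q * (Gv - Fw)) ≤ H * X - H * Y)
    (e2 : (Fz - H) * (Fw - F') ≤ R2)
    (e3 : 0 ≤ (Fz - H) * (Fw * (1 - q)))
    (e4 : (Gz - H) * (Gv * (1 - q)) ≤ R4)
    (e5 : (Gz - H) * (G' - Gv) ≤ I + R5)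
    (e6 : H * ((G' - Gv) + (1 - q) * Gv) ≤ R6) (h6 : 0 ≤ R6)
    (e7 : H * ((Fw - F') - (1 - q) * Fw) ≤ R7) (h7 : 0 ≤ R7) :
    a * (Gz * G') + (a₁ * (q * (Fz * Fw)) + min a a₁ * (H * Y)) ≤
      a₁ * (Fz * F') + (a * (q * (Gz * Gv)) + (min a a₁ * (H * X) +
        (a * I + (a * (R4 + R5) + (a₁ * R2 + |a - a₁| * (R6 + R7)))))) := by
  have m2 := mul_le_mul_of_nonneg_left e2 ha1
  have m3 := mul_nonneg ha1 e3
  have m4 := mul_le_mul_of_nonneg_left e4 ha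
  have m5 := mul_le_mul_of_nonneg_left e5 ha
  rcases le_total a a₁ with h | h
  · have hs : 0 ≤ a₁ - a := sub_nonneg.2 h
    have m1 := mul_le_mul_of_nonneg_left e1 ha
    have m7 := mul_le_mul_of_nonneg_left e7 hs
    have m6 := mul_nonneg hs h6
    rw [min_eq_left h, abs_of_nonpos (sub_nonpos.2 h)]
    have key : a * (Gz * G') + a₁ * (q * (Fz * Fw)) - a₁ * (Fz * F') - a * (q * (Gz * Gv)) =
        a * ((Gz - H) * (G' - Gv)) + a * ((Gz - H) * (Gv * (1 - q))) +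
        a₁ * ((Fz - H) * (Fw - F')) - a₁ * ((Fz - H) * (Fw * (1 - q))) +
        a * (H * ((G' - F') - q * (Gv - Fw))) +
        (a₁ - a) * (H * ((Fw - F') - (1 - q) * Fw)) := by ring
    have k2 : -(a - a₁) * (R6 + R7) = (a₁ - a) * R6 + (a₁ - a) * R7 := by ring
    rw [k2]
    linarith
  · have hs : 0 ≤ a - a₁ := sub_nonneg.2 h
    have m1 := mul_le_mul_of_nonneg_left e1 ha1
    have m6 := mul_le_mul_of_nonneg_left e6 hs
    have m7 := mul_nonneg hs h7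
    rw [min_eq_right h, abs_of_nonneg hs]
    have key : a * (Gz * G') + a₁ * (q * (Fz * Fw)) - a₁ * (Fz * F') - a * (q * (Gz * Gv)) =
        a * ((Gz - H) * (G' - Gv)) + a * ((Gz - H) * (Gv * (1 - q))) +
        a₁ * ((Fz - H) * (Fw - F')) - a₁ * ((Fz - H) * (Fw * (1 - q))) +
        a₁ * (H * ((G' - F') - q * (Gv - Fw))) +
        (a - a₁) * (H * ((G' - Gv) + (1 - q) * Gv)) := by ring
    have k2 : (a - a₁) * (R6 + R7) = (a - a₁) * R6 + (a - a₁) * R7 := by ring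
    rw [k2]
    linarith

/-- the constants -/
private lemma PtQ_c1 {K₁ S T Γ μ r : ℝ} (hK : 0 ≤ K₁) (hS : 0 ≤ S) (hT : 0 ≤ T) (hΓ : 0 ≤ Γ)
    (hμ : 0 ≤ μ) (hr : 0 ≤ r) :
    K₁ * r + Γ * μ * (1 + S) ≤ (K₁ + (2 + S) + T) * (1 + Γ) * (μ + r) := by
  have h2 : (K₁ + (2 + S) + T) * (1 + Γ) * (μ + r) = (K₁ * r + Γ * μ * (1 + S)) +
      (K₁ * μ + K₁ * Γ * (μ + r) + (2 + S) * (μ + r) + Γ * μ + (2 + S) * Γ * r +
        T * (1 + Γ) * (μ + r)) := by ring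
  rw [h2]
  have h3 : 0 ≤ K₁ * μ + K₁ * Γ * (μ + r) + (2 + S) * (μ + r) + Γ * μ + (2 + S) * Γ * r +
        T * (1 + Γ) * (μ + r) := by positivity
  linarith

private lemma PtQ_c2 {K T Γ μ : ℝ} (hT : 0 ≤ T) (hTK : T ≤ K) (hΓ : 0 ≤ Γ) (hμ : 0 ≤ μ) :
    T * (Γ * μ) ≤ K * (1 + Γ) * μ := by
  have h1 : T * (Γ * μ) ≤ K * (Γ * μ) := mul_le_mul_of_nonneg_right hTK (by positivity)
  have h2 : 0 ≤ K * μ := mul_nonneg (hT.trans hTK) hμ
  linarith

private lemma PtQ_c3 {K A B T Γ μ μ₁ r : ℝ} (hA : 0 ≤ A) (hB : 0 ≤ B) (hT : 0 ≤ T)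
    (hK : A + B + T ≤ K) (hΓ : 0 ≤ Γ) (hμ : 0 ≤ μ) (hμ1 : 0 ≤ μ₁) (hr : 0 ≤ r) :
    (Γ * μ * A + r * B) + T * (Γ * μ₁) ≤ K * (1 + Γ) * (μ + μ₁ + r) := by
  have h1 : (A + B + T) * ((1 + Γ) * (μ + μ₁ + r)) ≤ K * ((1 + Γ) * (μ + μ₁ + r)) :=
    mul_le_mul_of_nonneg_right hK (by positivity)
  have h2 : (A + B + T) * ((1 + Γ) * (μ + μ₁ + r)) = ((Γ * μ * A + r * B) + T * (Γ * μ₁)) +
      (A * (μ + μ₁ + r) + A * Γ * (μ₁ + r) + B * (μ + μ₁) + B * Γ * (μ + μ₁ + r) +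
        T * (μ + μ₁ + r) + T * Γ * (μ + r)) := by ring
  have h3 : 0 ≤ A * (μ + μ₁ + r) + A * Γ * (μ₁ + r) + B * (μ + μ₁) + B * Γ * (μ + μ₁ + r) +
        T * (μ + μ₁ + r) + T * Γ * (μ + r) := by positivity
  have h4 : K * (1 + Γ) * (μ + μ₁ + r) = K * ((1 + Γ) * (μ + μ₁ + r)) := by ring
  linarith

open Classical in
theorem ptQ (Cl : ℕ → ℝ) (p : ℕ) : ∃ K : ℝ, 0 ≤ K ∧ ∀ (α Γ δ Λ : ℝ) (F G : Vec d → ℝ) (v w : Vec d),
    TQ Cl p α Γ δ Λ F G v w → ∀ z h h₁ : Vec d, dot (v - z) h = 0 → ∀ c q a a₁ : ℝ, 0 < c → c ≤ 1 →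
    c * len (v + h - (w + h₁)) ≤ len (v - w) → 0 ≤ q → q ≤ 1 → 0 ≤ a → 0 ≤ a₁ →
    a * (G z * G (v + h)) + (a₁ * (q * (F z * F w)) +
        min a a₁ * (min (F z) (G z) * (q * (Λ * Wp p v)))) ≤
      a₁ * (F z * F (w + h₁)) + (a * (q * (G z * G v)) +
        (min a a₁ * (min (F z) (G z) * (Λ * ((c ^ 2)⁻¹ * Wp p (v + h)))) +
        ((if (z, v + h) ∈ RS v then 0 else δ * (a * (Wp p z * G (v + h)))) +
        (δ * (K * (1 + Γ)) * (a * (Wp p z * (Wp (p + 2) v * (mu α h + (1 - q))))) +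
        (δ * (K * (1 + Γ)) * (a₁ * (Wp p z * (Wp (p + 2) v * mu α h₁))) +
        K * (1 + Γ) * (|a - a₁| * (Wp p z * (Wp (p + 2) v * (mu α h + mu α h₁ + (1 - q)))))))))) := by
  set K₁ : ℝ := (d + 1 : ℝ) ^ (p + 2) * max 0 (Cl (2 * (p + 2))) with hK1
  set K₂ : ℝ := (d + 1 : ℝ) ^ (p + (p + 2)) * max 0 (Cl (2 * (p + (p + 2)))) with hK2
  have hK10 : 0 ≤ K₁ := by
    have : 0 ≤ max 0 (Cl (2 * (p + 2))) := le_max_left _ _
    positivity
  have hK20 : 0 ≤ K₂ := by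
    have : 0 ≤ max 0 (Cl (2 * (p + (p + 2)))) := le_max_left _ _
    positivity
  have hS0 : (0 : ℝ) ≤ 16 ^ (p + 2) := by positivity
  set S : ℝ := 16 ^ (p + 2) with hSdef
  set T : ℝ := (K₁ * (1 + S) + K₂ * S) + K₁ * K₁ + K₁ with hTdef
  have hT0 : 0 ≤ T := by positivity
  refine ⟨K₁ + (2 + S) + T, by positivity, ?_⟩
  intro α Γ δ Λ F G v w hT z h h₁ hperp c q a a₁ hc hc1 hdist hq0 hq1 ha ha1
  have hF0 := hT.hF.nonneg z
  have hG0 := hT.hG.nonneg z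
  have hFw0 := hT.hF.nonneg w
  have hGv0 := hT.hG.nonneg v
  have hGv'0 := hT.hG.nonneg (v + h)
  have hGv : G v ≤ K₁ * Wp (p + 2) v := PtQ_fb (p + 2) hT.hG v
  have hWz : 0 < Wp p z := Wp_pos p z
  have hW2 : 0 < Wp (p + 2) v := Wp_pos (p + 2) v
  have hW2' : 0 < Wp (p + 2) (v + h) := Wp_pos (p + 2) (v + h)
  have hΓ := hT.gam
  have hδ := hT.del
  have hΛ : 0 ≤ Λ := hδ.trans hT.lam
  have hμ : 0 ≤ mu α h := mu_nonneg α h
  have hμ1 : 0 ≤ mu α h₁ := mu_nonneg α h₁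
  have hr : 0 ≤ 1 - q := sub_nonneg.2 hq1
  set μ : ℝ := mu α h with hμdef
  set μ₁ : ℝ := mu α h₁ with hμ1def
  have hWle : Wp (p + 2) z ≤ Wp p z := by
    unfold Wp
    have hz := sq_nonneg' z
    exact inv_anti₀ (by positivity) (pow_le_pow_right₀ (by linarith) (by omega))
  have hWmul : Wp (p + (p + 2)) z = Wp p z * Wp (p + 2) z := by
    unfold Wp
    rw [pow_add, mul_inv]
  have hGz1 : G z ≤ K₁ * Wp p z :=
    (PtQ_fb (p + 2) hT.hG z).trans (mul_le_mul_of_nonneg_left hWle hK10)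
  have hFz1 : F z ≤ K₁ * Wp p z :=
    (PtQ_fb (p + 2) hT.hF z).trans (mul_le_mul_of_nonneg_left hWle hK10)
  have hGz2 : G z ≤ K₂ * (Wp p z * Wp (p + 2) z) := by
    rw [← hWmul]
    exact PtQ_fb (p + (p + 2)) hT.hG z
  have hdz := hT.dif z
  have hup := hT.up (v + h) (w + h₁) c hc hc1 hdist
  have htou := hT.tou
  have hoG := hT.oneG h
  have hoF := hT.oneF h₁
  rw [← hμdef] at hoG
  rw [← hμ1def] at hoF
  have hup2 : G (v + h) - F (w + h₁) ≤ Λ * ((c ^ 2)⁻¹ * Wp p (v + h)) := by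
    have hc2 : 0 < c ^ 2 := by positivity
    have h1 : G (v + h) - F (w + h₁) ≤ (c ^ 2)⁻¹ * (Λ * Wp p (v + h)) := by
      rw [inv_mul_eq_div, le_div_iff₀ hc2, mul_comm]
      exact hup
    refine h1.trans (le_of_eq ?_)
    ring
  set H : ℝ := min (F z) (G z) with hH
  have hH0 : 0 ≤ H := le_min hF0 hG0
  have hHF : H ≤ F z := min_le_left _ _
  have hHG : H ≤ G z := min_le_right _ _
  have hδW : 0 ≤ δ * Wp p z := by positivity
  have hDp : G z - H ≤ δ * Wp p z := by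
    rcases le_total (F z) (G z) with h1 | h1
    · rw [hH, min_eq_left h1]; exact (le_abs_self _).trans hdz
    · rw [hH, min_eq_right h1, sub_self]; exact hδW
  have hDm : F z - H ≤ δ * Wp p z := by
    rcases le_total (F z) (G z) with h1 | h1
    · rw [hH, min_eq_left h1, sub_self]; exact hδW
    · rw [hH, min_eq_right h1]
      have h2 := (abs_le.1 hdz).1
      linarith
  have hDp0 : 0 ≤ G z - H := sub_nonneg.2 hHG
  have hDm0 : 0 ≤ F z - H := sub_nonneg.2 hHF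
  have e1 : H * ((G (v + h) - F (w + h₁)) - q * (G v - F w)) ≤
      H * (Λ * ((c ^ 2)⁻¹ * Wp p (v + h))) - H * (q * (Λ * Wp p v)) := by
    rw [← mul_sub]
    refine mul_le_mul_of_nonneg_left ?_ hH0
    rw [htou]
    linarith
  have e2 : (F z - H) * (F w - F (w + h₁)) ≤ (δ * Wp p z) * (Γ * μ₁ * Wp (p + 2) v) := by
    have h1 : (F z - H) * (F w - F (w + h₁)) ≤ (F z - H) * (Γ * μ₁ * Wp (p + 2) v) :=
      mul_le_mul_of_nonneg_left hoF hDm0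
    exact h1.trans (mul_le_mul_of_nonneg_right hDm (by positivity))
  have e3 : 0 ≤ (F z - H) * (F w * (1 - q)) := mul_nonneg hDm0 (mul_nonneg hFw0 hr)
  have e4 : (G z - H) * (G v * (1 - q)) ≤ (δ * Wp p z) * (K₁ * Wp (p + 2) v * (1 - q)) :=
    mul_le_mul hDp (mul_le_mul_of_nonneg_right hGv hr) (mul_nonneg hGv0 hr) hδW
  have e5 : (G z - H) * (G (v + h) - G v) ≤
      (if (z, v + h) ∈ RS v then 0 else δ * (Wp p z * G (v + h))) +
        (δ * Wp p z) * (Γ * μ * ((1 + S) * Wp (p + 2) v)) := by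
    split_ifs with hR
    · have h1 := PtQ_rs (p + 2) hR
      rw [← hSdef] at h1
      have h2 : G (v + h) - G v ≤ Γ * μ * ((1 + S) * Wp (p + 2) v) := by
        refine hoG.trans (mul_le_mul_of_nonneg_left ?_ (by positivity))
        linarith
      rw [zero_add]
      have h3 : (G z - H) * (G (v + h) - G v) ≤
          (G z - H) * (Γ * μ * ((1 + S) * Wp (p + 2) v)) :=
        mul_le_mul_of_nonneg_left h2 hDp0
      exact h3.trans (mul_le_mul_of_nonneg_right hDp (by positivity))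
    · have h1 : (G z - H) * (G (v + h) - G v) ≤ (G z - H) * G (v + h) :=
        mul_le_mul_of_nonneg_left (by linarith) hDp0
      have h2 : (G z - H) * G (v + h) ≤ δ * Wp p z * G (v + h) :=
        mul_le_mul_of_nonneg_right hDp hGv'0
      have h3 : 0 ≤ (δ * Wp p z) * (Γ * μ * ((1 + S) * Wp (p + 2) v)) := by positivity
      have h4 : δ * Wp p z * G (v + h) = δ * (Wp p z * G (v + h)) := by ring
      linarith
  -- the one sided increments with the factor `H`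
  have hHK : H ≤ K₁ * Wp p z := hHG.trans hGz1
  have e60 : H * (Wp (p + 2) v + Wp (p + 2) (v + h)) ≤
      Wp p z * Wp (p + 2) v * (K₁ * (1 + S) + K₂ * S) := by
    by_cases hR : (z, v + h) ∈ RS v
    · have h1 := PtQ_rs (p + 2) hR
      rw [← hSdef] at h1
      have h2 : H * (Wp (p + 2) v + Wp (p + 2) (v + h)) ≤
          (K₁ * Wp p z) * ((1 + S) * Wp (p + 2) v) :=
        mul_le_mul hHK (by linarith) (by positivity) (by positivity)
      have h3 : 0 ≤ Wp p z * Wp (p + 2) v * (K₂ * S) := by positivity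
      linarith
    · have h1 := PtQ_wp (p + 2) (PtQ_nrs hperp hR)
      rw [← hSdef] at h1
      have h2 : H * Wp (p + 2) v ≤ (K₁ * Wp p z) * Wp (p + 2) v :=
        mul_le_mul_of_nonneg_right hHK hW2.le
      have h3 : H * Wp (p + 2) (v + h) ≤ (K₂ * (Wp p z * (S * Wp (p + 2) v))) * 1 := by
        refine mul_le_mul ?_ (Wp_le_one _ _) hW2'.le (by positivity)
        exact (hHG.trans hGz2).trans (mul_le_mul_of_nonneg_left
          (mul_le_mul_of_nonneg_left h1 hWz.le) hK20)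
      have h4 : 0 ≤ Wp p z * Wp (p + 2) v * (K₁ * S) := by positivity
      linarith
  have e6 : H * ((G (v + h) - G v) + (1 - q) * G v) ≤ Wp p z * Wp (p + 2) v *
      (Γ * μ * (K₁ * (1 + S) + K₂ * S) + (1 - q) * (K₁ * K₁)) := by
    have h1 : H * (G (v + h) - G v) ≤
        H * (Γ * μ * (Wp (p + 2) v + Wp (p + 2) (v + h))) :=
      mul_le_mul_of_nonneg_left hoG hH0
    have h2 : (Γ * μ) * (H * (Wp (p + 2) v + Wp (p + 2) (v + h))) ≤
        (Γ * μ) * (Wp p z * Wp (p + 2) v * (K₁ * (1 + S) + K₂ * S)) :=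
      mul_le_mul_of_nonneg_left e60 (by positivity)
    have h3 : H * ((1 - q) * G v) ≤ (K₁ * Wp p z) * ((1 - q) * (K₁ * Wp (p + 2) v)) :=
      mul_le_mul hHK (mul_le_mul_of_nonneg_left hGv hr) (mul_nonneg hr hGv0) (by positivity)
    linarith
  have h60 : 0 ≤ Wp p z * Wp (p + 2) v *
      (Γ * μ * (K₁ * (1 + S) + K₂ * S) + (1 - q) * (K₁ * K₁)) := by positivity
  have e7 : H * ((F w - F (w + h₁)) - (1 - q) * F w) ≤
      Wp p z * Wp (p + 2) v * (K₁ * (Γ * μ₁)) := by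
    have h1 : H * ((F w - F (w + h₁)) - (1 - q) * F w) ≤ H * (Γ * μ₁ * Wp (p + 2) v) := by
      refine mul_le_mul_of_nonneg_left ?_ hH0
      have := mul_nonneg hr hFw0
      linarith
    have h2 : H * (Γ * μ₁ * Wp (p + 2) v) ≤ (K₁ * Wp p z) * (Γ * μ₁ * Wp (p + 2) v) :=
      mul_le_mul_of_nonneg_right (hHF.trans hFz1) (by positivity)
    linarith
  have h70 : 0 ≤ Wp p z * Wp (p + 2) v * (K₁ * (Γ * μ₁)) := by positivity
  have main := PtQ_alg ha ha1 e1 e2 e3 e4 e5 e6 h60 e7 h70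
  -- the four bounds of the remainders
  have b1 : a * (if (z, v + h) ∈ RS v then 0 else δ * (Wp p z * G (v + h))) =
      (if (z, v + h) ∈ RS v then 0 else δ * (a * (Wp p z * G (v + h)))) := by
    split_ifs
    · rw [mul_zero]
    · ring
  have b2 : a * ((δ * Wp p z) * (K₁ * Wp (p + 2) v * (1 - q)) +
      (δ * Wp p z) * (Γ * μ * ((1 + S) * Wp (p + 2) v))) ≤
      δ * ((K₁ + (2 + S) + T) * (1 + Γ)) *
        (a * (Wp p z * (Wp (p + 2) v * (μ + (1 - q))))) := by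
    have h1 := mul_le_mul_of_nonneg_left (PtQ_c1 hK10 hS0 hT0 hΓ hμ hr)
      (by positivity : (0 : ℝ) ≤ a * (δ * (Wp p z * Wp (p + 2) v)))
    linarith
  have b3 : a₁ * ((δ * Wp p z) * (Γ * μ₁ * Wp (p + 2) v)) ≤
      δ * ((K₁ + (2 + S) + T) * (1 + Γ)) *
        (a₁ * (Wp p z * (Wp (p + 2) v * μ₁))) := by
    have h1 := mul_le_mul_of_nonneg_left
      (PtQ_c2 (K := K₁ + (2 + S) + T) zero_le_one (by linarith) hΓ hμ1)
      (by positivity : (0 : ℝ) ≤ a₁ * (δ * (Wp p z * Wp (p + 2) v)))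
    linarith
  have b4 : |a - a₁| * (Wp p z * Wp (p + 2) v *
      (Γ * μ * (K₁ * (1 + S) + K₂ * S) + (1 - q) * (K₁ * K₁)) +
      Wp p z * Wp (p + 2) v * (K₁ * (Γ * μ₁))) ≤
      (K₁ + (2 + S) + T) * (1 + Γ) * (|a - a₁| * (Wp p z * (Wp (p + 2) v * (μ + μ₁ + (1 - q))))) := by
    have h1 := mul_le_mul_of_nonneg_left
      (PtQ_c3 (K := K₁ + (2 + S) + T) (A := K₁ * (1 + S) + K₂ * S) (B := K₁ * K₁) (T := K₁)
        (by positivity) (by positivity) hK10 (by linarith) hΓ hμ hμ1 hr)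
      (by positivity : (0 : ℝ) ≤ |a - a₁| * (Wp p z * Wp (p + 2) v))
    linarith
  rw [b1] at main
  have m5 : min a a₁ * (H * (q * (Λ * Wp p v))) = min a a₁ * (H * (q * (Λ * Wp p v))) := rfl
  linarith

end Pool.Agent.H87.QH
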