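import Pool.Agent.H48.PR.CutP
import Pool.Agent.H48.PR.MLow

/-!
# Quasi Hoelder propagation for the Boltzmann equation (MP_c15324_an): definitions

LEMMA QH (helper15). `0 ≤ γ`, `2s < 1`, `γ + 2s ≤ 2`, `2s < α ≤ 1`, `p ≥ d + 12`. Let `f` be ANY classical solution on `[0,T)`, `T ≤ T₀`, with `(1+‖v‖)^N f ≤ Cl N` and `∫ f(t,x,·) ≥ m₀ > 0`. If for all `x, y` and `|v-w| ≤ 1`
`f(0,x,v) - f(0,y,w) ≤ (δ + Γ₀ |v-w|^α) W(v)`, `W = ⟨v⟩^(-2p)`, then `f(t,x,v) - f(t,y,w) ≤ K (δ + min(1,|v-w|)^α) W(v)` on `[0,T)`, `K` independent of `δ` and `f`. In particular `|f(t,x,v) - f(t,y,v)| ≤ K δ W(v)`: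
small oscillation in `x` stays small on every bounded time interval.

PROOF. Barrier `Br(t;v,w) = (δ(t) + Γ(t) mu α (v-w)) W(v)`, `mu α η = min(1,|η|)^α`, no `x`: transport is free, no derivative of the barrier in `v` is used. At the first touching point (module CptQ) `G = f(t₀,x₀,·)`, `F = f(t₀,y₀,·)`,
`G(v) - F(w) = Λ W(v)`, `Λ = δ + Γ mu α (v-w)`, `|v-w| < 1`, `G(v') - F(w') ≤ (δ + Γ mu α (v'-w')) W(v')` for all `v', w'`, and `|G - F| ≤ δ W` (the same velocity; this makes the estimate linear in `Γ`).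
One sided increments (module OneQ): `G(v+h) - G(v) ≤ K(1+Γ) mu α' h (W_{p+2}(v) + W_{p+2}(v+h))`, `F(w) - F(w+h) ≤ K(1+Γ) mu α' h W_{p+2}(v)`, `2s < α' < α`: the structure `TQ`.
OPERATOR INEQUALITY (module CutQ): `Q(G)(v) - Q(F)(w) ≤ K (Λ + (1+Γ)(δ + |v-w|)) W(v)`. Carleman representation with the SAME outer velocity `z` at both points: `m = v-z`, `m₁ = w-z`, coupling `h₁ = cpl m m₁ h = (|m₁|/|m|) S h`,
`S` the reflection in the hyperplane orthogonal to `e + e₁` (`S e = -e₁`, maps `e^⊥` to `e₁^⊥`); `co m₁ σ₁ = co m σ` (module CplI). EXACT: `|v+h - w-h₁| ≤ |v-w|/c`, `c = co m σ` (module CplG).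
With `a = |m|^γ`, `a₁ = |m₁|^γ`, `q = c^(d+γ)`, `H = min(F(z),G(z))`, `G(z) = H + D⁺`, `F(z) = H + D⁻`, `0 ≤ D± ≤ δ W(z)` (module PtQ):
`a G(z)[G(v')-qG(v)] - a₁ F(z)[F(w')-qF(w)] ≤ min(a,a₁) H Λ [c^(-2) W(v') - q W(v)] + a D⁺[G(v')-qG(v)] - a₁ D⁻[F(w')-qF(w)] + |a-a₁| H (one sided increments)`:
* first term: dissipative for slow `z` even with the factor `c^(-2)` (module SloQ), harmless otherwise (module IntHQ); it also absorbs the exchanged part of `D⁺` (slow `v'`);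
* `D±` terms: `≤ K (1+Γ) δ W(v)` (intR of PR, module IntR1); * `|a-a₁| ≤ 2 |v-w| (|m|⁻¹ + 1 + |m| + |m₁|)`: `≤ K (1+Γ) |v-w| W(v)` (module IntR2).
Hence with `Γ(t) = Γ₀ e^(λt)`, `δ(t) = 2δ e^(μt)` there is no touching as long as `δ(t) ≤ δ₂` (module FinQ); for `δ ≥ δ₁` the statement is trivial.
-/

set_option autoImplicit false

open MeasureTheory Set Filter Topology Pool.Agent.H25.Kin Pool.Agent.H48.PL Pool.Agent.H48.PD
open Pool.Agent.H82.BK Pool.Agent.H82.CM Pool.Agent.H48.PR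
open scoped ENNReal

namespace Pool.Agent.H87.QH

variable {d : ℕ}

/-- the modulus `min(1,|η|)^α` -/
noncomputable def mu (α : ℝ) (η : Vec d) : ℝ := min 1 (len η) ^ α

/-- the unit vector in the direction `e + e₁`, `e = m/|m|`, `e₁ = m₁/|m₁|` (`0` if `e₁ = -e`) -/
noncomputable def uu (m m₁ : Vec d) : Vec d := dir (dir m + dir m₁)

/-- the coupled displacement `(|m₁|/|m|) S h` -/
noncomputable def cpl (m m₁ h : Vec d) : Vec d :=
  (len m₁ / len m) • (h - (2 * dot (uu m m₁) h) • uu m m₁)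

/-- the gain of `g` with the factor `c^(-2)`, angular integral at fixed `m = v - z` -/
noncomputable def GMq (γ : ℝ) (b : ℝ → ℝ) (ε : ℝ) (g : Vec d → ℝ) (v m : Vec d) : ℝ≥0∞ :=
  ∫⁻ σ in {σ : Vec d | 0 < dot m σ},
    ENNReal.ofReal (Kn d γ (bt b ε) (co m σ) * ((co m σ ^ 2)⁻¹ * g (v + hh σ m))) ∂(surf d)

/-- a touching pair `(v,w)` of the functions `G`, `F` -/
structure TQ (Cl : ℕ → ℝ) (p : ℕ) (α Γ δ Λ : ℝ) (F G : Vec d → ℝ) (v w : Vec d) : Prop where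
  hF : FB Cl F
  hG : FB Cl G
  gam : 0 ≤ Γ
  del : 0 ≤ δ
  lam : δ ≤ Λ
  near : len (v - w) ≤ 1
  dif : ∀ u, |G u - F u| ≤ δ * Wp p u
  up : ∀ (v' w' : Vec d) (c : ℝ), 0 < c → c ≤ 1 → c * len (v' - w') ≤ len (v - w) →
    c ^ 2 * (G v' - F w') ≤ Λ * Wp p v'
  tou : G v - F w = Λ * Wp p v
  oneG : ∀ h, G (v + h) - G v ≤ Γ * mu α h * (Wp (p + 2) v + Wp (p + 2) (v + h))
  oneF : ∀ h, F w - F (w + h) ≤ Γ * mu α h * Wp (p + 2) v

/-- the barrier -/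
noncomputable def Br (p : ℕ) (α : ℝ) (δ Γ : ℝ → ℝ) (t : ℝ) (v w : Vec d) : ℝ :=
  (δ t + Γ t * mu α (v - w)) * Wp p v

lemma mu_nonneg (α : ℝ) (η : Vec d) : 0 ≤ mu α η :=
  Real.rpow_nonneg (le_min zero_le_one (len_nonneg η)) _

lemma mu_le_one {α : ℝ} (hα : 0 ≤ α) (η : Vec d) : mu α η ≤ 1 :=
  Real.rpow_le_one (le_min zero_le_one (len_nonneg η)) (min_le_left _ _) hα

end Pool.Agent.H87.QH
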