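import Pool.Agent.H87.QH.SloQ

/-!
# Module IntHQ: the `H`-part and the exchanged part, integrated over the outer velocity

Model: PR/IntH (`intH`), whose private lemmas must be copied; the proof is the same with `P m = min (|m|^γ) (|m₁|^γ) * min (F z) (G z)`, `z = v - m`, `m₁ = m + (w-v)`, in place of `|m|^γ min (F z) (G z)`, `GMq` in place of `GMg univ` and `sloQ` in place of `slo`. Changes:
* `0 ≤ P m ≤ |m|^γ G z` (for the complement of the slow set `A` nothing changes).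
* On `A` (`a = 1+|v|² ≥ a₁`, `|m| ≥ √a/2`): `|m₁| ≥ |m| - 1` (`len (w-v) ≤ 1`), so `|m₁|^γ ≥ |m|^γ (1 - 1/|m|)^γ ≥ |m|^γ (1 - 1/|m|)² ≥ |m|^γ (1 - 4/√a)` (`γ ≤ 2`, `0 ≤ 1 - 1/|m| ≤ 1`). Put `θ = 4/√a₁`. Then
  `|m|^γ G z ≤ P m + |m|^γ (|G z - F z| + θ G z)`: the difference function `|G - F|` of `intH` is replaced by `E z = |G z - F z| + θ G z`, `∫ E ≤ ε₁ + θ M₀ ≤ 2 ε₁` with `M₀` a bound of `∫ G` (`mom_le` or `FB`), by the choice of `a₁` large (after `ε₁`).
  Also `∫_A P ≥ (√a/2)^γ (m₁ - 2 ε₁)`: `P m ≥ |m|^γ (G z - E z)`. So take `ε₁` half as large as in `intH` (with `m₁` the mass in the ball `nsq z ≤ R₁²`).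
-/

set_option autoImplicit false

open MeasureTheory Set Filter Topology Pool.Agent.H25.Kin Pool.Agent.H48.PL Pool.Agent.H48.PD
open Pool.Agent.H82.BK Pool.Agent.H82.CM Pool.Agent.H48.PR
open scoped ENNReal

namespace Pool.Agent.H87.QH

variable {d : ℕ} {γ s C Ca cb : ℝ} {b : ℝ → ℝ}

private lemma intHQ_jb (v : Vec d) (k : ℕ) : jb v ^ (2 * k) = (1 + nsq v) ^ k := by
  rw [pow_mul]
  congr 1
  unfold jb
  exact Real.sq_sqrt (by linarith [sq_nonneg' v])

private lemma intHQ_len {γ : ℝ} (h0 : 0 ≤ γ) (h2 : γ ≤ 2) (m : Vec d) : len m ^ γ ≤ 1 + nsq m := by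
  have hl := len_nonneg m
  have h3 := len_sq m
  have hn := sq_nonneg' m
  rcases le_total (len m) 1 with h | h
  · have := Real.rpow_le_one hl h h0
    linarith
  · have h4 := Real.rpow_le_rpow_of_exponent_le h h2
    rw [Real.rpow_two, h3] at h4
    linarith

/-- the geometry of slow velocities -/
private lemma intHQ_slow {δ a₁ : ℝ} (hδ : 0 < δ) (hδ4 : δ ≤ 1 / 4) (ha : 4 ≤ a₁) {v m : Vec d}
    (h : SlowR δ a₁ v (v - m)) :
    Real.sqrt (1 + nsq v) / 2 ≤ len m ∧ len m ≤ 2 * Real.sqrt (1 + nsq v) := by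
  obtain ⟨h1, h2⟩ := h
  have hv := sq_nonneg' v
  set r := Real.sqrt (1 + nsq v) with hr
  have hr0 : 0 ≤ r := Real.sqrt_nonneg _
  have hr2 : r ^ 2 = 1 + nsq v := Real.sq_sqrt (by linarith)
  have hz := len_sq (v - m)
  have hz0 := len_nonneg (v - m)
  have hvl := len_sq v
  have hv0 := len_nonneg v
  have hm0 := len_nonneg m
  have hd2 : δ ^ 2 ≤ 1 / 16 := by nlinarith
  have k1 : len (v - m) ≤ r / 4 := by
    refine abs_le_of_sq_le_sq' ?_ (by positivity) |>.2
    have : δ ^ 2 * (1 + nsq v) ≤ 1 / 16 * (1 + nsq v) := mul_le_mul_of_nonneg_right hd2 (by linarith)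
    nlinarith
  have k2 : len v ≤ r := by
    refine abs_le_of_sq_le_sq' ?_ hr0 |>.2
    linarith
  have k3 : 3 / 4 * r ≤ len v := by
    refine abs_le_of_sq_le_sq' ?_ hv0 |>.2
    nlinarith
  have k4 := len_le_add_sub v (v - m)
  rw [sub_sub_cancel] at k4
  have k5 := len_sub_le v (v - m)
  rw [sub_sub_cancel] at k5
  constructor <;> linarith

/-- the geometry off the slow velocities -/
private lemma intHQ_off {δ a₁ : ℝ} (hδ : 0 < δ) (ha : 4 ≤ a₁) {v m : Vec d}
    (h : ¬ SlowR δ a₁ v (v - m)) :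
    1 + nsq v ≤ (a₁ + 1 / δ ^ 2) * (1 + nsq (v - m)) := by
  have hv := sq_nonneg' v
  have hz := sq_nonneg' (v - m)
  have hd : 0 < δ ^ 2 := by positivity
  have hdi : 0 < 1 / δ ^ 2 := by positivity
  by_cases h1 : a₁ ≤ 1 + nsq v
  · have h2 : δ ^ 2 * (1 + nsq v) < nsq (v - m) := by
      by_contra h3
      exact h ⟨h1, not_lt.1 h3⟩
    have h4 : 1 + nsq v ≤ 1 / δ ^ 2 * nsq (v - m) := by
      rw [one_div, inv_mul_eq_div, le_div_iff₀ hd]
      linarith
    have h5 : 0 ≤ a₁ * (1 + nsq (v - m)) := by positivity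
    nlinarith
  · have h6 : 0 ≤ 1 / δ ^ 2 * (1 + nsq (v - m)) := by positivity
    have h7 : 0 ≤ a₁ * nsq (v - m) := by positivity
    nlinarith

private lemma intHQ_off2 (h0 : 0 ≤ γ) (h2 : γ ≤ 2) (p : ℕ) {C₂ : ℝ} (hC : 0 ≤ C₂) {v m : Vec d}
    (h : 1 + nsq v ≤ C₂ * (1 + nsq (v - m))) :
    len m ^ γ * (1 + nsq m) ≤
      (2 * (C₂ + 1)) ^ 2 * C₂ ^ p * Wp p v * (1 + nsq (v - m)) ^ (p + 2) := by
  have hv := sq_nonneg' v
  have hz := sq_nonneg' (v - m)
  have hm := sq_nonneg' m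
  have hl := intHQ_len h0 h2 m
  have h3 := nsq_par v (v - m)
  have h4 := sq_nonneg' (v + (v - m))
  rw [sub_sub_cancel] at h3
  have k1 : 1 + nsq m ≤ 2 * (C₂ + 1) * (1 + nsq (v - m)) := by nlinarith
  have k2 : 1 ≤ Wp p v * (C₂ ^ p * (1 + nsq (v - m)) ^ p) := by
    calc (1 : ℝ) = Wp p v * (1 + nsq v) ^ p := (Wp_mul p v).symm
      _ ≤ Wp p v * (C₂ * (1 + nsq (v - m))) ^ p :=
          mul_le_mul_of_nonneg_left (pow_le_pow_left₀ (by linarith) h p) (Wp_pos p v).le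
      _ = _ := by rw [mul_pow]
  have k3 : len m ^ γ * (1 + nsq m) ≤ (2 * (C₂ + 1) * (1 + nsq (v - m))) ^ 2 := by
    rw [pow_two]
    exact mul_le_mul (hl.trans k1) k1 (by linarith) (by positivity)
  have hW := (Wp_pos p v).le
  calc len m ^ γ * (1 + nsq m) ≤ (2 * (C₂ + 1) * (1 + nsq (v - m))) ^ 2 * 1 := by
        rw [mul_one]; exact k3
    _ ≤ (2 * (C₂ + 1) * (1 + nsq (v - m))) ^ 2 *
        (Wp p v * (C₂ ^ p * (1 + nsq (v - m)) ^ p)) :=
        mul_le_mul_of_nonneg_left k2 (by positivity)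
    _ = _ := by rw [pow_add]; ring

private lemma intHQ_meas {δ a₁ : ℝ} (v : Vec d) :
    MeasurableSet {m : Vec d | SlowR δ a₁ v (v - m)} := by
  have h1 : Measurable fun m : Vec d => nsq (v - m) :=
    (continuous_sq.comp (continuous_const.sub continuous_id)).measurable
  have e : {m : Vec d | SlowR δ a₁ v (v - m)} = {m : Vec d | a₁ ≤ 1 + nsq v} ∩
      {m : Vec d | nsq (v - m) ≤ δ ^ 2 * (1 + nsq v)} := by
    ext m
    rfl
  rw [e]
  exact (MeasurableSet.const _).inter (measurableSet_le h1 measurable_const)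

private lemma intHQ_absorb {α : Type*} [MeasurableSpace α] {μ : Measure α}
    {X Y lH lD : α → ℝ≥0∞} {c e : ℝ≥0∞} (hlH : Measurable lH) (hlD : Measurable lD)
    (h : ∀ᵐ m ∂μ, X m + c * lH m ≤ Y m + lD m * e)
    (h1 : (∫⁻ m, lD m ∂μ) * e ≤ c * ∫⁻ m, lH m ∂μ) (h2 : c * ∫⁻ m, lH m ∂μ ≠ ⊤) :
    ∫⁻ m, X m ∂μ ≤ ∫⁻ m, Y m ∂μ := by
  have h3 : (∫⁻ m, X m ∂μ) + c * ∫⁻ m, lH m ∂μ ≤ (∫⁻ m, Y m ∂μ) + c * ∫⁻ m, lH m ∂μ := by
    calc (∫⁻ m, X m ∂μ) + c * ∫⁻ m, lH m ∂μ = ∫⁻ m, (X m + c * lH m) ∂μ := by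
          rw [lintegral_add_right _ (hlH.const_mul c), lintegral_const_mul _ hlH]
      _ ≤ ∫⁻ m, (Y m + lD m * e) ∂μ := lintegral_mono_ae h
      _ = (∫⁻ m, Y m ∂μ) + (∫⁻ m, lD m ∂μ) * e := by
          rw [lintegral_add_right _ (hlD.mul_const e), lintegral_mul_const _ hlD]
      _ ≤ _ := add_le_add le_rfl h1
  exact (ENNReal.add_le_add_iff_right h2).1 h3

private lemma intHQ_mass {G H E : Vec d → ℝ} (hHc : Continuous H) (hE0 : ∀ z, 0 ≤ E z)
    (hG0 : ∀ z, 0 ≤ G z) (hGi : Integrable G) (hEi : Integrable E) (S : Set (Vec d))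
    (hle : ∀ z, G z ≤ H z + E z)
    {m₁ e₂ : ℝ} (h1 : m₁ ≤ ∫ z in S, G z) (h2 : ∫ z, E z ≤ e₂) (he₂ : 0 ≤ e₂) :
    ENNReal.ofReal (m₁ - e₂) ≤ ∫⁻ z in S, ENNReal.ofReal (H z) := by
  rw [ENNReal.ofReal_sub _ he₂, tsub_le_iff_right]
  calc ENNReal.ofReal m₁ ≤ ENNReal.ofReal (∫ z in S, G z) := ENNReal.ofReal_le_ofReal h1
    _ = ∫⁻ z in S, ENNReal.ofReal (G z) :=
        ofReal_integral_eq_lintegral_ofReal hGi.integrableOn (ae_of_all _ hG0)
    _ ≤ ∫⁻ z in S, (ENNReal.ofReal (H z) + ENNReal.ofReal (E z)) := by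
        refine lintegral_mono fun z => ?_
        exact le_trans (ENNReal.ofReal_le_ofReal (hle z)) ENNReal.ofReal_add_le
    _ = (∫⁻ z in S, ENNReal.ofReal (H z)) + ∫⁻ z in S, ENNReal.ofReal (E z) :=
        lintegral_add_left hHc.measurable.ennreal_ofReal _
    _ ≤ _ := by
        refine add_le_add le_rfl ?_
        calc ∫⁻ z in S, ENNReal.ofReal (E z) ≤ ∫⁻ z, ENNReal.ofReal (E z) :=
              setLIntegral_le_lintegral _ _
          _ = ENNReal.ofReal (∫ z, E z) :=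
              (ofReal_integral_eq_lintegral_ofReal hEi (ae_of_all _ hE0)).symm
          _ ≤ _ := ENNReal.ofReal_le_ofReal h2

/-- the powers of the relative velocities are comparable -/
private lemma intHQ_pow {γ : ℝ} (h0 : 0 ≤ γ) (h2 : γ ≤ 2) {a₁ l n : ℝ} (ha : 16 ≤ a₁)
    (hl : Real.sqrt a₁ / 2 ≤ l) (hn : l - 1 ≤ n) :
    (1 - 4 / Real.sqrt a₁) * l ^ γ ≤ min (l ^ γ) (n ^ γ) := by
  obtain ⟨q, hq⟩ : ∃ q : ℝ, q = Real.sqrt a₁ := ⟨_, rfl⟩
  have hq4 : 4 ≤ q := by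
    rw [hq]
    exact Real.le_sqrt_of_sq_le (by linarith)
  rw [← hq] at hl ⊢
  have hq0 : 0 < q := by linarith
  have hl0 : 0 < l := by linarith
  obtain ⟨t, ht⟩ : ∃ t : ℝ, t = 1 - 2 / q := ⟨_, rfl⟩
  have hiq : 2 / q ≤ 1 / 2 := by
    rw [div_le_iff₀ hq0]
    linarith
  have hiq0 : 0 < 2 / q := by positivity
  have ht0 : 0 < t := by rw [ht]; linarith
  have ht1 : t ≤ 1 := by rw [ht]; linarith
  have hlγ : 0 ≤ l ^ γ := Real.rpow_nonneg hl0.le γ
  have hθ : 1 - 4 / q ≤ t ^ 2 := by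
    rw [ht]
    have e : (1 - 2 / q) ^ 2 = 1 - 4 / q + (2 / q) ^ 2 := by ring
    rw [e]
    linarith [sq_nonneg (2 / q)]
  have htγ : t ^ 2 ≤ t ^ γ := by
    have := Real.rpow_le_rpow_of_exponent_ge ht0 ht1 h2
    rwa [Real.rpow_two] at this
  have h1 : (1 - 4 / q) * l ^ γ ≤ l ^ γ := by
    have : 0 ≤ 4 / q := by positivity
    have h3 : 0 ≤ 4 / q * l ^ γ := mul_nonneg this hlγ
    linarith
  refine le_min h1 ?_
  have hln : t * l ≤ n := by
    refine le_trans ?_ hn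
    rw [ht]
    have h4 : 1 ≤ 2 / q * l := by
      have h5 : 2 / q * (q / 2) ≤ 2 / q * l := mul_le_mul_of_nonneg_left hl hiq0.le
      have h6 : 2 / q * (q / 2) = 1 := by field_simp
      linarith
    linarith
  calc (1 - 4 / q) * l ^ γ ≤ t ^ γ * l ^ γ := mul_le_mul_of_nonneg_right (hθ.trans htγ) hlγ
    _ = (t * l) ^ γ := (Real.mul_rpow ht0.le hl0.le).symm
    _ ≤ n ^ γ := Real.rpow_le_rpow (by positivity) hln h0

/-- the pointwise comparison on slow velocities -/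
private lemma intHQ_pt {θ a A F G : ℝ} (hθ : 0 ≤ θ) (hF : 0 ≤ F) (hG : 0 ≤ G) (hA : 0 ≤ A)
    (hP : (1 - θ) * A ≤ a) (ha : 0 ≤ a) :
    A * max 0 (G - (|G - F| + θ * G)) ≤ a * min F G ∧
      A * G ≤ a * min F G + A * (|G - F| + θ * G) := by
  have hm0 : 0 ≤ min F G := le_min hF hG
  have hmG : min F G ≤ G := min_le_right _ _
  have hmD : G - |G - F| ≤ min F G := by
    rcases le_total F G with h | h
    · rw [min_eq_left h]; linarith [le_abs_self (G - F)]
    · rw [min_eq_right h]; linarith [abs_nonneg (G - F)]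
  have k1 : (1 - θ) * A * min F G ≤ a * min F G := mul_le_mul_of_nonneg_right hP hm0
  have k2 : A * (G - |G - F|) ≤ A * min F G := mul_le_mul_of_nonneg_left hmD hA
  have k3 : θ * A * min F G ≤ θ * A * G := mul_le_mul_of_nonneg_left hmG (by positivity)
  have k4 : A * G ≤ a * min F G + A * (|G - F| + θ * G) := by
    have e : (1 - θ) * A * min F G = A * min F G - θ * A * min F G := by ring
    have e2 : A * (G - |G - F|) = A * G - A * |G - F| := by ring
    have e3 : A * (|G - F| + θ * G) = A * |G - F| + θ * A * G := by ring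
    linarith
  refine ⟨?_, k4⟩
  rcases le_total 0 (G - (|G - F| + θ * G)) with h | h
  · rw [max_eq_right h]
    have e : A * (G - (|G - F| + θ * G)) = A * G - A * (|G - F| + θ * G) := by ring
    linarith
  · rw [max_eq_left h, mul_zero]
    positivity

private lemma intHQ_cvS (v : Vec d) {φ : Vec d → ℝ≥0∞} (hφ : Measurable φ) {S : Set (Vec d)}
    (hS : MeasurableSet S) :
    ∫⁻ m in {m : Vec d | v - m ∈ S}, φ (v - m) = ∫⁻ z in S, φ z :=
  (Measure.measurePreserving_sub_left volume v).setLIntegral_comp_preimage hS hφ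

private lemma intHQ_cv (v : Vec d) {φ : Vec d → ℝ≥0∞} (hφ : Measurable φ) :
    ∫⁻ m, φ (v - m) = ∫⁻ z, φ z :=
  (Measure.measurePreserving_sub_left volume v).lintegral_comp hφ

/-- the real inequality for the constants -/
private lemma intHQ_real {r γ κ K W ε₁ m₁ : ℝ} (h2 : γ ≤ 2) (hr : 0 < r) (hκ : 0 < κ)
    (hW : 0 < W) (hε : ε₁ ≤ m₁ / 2) (hK : 16 * K * ε₁ ≤ κ * (m₁ / 2)) (hK0 : 0 ≤ K)
    (hε0 : 0 ≤ ε₁) :
    (2 * r) ^ γ * ε₁ * (K * W) ≤ κ * W * ((r / 2) ^ γ * (m₁ - ε₁)) := by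
  have e : (2 * r) ^ γ = 4 ^ γ * (r / 2) ^ γ := by
    rw [← Real.mul_rpow (by norm_num) (by positivity)]
    congr 1
    ring
  have h4 : (4 : ℝ) ^ γ ≤ 16 := by
    calc (4 : ℝ) ^ γ ≤ 4 ^ (2 : ℝ) := Real.rpow_le_rpow_of_exponent_le (by norm_num) h2
      _ = 16 := by norm_num
  have hρ : 0 < (r / 2) ^ γ := Real.rpow_pos_of_pos (by positivity) _
  rw [e]
  calc 4 ^ γ * (r / 2) ^ γ * ε₁ * (K * W) = 4 ^ γ * ((r / 2) ^ γ * ε₁ * (K * W)) := by ring
    _ ≤ 16 * ((r / 2) ^ γ * ε₁ * (K * W)) := mul_le_mul_of_nonneg_right h4 (by positivity)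
    _ = (r / 2) ^ γ * W * (16 * K * ε₁) := by ring
    _ ≤ (r / 2) ^ γ * W * (κ * (m₁ - ε₁)) := by
        refine mul_le_mul_of_nonneg_left (hK.trans ?_) (by positivity)
        exact mul_le_mul_of_nonneg_left (by linarith) hκ.le
    _ = _ := by ring

theorem intHQ (HL : HypL d γ s b C Ca cb) (h0 : 0 ≤ γ) (hs : 2 * s < 1) {p : ℕ} (hp : d + 12 ≤ p)
    (Cl : ℕ → ℝ) (R₁ : ℝ) {m₁ : ℝ} (hm : 0 < m₁) : ∃ ε₁ > 0, ∃ K : ℝ, 0 ≤ K ∧
    ∀ F G : Vec d → ℝ, FB Cl F → FB Cl G → ∀ v w : Vec d, len (v - w) ≤ 1 →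
      m₁ ≤ ∫ z in {z : Vec d | nsq z ≤ R₁ ^ 2}, G z → ∫ z, |G z - F z| ≤ ε₁ →
      ∀ ε : ℝ, 0 < ε → ε ≤ 1 / 64 →
      ∫⁻ m, (ENNReal.ofReal (min (len m ^ γ) (len (m + (w - v)) ^ γ) *
              min (F (v - m)) (G (v - m))) * GMq γ b ε (Wp p) v m +
          ENNReal.ofReal (len m ^ γ * G (v - m)) * GEg γ b ε (Wp p) (RS v) v m) ≤
        (∫⁻ m, ENNReal.ofReal (min (len m ^ γ) (len (m + (w - v)) ^ γ) *
              min (F (v - m)) (G (v - m))) *
            (ENNReal.ofReal (Wp p v) * BB b ε (dir m))) + ENNReal.ofReal (K * Wp p v) := by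
  classical
  obtain ⟨δ, hδ, hδ4, a₀, ha₀, κ, hκ, K, hK, hslo⟩ := sloQ HL h0 hs hp
  obtain ⟨M, hM0, hM⟩ := mom_le d Cl (2 * (p + 2))
  obtain ⟨M₀, hM₀0, hM₀⟩ := mom_le d Cl 0
  have hγ2 := HL.H.g2
  have hd1 := HL.H.hd1
  have : Nonempty (Fin d) := ⟨⟨0, hd1⟩⟩
  obtain ⟨e₂, he₂⟩ : ∃ e₂ : ℝ, e₂ = min (m₁ / 2) (κ * m₁ / (32 * (K + 1))) := ⟨_, rfl⟩
  have he₂0 : 0 < e₂ := by rw [he₂]; exact lt_min (by positivity) (by positivity)
  have he₂m : e₂ ≤ m₁ / 2 := by rw [he₂]; exact min_le_left _ _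
  have he₂K : 16 * K * e₂ ≤ κ * (m₁ / 2) := by
    have h1 : e₂ ≤ κ * m₁ / (32 * (K + 1)) := by rw [he₂]; exact min_le_right _ _
    rw [le_div_iff₀ (by positivity)] at h1
    have h2 : 0 < e₂ := he₂0
    linarith
  obtain ⟨a₁, ha₁⟩ : ∃ a₁ : ℝ, a₁ = max (max a₀ (R₁ ^ 2 / δ ^ 2)) (max 16 ((8 * M₀ / e₂) ^ 2)) :=
    ⟨_, rfl⟩
  have ha₁0 : a₀ ≤ a₁ := by rw [ha₁]; exact (le_max_left _ _).trans (le_max_left _ _)
  have ha₁R : R₁ ^ 2 ≤ δ ^ 2 * a₁ := by
    have : R₁ ^ 2 / δ ^ 2 ≤ a₁ := by rw [ha₁]; exact (le_max_right _ _).trans (le_max_left _ _)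
    rw [div_le_iff₀ (by positivity)] at this
    linarith
  have ha₁16 : 16 ≤ a₁ := by rw [ha₁]; exact (le_max_left _ _).trans (le_max_right _ _)
  have ha₁M : (8 * M₀ / e₂) ^ 2 ≤ a₁ := by rw [ha₁]; exact (le_max_right _ _).trans (le_max_right _ _)
  have ha₁4 : 4 ≤ a₁ := ha₀.trans ha₁0
  have hq0 : 0 < Real.sqrt a₁ := Real.sqrt_pos.2 (by linarith)
  obtain ⟨θ, hθ⟩ : ∃ θ : ℝ, θ = 4 / Real.sqrt a₁ := ⟨_, rfl⟩
  have hθ0 : 0 ≤ θ := by rw [hθ]; positivity
  have hθM : θ * M₀ ≤ e₂ / 2 := by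
    have h1 : 8 * M₀ / e₂ ≤ Real.sqrt a₁ := Real.le_sqrt_of_sq_le ha₁M
    rw [div_le_iff₀ he₂0] at h1
    have h2 : 4 / Real.sqrt a₁ * M₀ = 4 * M₀ / Real.sqrt a₁ := by ring
    rw [hθ, h2, div_le_iff₀ hq0]
    linarith
  obtain ⟨C₂, hC₂⟩ : ∃ C₂ : ℝ, C₂ = a₁ + 1 / δ ^ 2 := ⟨_, rfl⟩
  have hC₂0 : 0 ≤ C₂ := by rw [hC₂]; positivity
  obtain ⟨K'', hK''⟩ : ∃ K'' : ℝ, K'' = 2 * K * ((2 * (C₂ + 1)) ^ 2 * C₂ ^ p) := ⟨_, rfl⟩
  have hK''0 : 0 ≤ K'' := by rw [hK'']; positivity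
  refine ⟨e₂ / 2, by positivity, K'' * M, by positivity, ?_⟩
  intro F G hF hG v w hvw hGm hD ε hε hε1
  have hFc := hF.nice.cont
  have hGc := hG.nice.cont
  have hF0 := hF.nonneg
  have hG0 := hG.nonneg
  have hFi : Integrable F := hF.nice.rd.integrable hFc.aestronglyMeasurable
  have hGi : Integrable G := hG.nice.rd.integrable hGc.aestronglyMeasurable
  have hDi : Integrable fun z => |G z - F z| := (hGi.sub hFi).abs
  have hW0 : 0 < Wp p v := Wp_pos p v
  have hW1 : Wp p v ≤ 1 := Wp_le_one p v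
  have hv := sq_nonneg' v
  have hAm : MeasurableSet {m : Vec d | SlowR δ a₁ v (v - m)} := intHQ_meas v
  have hlen : Measurable fun m : Vec d => len m ^ γ := continuous_len.measurable.pow_const γ
  have hsub : Continuous fun m : Vec d => v - m := continuous_const.sub continuous_id
  have hlen2 : Measurable fun m : Vec d => len (m + (w - v)) ^ γ :=
    (continuous_len.measurable.comp (continuous_id.add continuous_const).measurable).pow_const γ
  obtain ⟨P, hP⟩ : ∃ P : Vec d → ℝ, P = fun m => min (len m ^ γ) (len (m + (w - v)) ^ γ) *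
    min (F (v - m)) (G (v - m)) := ⟨_, rfl⟩
  have hPe : ∀ m : Vec d, min (len m ^ γ) (len (m + (w - v)) ^ γ) *
    min (F (v - m)) (G (v - m)) = P m := fun m => by rw [hP]
  have hPm : Measurable P := by
    rw [hP]
    exact (hlen.min hlen2).mul ((hFc.comp hsub).min (hGc.comp hsub)).measurable
  obtain ⟨E, hE⟩ : ∃ E : Vec d → ℝ, E = fun z => |G z - F z| + θ * G z := ⟨_, rfl⟩
  have hEc : Continuous E := by
    rw [hE]
    exact (hGc.sub hFc).abs.add (continuous_const.mul hGc)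
  have hE0 : ∀ z, 0 ≤ E z := fun z => by
    rw [hE]
    exact add_nonneg (abs_nonneg _) (mul_nonneg hθ0 (hG0 z))
  have hEi : Integrable E := by
    rw [hE]
    exact hDi.add (hGi.const_mul θ)
  have hEI : ∫ z, E z ≤ e₂ := by
    rw [hE, integral_add hDi (hGi.const_mul θ), integral_const_mul]
    have h1 : ∫ z, G z ≤ M₀ := by
      have := (hM₀ G hG).2
      simpa using this
    have h2 : θ * ∫ z, G z ≤ θ * M₀ := mul_le_mul_of_nonneg_left h1 hθ0
    linarith
  have hlH : Measurable fun m : Vec d => ENNReal.ofReal (P m) := hPm.ennreal_ofReal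
  have hlD : Measurable fun m : Vec d => ENNReal.ofReal (len m ^ γ * E (v - m)) :=
    (hlen.mul (hEc.comp hsub).measurable).ennreal_ofReal
  have hne : ∀ᵐ m : Vec d, m ≠ 0 := by
    rw [ae_iff]
    simp
  have hln : ∀ m : Vec d, 0 ≤ len m ^ γ := fun m => Real.rpow_nonneg (len_nonneg m) γ
  have hln2 : ∀ m : Vec d, 0 ≤ len (m + (w - v)) ^ γ := fun m => Real.rpow_nonneg (len_nonneg _) γ
  have hPle : ∀ m : Vec d, P m ≤ len m ^ γ * G (v - m) := fun m => by
    rw [hP]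
    exact mul_le_mul (min_le_left _ _) (min_le_right _ _) (le_min (hF0 _) (hG0 _)) (hln m)
  simp_rw [hPe]
  -- slow velocities
  have partA : ∫⁻ m in {m : Vec d | SlowR δ a₁ v (v - m)},
      (ENNReal.ofReal (P m) * GMq γ b ε (Wp p) v m +
        ENNReal.ofReal (len m ^ γ * G (v - m)) * GEg γ b ε (Wp p) (RS v) v m) ≤
      ∫⁻ m in {m : Vec d | SlowR δ a₁ v (v - m)},
        ENNReal.ofReal (P m) *
          (ENNReal.ofReal (Wp p v) * BB b ε (dir m)) := by
    by_cases ha : a₁ ≤ 1 + nsq v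
    swap
    · have hemp : {m : Vec d | SlowR δ a₁ v (v - m)} = ∅ := by
        ext m
        simp only [mem_ofPred_eq, mem_empty_iff_false, iff_false]
        exact fun h => ha h.1
      rw [hemp]
      simp
    set r := Real.sqrt (1 + nsq v) with hr
    have hr0 : 0 < r := Real.sqrt_pos.2 (by linarith)
    have e1 : ∫⁻ z, ENNReal.ofReal (E z) ≤ ENNReal.ofReal e₂ := by
      rw [← ofReal_integral_eq_lintegral_ofReal hEi (ae_of_all _ hE0)]
      exact ENNReal.ofReal_le_ofReal hEI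
    have mD : Measurable fun z : Vec d => ENNReal.ofReal (E z) := hEc.measurable.ennreal_ofReal
    have mG : Measurable fun z : Vec d => ENNReal.ofReal (G z) := hGc.measurable.ennreal_ofReal
    obtain ⟨H, hH⟩ : ∃ H : Vec d → ℝ, H = fun z => max 0 (G z - E z) := ⟨_, rfl⟩
    have hHc : Continuous H := by
      rw [hH]
      exact continuous_const.max (hGc.sub hEc)
    have mH : Measurable fun z : Vec d => ENNReal.ofReal (H z) := hHc.measurable.ennreal_ofReal
    have hGHE : ∀ z, G z ≤ H z + E z := fun z => by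
      rw [hH]
      have := le_max_right 0 (G z - E z)
      show G z ≤ max 0 (G z - E z) + E z
      linarith
    have up : ∀ m ∈ {m : Vec d | SlowR δ a₁ v (v - m)}, len m ^ γ ≤ (2 * r) ^ γ := fun m hm =>
      Real.rpow_le_rpow (len_nonneg m) (intHQ_slow hδ hδ4 ha₁4 hm).2 h0
    have lo : ∀ m ∈ {m : Vec d | SlowR δ a₁ v (v - m)}, (r / 2) ^ γ ≤ len m ^ γ := fun m hm =>
      Real.rpow_le_rpow (by positivity) (intHQ_slow hδ hδ4 ha₁4 hm).1 h0
    have hra : Real.sqrt a₁ ≤ r := Real.sqrt_le_sqrt ha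
    have pt : ∀ m ∈ {m : Vec d | SlowR δ a₁ v (v - m)}, len m ^ γ * H (v - m) ≤ P m ∧
        len m ^ γ * G (v - m) ≤ P m + len m ^ γ * E (v - m) := fun m hm => by
      have h1 := (intHQ_slow hδ hδ4 ha₁4 hm).1
      have h2 : len m - 1 ≤ len (m + (w - v)) := by
        have h3 := len_le_add_sub m (m + (w - v))
        have h4 : m - (m + (w - v)) = v - w := by abel
        rw [h4] at h3
        linarith
      have h5 := intHQ_pow h0 hγ2 ha₁16 (by linarith : Real.sqrt a₁ / 2 ≤ len m) h2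
      rw [← hθ] at h5
      rw [hP, hH, hE]
      exact intHQ_pt hθ0 (hF0 _) (hG0 _) (hln m) h5 (le_min (hln m) (hln2 m))
    have h2r : 0 ≤ (2 * r) ^ γ := Real.rpow_nonneg (by positivity) _
    have hr2 : 0 ≤ (r / 2) ^ γ := Real.rpow_nonneg (by positivity) _
    have uD : ∫⁻ m in {m : Vec d | SlowR δ a₁ v (v - m)},
        ENNReal.ofReal (len m ^ γ * E (v - m)) ≤
        ENNReal.ofReal ((2 * r) ^ γ) * ENNReal.ofReal e₂ := by
      calc ∫⁻ m in {m : Vec d | SlowR δ a₁ v (v - m)},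
            ENNReal.ofReal (len m ^ γ * E (v - m))
          ≤ ∫⁻ m in {m : Vec d | SlowR δ a₁ v (v - m)},
            ENNReal.ofReal ((2 * r) ^ γ) * ENNReal.ofReal (E (v - m)) := by
            refine setLIntegral_mono' hAm fun m hm => ?_
            rw [← ENNReal.ofReal_mul h2r]
            exact ENNReal.ofReal_le_ofReal
              (mul_le_mul_of_nonneg_right (up m hm) (hE0 _))
        _ ≤ ∫⁻ m, ENNReal.ofReal ((2 * r) ^ γ) * ENNReal.ofReal (E (v - m)) :=
            setLIntegral_le_lintegral _ _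
        _ = ENNReal.ofReal ((2 * r) ^ γ) * ∫⁻ z, ENNReal.ofReal (E z) := by
            rw [lintegral_const_mul' _ _ ENNReal.ofReal_ne_top]
            exact congrArg _ (intHQ_cv v mD)
        _ ≤ _ := mul_le_mul_right e1 _
    have fH : ∫⁻ m in {m : Vec d | SlowR δ a₁ v (v - m)},
        ENNReal.ofReal (P m) ≤
        ENNReal.ofReal ((2 * r) ^ γ) * ∫⁻ z, ENNReal.ofReal (G z) := by
      calc ∫⁻ m in {m : Vec d | SlowR δ a₁ v (v - m)},
            ENNReal.ofReal (P m)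
          ≤ ∫⁻ m in {m : Vec d | SlowR δ a₁ v (v - m)},
            ENNReal.ofReal ((2 * r) ^ γ) * ENNReal.ofReal (G (v - m)) := by
            refine setLIntegral_mono' hAm fun m hm => ?_
            rw [← ENNReal.ofReal_mul h2r]
            exact ENNReal.ofReal_le_ofReal
              ((hPle m).trans (mul_le_mul_of_nonneg_right (up m hm) (hG0 _)))
        _ ≤ ∫⁻ m, ENNReal.ofReal ((2 * r) ^ γ) * ENNReal.ofReal (G (v - m)) :=
            setLIntegral_le_lintegral _ _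
        _ = ENNReal.ofReal ((2 * r) ^ γ) * ∫⁻ z, ENNReal.ofReal (G z) := by
            rw [lintegral_const_mul' _ _ ENNReal.ofReal_ne_top]
            exact congrArg _ (intHQ_cv v mG)
    have hGfin : ∫⁻ z, ENNReal.ofReal (G z) ≠ ⊤ := by
      rw [← ofReal_integral_eq_lintegral_ofReal hGi (ae_of_all _ hG0)]
      exact ENNReal.ofReal_ne_top
    have lH : ENNReal.ofReal ((r / 2) ^ γ) * ENNReal.ofReal (m₁ - e₂) ≤
        ∫⁻ m in {m : Vec d | SlowR δ a₁ v (v - m)},
          ENNReal.ofReal (P m) := by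
      have hS : MeasurableSet {z : Vec d | nsq z ≤ R₁ ^ 2} :=
        (isClosed_le continuous_sq continuous_const).measurableSet
      have hBA : {m : Vec d | v - m ∈ {z : Vec d | nsq z ≤ R₁ ^ 2}} ⊆
          {m : Vec d | SlowR δ a₁ v (v - m)} := by
        intro m hm
        refine ⟨ha, ?_⟩
        have h1 : nsq (v - m) ≤ R₁ ^ 2 := hm
        have h2 : δ ^ 2 * a₁ ≤ δ ^ 2 * (1 + nsq v) := mul_le_mul_of_nonneg_left ha (sq_nonneg _)
        linarith
      have hBm : MeasurableSet {m : Vec d | v - m ∈ {z : Vec d | nsq z ≤ R₁ ^ 2}} :=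
        hsub.measurable hS
      calc ENNReal.ofReal ((r / 2) ^ γ) * ENNReal.ofReal (m₁ - e₂)
          ≤ ENNReal.ofReal ((r / 2) ^ γ) *
            ∫⁻ z in {z : Vec d | nsq z ≤ R₁ ^ 2}, ENNReal.ofReal (H z) :=
            mul_le_mul_right (intHQ_mass hHc hE0 hG0 hGi hEi _ hGHE hGm hEI he₂0.le) _
        _ = ∫⁻ m in {m : Vec d | v - m ∈ {z : Vec d | nsq z ≤ R₁ ^ 2}},
            ENNReal.ofReal ((r / 2) ^ γ) * ENNReal.ofReal (H (v - m)) := by
            rw [lintegral_const_mul' _ _ ENNReal.ofReal_ne_top]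
            exact congrArg _ (intHQ_cvS v mH hS).symm
        _ ≤ ∫⁻ m in {m : Vec d | v - m ∈ {z : Vec d | nsq z ≤ R₁ ^ 2}},
            ENNReal.ofReal (P m) := by
            refine setLIntegral_mono' hBm fun m hm => ?_
            rw [← ENNReal.ofReal_mul hr2]
            refine ENNReal.ofReal_le_ofReal
              (le_trans (mul_le_mul_of_nonneg_right (lo m (hBA hm)) ?_) (pt m (hBA hm)).1)
            rw [hH]
            exact le_max_left _ _
        _ ≤ _ := lintegral_mono_set hBA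
    refine intHQ_absorb (c := ENNReal.ofReal (κ * Wp p v)) (e := ENNReal.ofReal (K * Wp p v))
      hlH hlD ?_ ?_ ?_
    · filter_upwards [ae_restrict_of_ae hne, ae_restrict_mem hAm] with m hm0 hmA
      obtain ⟨s1, s2, -⟩ := hslo v m hm0 ε hε hε1
      have s3 := s2 ⟨ha₁0.trans hmA.1, hmA.2⟩
      have s4 : ENNReal.ofReal (len m ^ γ * G (v - m)) ≤
          ENNReal.ofReal (P m) + ENNReal.ofReal (len m ^ γ * E (v - m)) :=
        le_trans (ENNReal.ofReal_le_ofReal (pt m hmA).2) ENNReal.ofReal_add_le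
      generalize ENNReal.ofReal (len m ^ γ * G (v - m)) = lG at s4 ⊢
      generalize ENNReal.ofReal (P m) = lH' at s4 ⊢
      generalize ENNReal.ofReal (len m ^ γ * E (v - m)) = lD' at s4 ⊢
      generalize GMq γ b ε (Wp p) v m = gM at s3 ⊢
      generalize GEg γ b ε (Wp p) (RS v) v m = gE at s1 s3 ⊢
      generalize ENNReal.ofReal (Wp p v) * BB b ε (dir m) = wB at s3 ⊢
      calc lH' * gM + lG * gE + ENNReal.ofReal (κ * Wp p v) * lH'
          ≤ lH' * gM + (lH' + lD') * gE + ENNReal.ofReal (κ * Wp p v) * lH' := by gcongr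
        _ = lH' * (gM + gE + ENNReal.ofReal (κ * Wp p v)) + lD' * gE := by ring
        _ ≤ lH' * wB + lD' * ENNReal.ofReal (K * Wp p v) := by gcongr
    · calc (∫⁻ m in {m : Vec d | SlowR δ a₁ v (v - m)},
            ENNReal.ofReal (len m ^ γ * E (v - m))) * ENNReal.ofReal (K * Wp p v)
          ≤ ENNReal.ofReal ((2 * r) ^ γ) * ENNReal.ofReal e₂ * ENNReal.ofReal (K * Wp p v) := by
            gcongr
        _ = ENNReal.ofReal ((2 * r) ^ γ * e₂ * (K * Wp p v)) := by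
            rw [← ENNReal.ofReal_mul h2r, ← ENNReal.ofReal_mul (by positivity)]
        _ ≤ ENNReal.ofReal (κ * Wp p v * ((r / 2) ^ γ * (m₁ - e₂))) :=
            ENNReal.ofReal_le_ofReal (intHQ_real hγ2 hr0 hκ hW0 he₂m he₂K hK he₂0.le)
        _ = ENNReal.ofReal (κ * Wp p v) *
            (ENNReal.ofReal ((r / 2) ^ γ) * ENNReal.ofReal (m₁ - e₂)) := by
            rw [← ENNReal.ofReal_mul hr2, ← ENNReal.ofReal_mul (by positivity)]
        _ ≤ _ := by gcongr
    · exact ENNReal.mul_ne_top ENNReal.ofReal_ne_top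
        (ne_top_of_le_ne_top (ENNReal.mul_ne_top ENNReal.ofReal_ne_top hGfin) fH)
  -- the other velocities
  have mJ : Measurable fun z : Vec d => ENNReal.ofReal (G z * jb z ^ (2 * (p + 2))) := by
    have hjb : Continuous (jb : Vec d → ℝ) := by
      unfold jb
      exact (continuous_const.add continuous_sq).sqrt
    exact (hGc.mul (hjb.pow _)).measurable.ennreal_ofReal
  have mR : Measurable fun m : Vec d => ENNReal.ofReal (K'' * Wp p v) *
      ENNReal.ofReal (G (v - m) * jb (v - m) ^ (2 * (p + 2))) :=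
    (mJ.comp hsub.measurable).const_mul _
  have partB : ∫⁻ m in {m : Vec d | SlowR δ a₁ v (v - m)}ᶜ,
      (ENNReal.ofReal (P m) * GMq γ b ε (Wp p) v m +
        ENNReal.ofReal (len m ^ γ * G (v - m)) * GEg γ b ε (Wp p) (RS v) v m) ≤
      (∫⁻ m in {m : Vec d | SlowR δ a₁ v (v - m)}ᶜ,
        ENNReal.ofReal (P m) *
          (ENNReal.ofReal (Wp p v) * BB b ε (dir m))) + ENNReal.ofReal (K'' * M * Wp p v) := by
    calc ∫⁻ m in {m : Vec d | SlowR δ a₁ v (v - m)}ᶜ,
        (ENNReal.ofReal (P m) * GMq γ b ε (Wp p) v m +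
          ENNReal.ofReal (len m ^ γ * G (v - m)) * GEg γ b ε (Wp p) (RS v) v m)
        ≤ ∫⁻ m in {m : Vec d | SlowR δ a₁ v (v - m)}ᶜ,
          (ENNReal.ofReal (P m) *
            (ENNReal.ofReal (Wp p v) * BB b ε (dir m)) + ENNReal.ofReal (K'' * Wp p v) *
            ENNReal.ofReal (G (v - m) * jb (v - m) ^ (2 * (p + 2)))) := by
          refine lintegral_mono_ae ?_
          filter_upwards [ae_restrict_of_ae hne, ae_restrict_mem hAm.compl] with m hm0 hmA
          obtain ⟨s1, -, s3⟩ := hslo v m hm0 ε hε hε1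
          have hnm := sq_nonneg' m
          have o1 := intHQ_off hδ ha₁4 (v := v) (m := m) hmA
          rw [← hC₂] at o1
          have o2 := intHQ_off2 h0 hγ2 p hC₂0 o1
          have s4 : ENNReal.ofReal (len m ^ γ * G (v - m)) *
              (ENNReal.ofReal (K * (1 + nsq m)) + ENNReal.ofReal (K * Wp p v)) ≤
              ENNReal.ofReal (K'' * Wp p v) *
                ENNReal.ofReal (G (v - m) * jb (v - m) ^ (2 * (p + 2))) := by
            rw [← ENNReal.ofReal_add (by positivity) (by positivity),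
              ← ENNReal.ofReal_mul (mul_nonneg (hln m) (hG0 _)),
              ← ENNReal.ofReal_mul (by positivity)]
            refine ENNReal.ofReal_le_ofReal ?_
            rw [intHQ_jb, hK'']
            have g0 := hG0 (v - m)
            calc len m ^ γ * G (v - m) * (K * (1 + nsq m) + K * Wp p v)
                ≤ len m ^ γ * G (v - m) * (2 * K * (1 + nsq m)) := by
                  refine mul_le_mul_of_nonneg_left ?_ (mul_nonneg (hln m) g0)
                  nlinarith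
              _ = 2 * K * G (v - m) * (len m ^ γ * (1 + nsq m)) := by ring
              _ ≤ 2 * K * G (v - m) * ((2 * (C₂ + 1)) ^ 2 * C₂ ^ p * Wp p v *
                    (1 + nsq (v - m)) ^ (p + 2)) :=
                  mul_le_mul_of_nonneg_left o2 (by positivity)
              _ = _ := by ring
          have s5 : ENNReal.ofReal (P m) ≤ ENNReal.ofReal (len m ^ γ * G (v - m)) :=
            ENNReal.ofReal_le_ofReal (hPle m)
          generalize ENNReal.ofReal (K'' * Wp p v) *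
            ENNReal.ofReal (G (v - m) * jb (v - m) ^ (2 * (p + 2))) = R at s4 ⊢
          generalize ENNReal.ofReal (len m ^ γ * G (v - m)) = lG at s4 s5 ⊢
          generalize ENNReal.ofReal (P m) = lH' at s5 ⊢
          generalize GMq γ b ε (Wp p) v m = gM at s3 ⊢
          generalize GEg γ b ε (Wp p) (RS v) v m = gE at s1 ⊢
          generalize ENNReal.ofReal (Wp p v) * BB b ε (dir m) = wB at s3 ⊢
          calc lH' * gM + lG * gE
              ≤ lH' * (wB + ENNReal.ofReal (K * (1 + nsq m))) +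
                lG * ENNReal.ofReal (K * Wp p v) := by gcongr
            _ = lH' * wB + (lH' * ENNReal.ofReal (K * (1 + nsq m)) +
                lG * ENNReal.ofReal (K * Wp p v)) := by ring
            _ ≤ lH' * wB + (lG * ENNReal.ofReal (K * (1 + nsq m)) +
                lG * ENNReal.ofReal (K * Wp p v)) := by gcongr
            _ = lH' * wB + lG * (ENNReal.ofReal (K * (1 + nsq m)) +
                ENNReal.ofReal (K * Wp p v)) := by ring
            _ ≤ lH' * wB + R := by gcongr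
      _ = (∫⁻ m in {m : Vec d | SlowR δ a₁ v (v - m)}ᶜ,
          ENNReal.ofReal (P m) *
            (ENNReal.ofReal (Wp p v) * BB b ε (dir m))) +
          ∫⁻ m in {m : Vec d | SlowR δ a₁ v (v - m)}ᶜ, ENNReal.ofReal (K'' * Wp p v) *
            ENNReal.ofReal (G (v - m) * jb (v - m) ^ (2 * (p + 2))) :=
          lintegral_add_right _ mR
      _ ≤ _ := by
          refine add_le_add le_rfl ?_
          refine (setLIntegral_le_lintegral _ _).trans ?_
          rw [lintegral_const_mul' _ _ ENNReal.ofReal_ne_top]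
          have e2 : ∫⁻ m : Vec d, ENNReal.ofReal (G (v - m) * jb (v - m) ^ (2 * (p + 2))) =
              ∫⁻ z : Vec d, ENNReal.ofReal (G z * jb z ^ (2 * (p + 2))) := intHQ_cv v mJ
          rw [e2]
          obtain ⟨i1, i2⟩ := hM G hG
          rw [← ofReal_integral_eq_lintegral_ofReal i1 (ae_of_all _ fun z =>
            mul_nonneg (hG0 z) (pow_nonneg (Real.sqrt_nonneg _) _)),
            ← ENNReal.ofReal_mul (by positivity)]
          refine ENNReal.ofReal_le_ofReal ?_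
          calc K'' * Wp p v * ∫ z, G z * jb z ^ (2 * (p + 2)) ≤ K'' * Wp p v * M :=
                mul_le_mul_of_nonneg_left i2 (by positivity)
            _ = _ := by ring
  rw [← lintegral_add_compl _ hAm, ← lintegral_add_compl (fun m : Vec d =>
    ENNReal.ofReal (P m) *
      (ENNReal.ofReal (Wp p v) * BB b ε (dir m))) hAm, add_assoc]
  exact add_le_add partA partB

end Pool.Agent.H87.QH
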