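import Pool.Agent.H87.QH.CplI
import Pool.Agent.H87.QH.CplG

/-!
# Module IntR1: the remainder with the coupled displacement

For `m ≠ 0`, `m₁ = m + (w-v) ≠ 0` (a.e.): `∫ Kn(co m σ) mu α (cpl m m₁ (hh σ m)) = ∫ Kn(co m₁ σ) mu α (hh σ m₁) ≤ A (1 + nsq m₁)` (`cpl_int` with `Φ c h = ofReal (Kn c * mu α h)`, `ang_min` (PR/AngK) at `m₁`; `mu α h = min 1 (len h) ^ α` by definition): lemma `ang_cpl`, public.
`len m₁ ≤ len m + 1`, `len m₁^γ (1+nsq m₁) ≤ (1+nsq m₁)² ≤ 9 (1+nsq m)² ≤ 36 (1+nsq v)²(1+nsq z)²`, `z = v-m`, `Wp (p+2) v (1+nsq v)² = Wp p v`, `Wp p z (1+nsq z)² = Wp (p-2) z` integrable (see PR/IntR, `IntR_inner`, `intR`).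
`measurable_inner`: the joint measurability used in `CutQ` is there.
-/

set_option autoImplicit false

open MeasureTheory Set Filter Topology Pool.Agent.H25.Kin Pool.Agent.H48.PL Pool.Agent.H48.PD
open Pool.Agent.H82.BK Pool.Agent.H82.CM Pool.Agent.H48.PR
open scoped ENNReal

namespace Pool.Agent.H87.QH

variable {d : ℕ} {γ s C Ca : ℝ} {b : ℝ → ℝ}

private lemma IntR1_Kn (H : Hyp d γ s b C Ca) (ε : ℝ) : Measurable (Kn d γ (bt b ε)) := by
  have hbt : Measurable (bt b ε) := measurable_bt H.bm ε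
  unfold Kn
  have h1 : Measurable fun c : ℝ => c ^ (-2 - γ) := measurable_id.pow_const _
  have h2 : Measurable fun c : ℝ => bt b ε (2 * c ^ 2 - 1) := hbt.comp (by fun_prop)
  exact (measurable_const.mul h1).mul h2

private lemma IntR1_meas (H : Hyp d γ s b C Ca) (ε α : ℝ) :
    Measurable fun q : ℝ × Vec d => ENNReal.ofReal (Kn d γ (bt b ε) q.1 * mu α q.2) := by
  have h4 : Measurable fun q : ℝ × Vec d => len q.2 := continuous_len.measurable.comp measurable_snd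
  have h5 : Measurable fun q : ℝ × Vec d => min 1 (len q.2) := measurable_const.min h4
  have h6 : Measurable fun q : ℝ × Vec d => Kn d γ (bt b ε) q.1 :=
    (IntR1_Kn H ε).comp measurable_fst
  unfold mu
  exact (h6.mul (h5.pow_const α)).ennreal_ofReal

private lemma IntR1_len {γ : ℝ} (h0 : 0 ≤ γ) (h2 : γ ≤ 2) (m : Vec d) : len m ^ γ ≤ 1 + nsq m := by
  have hl := len_nonneg m
  have hn := sq_nonneg' m
  rcases le_total (len m) 1 with h | h
  · have := Real.rpow_le_one hl h h0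
    linarith
  · have h3 : len m ^ γ ≤ len m ^ (2 : ℝ) := Real.rpow_le_rpow_of_exponent_le h h2
    rw [Real.rpow_two, len_sq] at h3
    linarith

private lemma IntR1_nsq (v m : Vec d) : 1 + nsq m ≤ 2 * ((1 + nsq v) * (1 + nsq (v - m))) := by
  have h1 := sq_nonneg' v
  have h2 := sq_nonneg' (v - m)
  have h3 : nsq m ≤ 2 * nsq v + 2 * nsq (v - m) := by
    unfold nsq
    rw [Finset.mul_sum, Finset.mul_sum, ← Finset.sum_add_distrib]
    refine Finset.sum_le_sum fun i _ => ?_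
    rw [Pi.sub_apply]
    nlinarith [sq_nonneg (2 * v i - m i)]
  nlinarith [mul_nonneg h1 h2]

private lemma IntR1_nsq1 {v w : Vec d} (h : len (v - w) ≤ 1) (m : Vec d) :
    1 + nsq (m + (w - v)) ≤ 3 * (1 + nsq m) := by
  have h1 := sq_nonneg' m
  have h2 : nsq (w - v) ≤ 1 := by
    have h3 : nsq (w - v) = nsq (v - w) := by
      unfold nsq
      refine Finset.sum_congr rfl fun i _ => ?_
      simp only [Pi.sub_apply]
      ring
    rw [h3, ← len_sq]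
    exact pow_le_one₀ (len_nonneg _) h
  have h3 : nsq (m + (w - v)) ≤ 2 * nsq m + 2 * nsq (w - v) := by
    unfold nsq
    rw [Finset.mul_sum, Finset.mul_sum, ← Finset.sum_add_distrib]
    refine Finset.sum_le_sum fun i _ => ?_
    simp only [Pi.sub_apply, Pi.add_apply]
    nlinarith [sq_nonneg (m i - (w i - v i))]
  linarith

private lemma IntR1_W (p : ℕ) (v : Vec d) : Wp (p + 2) v * (1 + nsq v) ^ 2 = Wp p v := by
  have h := sq_nonneg' v
  have h1 : (1 + nsq v) ≠ 0 := by positivity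
  unfold Wp
  rw [pow_add, mul_inv, mul_assoc, inv_mul_cancel₀ (pow_ne_zero _ h1), mul_one]

private lemma IntR1_wt {q : ℕ} (hq : d + 1 ≤ 2 * q) (z : Vec d) : Wp q z ≤ 2 ^ q * wt d z := by
  have h := sq_nonneg' z
  have h1 := one_le_w z
  have h2 : (1 + ‖z‖) ^ (d + 1) ≤ 2 ^ q * (1 + nsq z) ^ q := by
    calc (1 + ‖z‖) ^ (d + 1) ≤ (1 + ‖z‖) ^ (2 * q) := pow_le_pow_right₀ h1 hq
      _ = ((1 + ‖z‖) ^ 2) ^ q := pow_mul _ _ _
      _ ≤ (2 * (1 + nsq z)) ^ q := pow_le_pow_left₀ (by positivity) (norm_le_nsq z) q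
      _ = 2 ^ q * (1 + nsq z) ^ q := mul_pow _ _ _
  unfold Wp wt
  have h3 : 0 < (1 + nsq z) ^ q := by positivity
  have h4 : 0 < (1 + ‖z‖) ^ (d + 1) := by positivity
  rw [← div_eq_mul_inv, inv_eq_one_div, div_le_div_iff₀ h3 h4, one_mul]
  exact h2

/-- the inner integral -/
private lemma IntR1_inner {A P ε α : ℝ} (hP : 0 ≤ P) (hα : 0 < α) (m m₁ : Vec d)
    (h1 : m ≠ 0 → m₁ ≠ 0 → ∫⁻ σ in {σ : Vec d | 0 < dot m σ}, ENNReal.ofReal
      (Kn d γ (bt b ε) (co m σ) * mu α (cpl m m₁ (hh σ m))) ∂(surf d) ≤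
      ENNReal.ofReal (A * (1 + nsq m₁))) :
    ∫⁻ σ in {σ : Vec d | 0 < dot m σ}, ENNReal.ofReal (Kn d γ (bt b ε) (co m σ) *
        (P * mu α (cpl m m₁ (hh σ m)))) ∂(surf d) ≤ ENNReal.ofReal (P * (A * (1 + nsq m₁))) := by
  rcases eq_or_ne m 0 with rfl | hm
  · have h3 : {σ : Vec d | 0 < dot (0 : Vec d) σ} = ∅ := by
      ext σ
      simp [dot]
    rw [h3, Measure.restrict_empty, lintegral_zero_measure]
    exact bot_le
  rcases eq_or_ne m₁ 0 with rfl | hm₁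
  · have h3 : ∀ σ : Vec d, ENNReal.ofReal (Kn d γ (bt b ε) (co m σ) *
        (P * mu α (cpl m 0 (hh σ m)))) = 0 := by
      intro σ
      have e1 : len (0 : Vec d) = 0 := by
        unfold len nsq
        simp
      have e2 : cpl m 0 (hh σ m) = 0 := by
        unfold cpl
        rw [e1, zero_div, zero_smul]
      have e3 : mu α (0 : Vec d) = 0 := by
        unfold mu
        rw [e1, min_eq_right zero_le_one, Real.zero_rpow hα.ne']
      rw [e2, e3, mul_zero, mul_zero, ENNReal.ofReal_zero]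
    rw [lintegral_congr h3, lintegral_zero]
    exact bot_le
  have h3 : ∀ σ : Vec d, ENNReal.ofReal (Kn d γ (bt b ε) (co m σ) *
        (P * mu α (cpl m m₁ (hh σ m)))) =
      ENNReal.ofReal P * ENNReal.ofReal
        (Kn d γ (bt b ε) (co m σ) * mu α (cpl m m₁ (hh σ m))) := by
    intro σ
    rw [← ENNReal.ofReal_mul hP]
    congr 1
    ring
  rw [lintegral_congr h3, lintegral_const_mul' _ _ ENNReal.ofReal_ne_top, ENNReal.ofReal_mul hP]
  exact mul_le_mul_right (h1 hm hm₁) _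

/-- the algebra of the weights -/
private lemma IntR1_alg {A l n₁ n V Z Wz Wv2 Wv Wq T : ℝ} (hA : 0 ≤ A) (hn₁ : 0 ≤ n₁) (hn : 0 ≤ n)
    (hWz : 0 ≤ Wz) (hWv2 : 0 ≤ Wv2) (hWv : 0 ≤ Wv) (hl : l ≤ 1 + n₁)
    (h1 : 1 + n₁ ≤ 3 * (1 + n)) (h2 : 1 + n ≤ 2 * ((1 + V) * (1 + Z)))
    (h3 : Wv2 * (1 + V) ^ 2 = Wv) (h4 : Wz * (1 + Z) ^ 2 = Wq) (h5 : Wq ≤ T) :
    l * Wz * (Wv2 * (A * (1 + n₁))) ≤ 36 * A * Wv * T := by
  have e1 : (1 + n₁) * (1 + n₁) ≤ (6 * ((1 + V) * (1 + Z))) * (6 * ((1 + V) * (1 + Z))) := by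
    have : 1 + n₁ ≤ 6 * ((1 + V) * (1 + Z)) := by linarith
    exact mul_le_mul this this (by linarith) (by linarith)
  have e2 : l * (1 + n₁) ≤ 36 * ((1 + V) ^ 2 * (1 + Z) ^ 2) := by
    calc l * (1 + n₁) ≤ (1 + n₁) * (1 + n₁) := mul_le_mul_of_nonneg_right hl (by linarith)
      _ ≤ _ := e1
      _ = _ := by ring
  have e3 : 0 ≤ A * (Wz * Wv2) := by positivity
  calc l * Wz * (Wv2 * (A * (1 + n₁))) = A * (Wz * Wv2) * (l * (1 + n₁)) := by ring
    _ ≤ A * (Wz * Wv2) * (36 * ((1 + V) ^ 2 * (1 + Z) ^ 2)) := mul_le_mul_of_nonneg_left e2 e3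
    _ = 36 * A * (Wv2 * (1 + V) ^ 2) * (Wz * (1 + Z) ^ 2) := by ring
    _ = 36 * A * Wv * Wq := by rw [h3, h4]
    _ ≤ 36 * A * Wv * T := mul_le_mul_of_nonneg_left h5 (by positivity)

theorem ang_cpl (H : Hyp d γ s b C Ca) {α : ℝ} (h1 : 2 * s < α) (h2 : α ≤ 1) :
    ∃ A : ℝ, 0 ≤ A ∧ ∀ ε : ℝ, 0 < ε → ∀ m m₁ : Vec d, m ≠ 0 → m₁ ≠ 0 →
    ∫⁻ σ in {σ : Vec d | 0 < dot m σ}, ENNReal.ofReal
      (Kn d γ (bt b ε) (co m σ) * mu α (cpl m m₁ (hh σ m))) ∂(surf d) ≤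
      ENNReal.ofReal (A * (1 + nsq m₁)) := by
  obtain ⟨A, hA, h⟩ := ang_min H h1 h2
  refine ⟨A, hA, fun ε hε m m₁ hm hm₁ => ?_⟩
  have hd : 1 ≤ d := le_trans (by norm_num) H.hd
  have h3 := cpl_int hd hm hm₁
    (Φ := fun c g => ENNReal.ofReal (Kn d γ (bt b ε) c * mu α g)) (IntR1_meas H ε α)
  rw [← h3]
  exact h ε hε m₁ hm₁

theorem intR1 (H : Hyp d γ s b C Ca) (h0 : 0 ≤ γ) {α : ℝ} (h1 : 2 * s < α) (h2 : α ≤ 1) {p : ℕ}
    (hp : d + 12 ≤ p) : ∃ K : ℝ, 0 ≤ K ∧ ∀ v w : Vec d, len (v - w) ≤ 1 → ∀ ε : ℝ, 0 < ε →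
    ∫⁻ m, ENNReal.ofReal (len (m + (w - v)) ^ γ * Wp p (v - m)) *
      ∫⁻ σ in {σ : Vec d | 0 < dot m σ}, ENNReal.ofReal (Kn d γ (bt b ε) (co m σ) *
        (Wp (p + 2) v * mu α (cpl m (m + (w - v)) (hh σ m)))) ∂(surf d) ≤
      ENNReal.ofReal (K * Wp p v) := by
  obtain ⟨A, hA, g1⟩ := ang_cpl H h1 h2
  obtain ⟨q, rfl⟩ : ∃ q, p = q + 2 := ⟨p - 2, by omega⟩
  have hα : 0 < α := by
    have := H.hs
    linarith
  have hI : 0 ≤ ∫ z : Vec d, wt d z := integral_nonneg wt_nonneg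
  refine ⟨36 * A * 2 ^ q * ∫ z : Vec d, wt d z, by positivity, fun v w hvw ε hε => ?_⟩
  have key : ∀ m : Vec d, ENNReal.ofReal (len (m + (w - v)) ^ γ * Wp (q + 2) (v - m)) *
      ∫⁻ σ in {σ : Vec d | 0 < dot m σ}, ENNReal.ofReal (Kn d γ (bt b ε) (co m σ) *
        (Wp (q + 2 + 2) v * mu α (cpl m (m + (w - v)) (hh σ m)))) ∂(surf d) ≤
      ENNReal.ofReal (36 * A * 2 ^ q * Wp (q + 2) v * wt d (v - m)) := by
    intro m
    have hW := (Wp_pos (q + 2 + 2) v).le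
    have h3 := IntR1_inner (P := Wp (q + 2 + 2) v) hW hα m (m + (w - v))
      (fun hm hm₁ => g1 ε hε m (m + (w - v)) hm hm₁)
    refine (mul_le_mul_right h3 _).trans ?_
    have hl : 0 ≤ len (m + (w - v)) ^ γ := Real.rpow_nonneg (len_nonneg _) _
    have hWz := (Wp_pos (q + 2) (v - m)).le
    rw [← ENNReal.ofReal_mul (mul_nonneg hl hWz)]
    refine ENNReal.ofReal_le_ofReal ?_
    have h4 := IntR1_alg hA (sq_nonneg' (m + (w - v))) (sq_nonneg' m) hWz hW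
      (Wp_pos (q + 2) v).le (IntR1_len h0 H.g2 (m + (w - v))) (IntR1_nsq1 hvw m) (IntR1_nsq v m)
      (IntR1_W (q + 2) v) (IntR1_W q (v - m)) (IntR1_wt (d := d) (q := q) (by omega) (v - m))
    refine h4.trans (le_of_eq ?_)
    ring
  refine (lintegral_mono key).trans ?_
  have hWv := (Wp_pos (q + 2) v).le
  have hc : 0 ≤ 36 * A * 2 ^ q * Wp (q + 2) v := by positivity
  have h5 : ∫⁻ m : Vec d, ENNReal.ofReal (36 * A * 2 ^ q * Wp (q + 2) v * wt d (v - m)) =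
      ENNReal.ofReal (36 * A * 2 ^ q * Wp (q + 2) v) *
        ∫⁻ z : Vec d, ENNReal.ofReal (wt d z) := by
    rw [← lintegral_sub_left_eq_self (fun z : Vec d => ENNReal.ofReal (wt d z)) v,
      ← lintegral_const_mul' _ _ ENNReal.ofReal_ne_top]
    refine lintegral_congr fun m => ?_
    rw [ENNReal.ofReal_mul hc]
  rw [h5, ← ofReal_integral_eq_lintegral_ofReal integrable_wt
    (Eventually.of_forall wt_nonneg), ← ENNReal.ofReal_mul hc]
  refine ENNReal.ofReal_le_ofReal (le_of_eq ?_)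
  ring

end Pool.Agent.H87.QH
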