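import Pool.Agent.H87.QH.Defs

/-!
# Module SloQ: the weight `W = Wp p` with the factor `c^(-2)` in the three regions

Model: PR/Slo (`slo`) and CM/SlowS (`slow_boundg`). Take the constants of `slo` (d + 10 ≤ p) for the first clause and the third; `d + 12 ≤ p` gives `(d:ℝ) + γ + 4 ≤ 2 (p-1)`.
* third clause: on the support of `bt b ε (2c²-1)` one has `2c² ≥ 1` (`bt b ε x = 0` for `x < 0`: `bt_neg`), `(c²)⁻¹ = 1 + (1-c²)/c² ≤ 1 + 2 (1-c²) ≤ 1 + 2 (1 - c^(d+γ))` (`d + γ ≥ 2`, `c ≤ 1`), `W ≤ 1`: `GMq ≤ GMg γ b ε (Wp p) univ v m + 2 ∫ Kn (1 - c^(d+γ))`, third clause of `slo` and `ang_one` (PR/AngK).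
* second clause: `GEg ≤ ∫ Kn(bt(-·)) W(v+h)` and `GMq`; pointwise for slow `z = v - m`: `W(v+h) + W(v-h) ≤ 2 W(v) c^(2p) (1+(1-c²))` (`slow_point` in CM/SlowS, private, copy it; for `g = Wp p` the hypothesis is an equality `Wp_mul`; `slow_ineq p` gives `δ₁, η`), averaged over the reflection (`refl_avg`, BK/Avg, with
  `K c = ofReal (Kn c * (c²)⁻¹)` resp. `ofReal (Kn' c)`, `R c = ofReal (W v) * ofReal (c^(2p) (1+(1-c²)))`): `GMq ≤ W(v) ∫ Kn c^(2(p-1)) (1+(1-c²))`, `GEg ≤ W(v) ∫ Kn' c^(2(p-1)) (1+(1-c²))` (`c^(2p) ≤ c^(2(p-1))`), and `slow_integralg` (public, CM/SlowS) with `p - 1` and `povzner_slack`, `slack_low` (CM/LowK) as in `slow_boundg`.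
  Take `δ = min δ_slo (min δ₁ (min (1/4) (η/6)))`, `a₀ = max 4 (2/η)` (and the constants of `slo`).
-/

set_option autoImplicit false

open MeasureTheory Set Filter Topology Pool.Agent.H25.Kin Pool.Agent.H48.PL Pool.Agent.H48.PD
open Pool.Agent.H82.BK Pool.Agent.H82.CM Pool.Agent.H48.PR
open scoped ENNReal

namespace Pool.Agent.H87.QH

variable {d : ℕ} {γ s C Ca cb : ℝ} {b : ℝ → ℝ}

private lemma sloQ_nsq {η δ : ℝ} (hη : 0 < η) (hδ : 0 < δ) (hδ1 : δ ≤ 1) (hδη : δ ≤ η / 6)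
    {v m : Vec d} (hz : nsq (v - m) ≤ δ ^ 2 * (1 + nsq v)) (ha : 2 / η ≤ 1 + nsq v) :
    (1 - η) * (1 + nsq v) ≤ nsq m ∧ nsq m ≤ (1 + η) * (1 + nsq v) := by
  have hv : 0 ≤ nsq v := sq_nonneg' v
  have hzz : 0 ≤ nsq (v - m) := sq_nonneg' _
  have e : nsq m = nsq v - 2 * dot v (v - m) + nsq (v - m) := by
    rw [← nsq_sub]; congr 1; abel
  have h1 : dot v (v - m) ^ 2 ≤ (δ * (1 + nsq v)) ^ 2 := by
    refine (dot_sq_le v (v - m)).trans ?_
    have : nsq v * nsq (v - m) ≤ (1 + nsq v) * (δ ^ 2 * (1 + nsq v)) :=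
      mul_le_mul (by linarith) hz hzz (by linarith)
    linarith [this, mul_comm (1 + nsq v) (δ ^ 2 * (1 + nsq v)),
      show (δ * (1 + nsq v)) ^ 2 = (1 + nsq v) * (δ ^ 2 * (1 + nsq v)) by ring]
  have h2 : |dot v (v - m)| ≤ δ * (1 + nsq v) := abs_le_of_sq_le_sq h1 (by positivity)
  obtain ⟨h3, h4⟩ := abs_le.mp h2
  have h5 : δ * (1 + nsq v) ≤ η / 6 * (1 + nsq v) :=
    mul_le_mul_of_nonneg_right hδη (by linarith)
  have h6 : δ ^ 2 * (1 + nsq v) ≤ η / 6 * (1 + nsq v) :=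
    mul_le_mul_of_nonneg_right (by nlinarith only [hδ, hδ1, hδη]) (by linarith)
  have h7 : 2 ≤ η * (1 + nsq v) := by
    rw [div_le_iff₀ hη] at ha
    linarith
  constructor
  · linarith only [e, h4, h5, h7, hzz]
  · linarith only [e, h3, h5, h6, h7, hz]

private lemma sloQ_point {p : ℕ} {δ₁ η δ : ℝ} (hη : 0 < η) (hδ : 0 < δ)
    (hδ1 : δ ≤ 1) (hδη : δ ≤ η / 6) (hδδ : δ ≤ δ₁)
    (hS : ∀ X Y c : ℝ, 0 < c → c ≤ 1 →
      (1 - η) * ((1 - c ^ 2) / c ^ 2) ≤ X → X ≤ (1 + η) * ((1 - c ^ 2) / c ^ 2) →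
      |Y| ≤ 2 * δ₁ * Real.sqrt X →
      0 < 1 + X + Y ∧ 0 < 1 + X - Y ∧
      ((1 + X + Y) ^ p)⁻¹ + ((1 + X - Y) ^ p)⁻¹ ≤ 2 * (c ^ (2 * p) * (1 + (1 - c ^ 2))))
    {v m : Vec d}
    (hz : nsq (v - m) ≤ δ ^ 2 * (1 + nsq v)) (ha : 2 / η ≤ 1 + nsq v)
    {σ : Vec d} (hσ : nsq σ = 1) (hm : 0 < dot m σ) :
    Wp p (v + hh σ m) + Wp p (v - hh σ m) ≤
      2 * (Wp p v * (co m σ ^ (2 * p) * (1 + (1 - co m σ ^ 2)))) := by
  obtain ⟨hm1, hm2⟩ := sloQ_nsq hη hδ hδ1 hδη hz ha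
  have hv : 0 ≤ nsq v := sq_nonneg' v
  have hc0 := co_pos hm
  have hc1 : co m σ ≤ 1 := co_le_one hσ
  have hc2 : co m σ ^ 2 ≤ 1 := pow_le_one₀ hc0.le hc1
  have ha0 : 0 < 1 + nsq v := by linarith
  obtain ⟨a, hadef⟩ : ∃ a, a = 1 + nsq v := ⟨_, rfl⟩
  obtain ⟨c, hcdef⟩ : ∃ c, c = co m σ := ⟨_, rfl⟩
  rw [← hadef] at hm1 hm2 ha0 hz
  rw [← hcdef] at hc0 hc1 hc2
  have hc20 : 0 < c ^ 2 := pow_pos hc0 2
  have ht : 0 ≤ (1 - c ^ 2) / c ^ 2 := div_nonneg (by linarith) hc20.le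
  obtain ⟨q, hq⟩ : ∃ q, q = (1 - c ^ 2) / c ^ 2 := ⟨_, rfl⟩
  have hh2 : nsq (hh σ m) = nsq m * q := by rw [hq, hcdef]; exact nsq_hh hσ hm
  rw [← hq] at ht
  have hX1 : (1 - η) * q ≤ nsq (hh σ m) / a := by
    rw [le_div_iff₀ ha0, hh2]
    have := mul_le_mul_of_nonneg_right hm1 ht
    linarith only [this]
  have hX2 : nsq (hh σ m) / a ≤ (1 + η) * q := by
    rw [div_le_iff₀ ha0, hh2]
    have := mul_le_mul_of_nonneg_right hm2 ht
    linarith only [this]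
  have hX0 : 0 ≤ nsq (hh σ m) / a := div_nonneg (sq_nonneg' _) ha0.le
  have hY : |2 * dot (v - m) (hh σ m) / a| ≤ 2 * δ₁ * Real.sqrt (nsq (hh σ m) / a) := by
    have h1 : |2 * dot (v - m) (hh σ m) / a| ≤ 2 * δ * Real.sqrt (nsq (hh σ m) / a) := by
      apply abs_le_of_sq_le_sq _ (by positivity)
      rw [mul_pow, Real.sq_sqrt hX0, div_pow, mul_pow, div_le_iff₀ (pow_pos ha0 2)]
      have h2 := dot_sq_le (v - m) (hh σ m)
      have h3 : nsq (v - m) * nsq (hh σ m) ≤ δ ^ 2 * a * nsq (hh σ m) :=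
        mul_le_mul_of_nonneg_right hz (sq_nonneg' _)
      have e : (2 * δ) ^ 2 * (nsq (hh σ m) / a) * a ^ 2 = 4 * (δ ^ 2 * a * nsq (hh σ m)) := by
        have e1 : nsq (hh σ m) / a * a = nsq (hh σ m) := div_mul_cancel₀ _ ha0.ne'
        linear_combination (4 * δ ^ 2 * a) * e1
      rw [e]
      linarith only [h2, h3]
    refine h1.trans (mul_le_mul_of_nonneg_right (by linarith only [hδδ]) (Real.sqrt_nonneg _))
  rw [hq] at hX1 hX2
  obtain ⟨hp1, hp2, hsum⟩ := hS _ _ c hc0 hc1 hX1 hX2 hY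
  have e1 : 1 + nsq (v + hh σ m) =
      a * (1 + nsq (hh σ m) / a + 2 * dot (v - m) (hh σ m) / a) := by
    rw [one_add_nsq_add v hm, ← hadef]
    field_simp
  have e2 : 1 + nsq (v - hh σ m) =
      a * (1 + nsq (hh σ m) / a - 2 * dot (v - m) (hh σ m) / a) := by
    rw [one_add_nsq_sub v hm, ← hadef]
    field_simp
  have hap : 0 < a ^ p := pow_pos ha0 p
  have hWa : Wp p v * a ^ p = 1 := by rw [hadef]; exact Wp_mul p v
  have g1 : Wp p (v + hh σ m) ≤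
      Wp p v * ((1 + nsq (hh σ m) / a + 2 * dot (v - m) (hh σ m) / a) ^ p)⁻¹ := by
    have h1 := Wp_mul p (v + hh σ m)
    rw [e1, mul_pow] at h1
    rw [← div_eq_mul_inv, le_div_iff₀ (pow_pos hp1 p)]
    have h2 : (Wp p (v + hh σ m) *
        (1 + nsq (hh σ m) / a + 2 * dot (v - m) (hh σ m) / a) ^ p) * a ^ p ≤ Wp p v * a ^ p := by
      refine le_of_eq ?_
      rw [hWa]
      linear_combination h1
    exact le_of_mul_le_mul_right h2 hap
  have g2 : Wp p (v - hh σ m) ≤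
      Wp p v * ((1 + nsq (hh σ m) / a - 2 * dot (v - m) (hh σ m) / a) ^ p)⁻¹ := by
    have h1 := Wp_mul p (v - hh σ m)
    rw [e2, mul_pow] at h1
    rw [← div_eq_mul_inv, le_div_iff₀ (pow_pos hp2 p)]
    have h2 : (Wp p (v - hh σ m) *
        (1 + nsq (hh σ m) / a - 2 * dot (v - m) (hh σ m) / a) ^ p) * a ^ p ≤ Wp p v * a ^ p := by
      refine le_of_eq ?_
      rw [hWa]
      linear_combination h1
    exact le_of_mul_le_mul_right h2 hap
  have h3 := mul_le_mul_of_nonneg_left hsum (Wp_pos p v).le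
  rw [mul_add] at h3
  rw [← hcdef]
  linarith only [h3, g1, g2]

private lemma sloQ_meas_Kn (d : ℕ) (γ : ℝ) {β : ℝ → ℝ} (hβ : Measurable β) :
    Measurable (Kn d γ β) := by
  unfold Kn
  exact ((measurable_const.mul (measurable_id.pow_const _))).mul
    (hβ.comp (by fun_prop))

private lemma sloQ_part (hd : 1 ≤ d) (γ : ℝ) {p : ℕ} {v m : Vec d} (hm : m ≠ 0) {β : ℝ → ℝ}
    (hβ : Measurable β)
    (hpt : ∀ σ : Vec d, nsq σ = 1 → 0 < dot m σ → Wp p (v + hh σ m) + Wp p (v - hh σ m) ≤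
      2 * (Wp p v * (co m σ ^ (2 * p) * (1 + (1 - co m σ ^ 2))))) :
    ∫⁻ σ in {σ : Vec d | 0 < dot m σ},
        ENNReal.ofReal (Kn d γ β (co m σ) * Wp p (v + hh σ m)) ∂(surf d) ≤
      ENNReal.ofReal (Wp p v) * ∫⁻ σ in {σ : Vec d | 0 < dot m σ}, ENNReal.ofReal
        (Kn d γ β (co m σ) * (co m σ ^ (2 * p) * (1 + (1 - co m σ ^ 2)))) ∂(surf d) := by
  have hg0 : ∀ u : Vec d, 0 ≤ Wp p u := fun u => (Wp_pos p u).le
  have hg : Measurable (Wp p : Vec d → ℝ) := (Wp_cont p).measurable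
  have hK : Measurable fun x => ENNReal.ofReal (Kn d γ β x) :=
    (sloQ_meas_Kn d γ hβ).ennreal_ofReal
  have hG : Measurable fun h : Vec d => ENNReal.ofReal (Wp p (v + h)) :=
    (hg.comp (measurable_const.add measurable_id)).ennreal_ofReal
  have hW : Measurable fun x : ℝ => ENNReal.ofReal (x ^ (2 * p) * (1 + (1 - x ^ 2))) := by
    apply Measurable.ennreal_ofReal
    fun_prop
  have hR : Measurable fun x : ℝ => ENNReal.ofReal (Wp p v) *
      ENNReal.ofReal (x ^ (2 * p) * (1 + (1 - x ^ 2))) := hW.const_mul _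
  have key := refl_avg hd hm hK hG hR (fun σ hσ hm' => by
    have h1 := hpt σ hσ hm'
    have e : v + -(hh σ m) = v - hh σ m := by abel
    rw [e, ← ENNReal.ofReal_add (hg0 _) (hg0 _), ← ENNReal.ofReal_mul (hg0 v)]
    have h2 : (2 : ℝ≥0∞) = ENNReal.ofReal 2 := by simp
    rw [h2, ← ENNReal.ofReal_mul (by norm_num)]
    exact ENNReal.ofReal_le_ofReal h1)
  calc ∫⁻ σ in {σ : Vec d | 0 < dot m σ},
        ENNReal.ofReal (Kn d γ β (co m σ) * Wp p (v + hh σ m)) ∂(surf d)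
      = ∫⁻ σ in {σ : Vec d | 0 < dot m σ},
        ENNReal.ofReal (Kn d γ β (co m σ)) * ENNReal.ofReal (Wp p (v + hh σ m)) ∂(surf d) := by
        refine lintegral_congr fun σ => ?_
        rw [ENNReal.ofReal_mul' (hg0 _)]
    _ ≤ _ := key
    _ = ENNReal.ofReal (Wp p v) * ∫⁻ σ in {σ : Vec d | 0 < dot m σ},
        ENNReal.ofReal (Kn d γ β (co m σ)) *
          ENNReal.ofReal (co m σ ^ (2 * p) * (1 + (1 - co m σ ^ 2))) ∂(surf d) := by
        rw [← lintegral_const_mul' _ _ ENNReal.ofReal_ne_top]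
        refine lintegral_congr fun σ => ?_
        ring
    _ ≤ _ := by
        refine mul_le_mul_right ?_ _
        refine lintegral_mono_ae (ae_restrict_of_ae ?_)
        filter_upwards [surf_ae (d := d)] with σ hσ
        have hc : co m σ ^ 2 ≤ 1 := by
          rw [co_eq]
          have h1 := dot_le_one (nsq_dir hm) hσ
          rw [← sq_abs]
          exact pow_le_one₀ (abs_nonneg _) h1
        have hw : 0 ≤ co m σ ^ (2 * p) * (1 + (1 - co m σ ^ 2)) := by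
          have e : co m σ ^ (2 * p) = (co m σ ^ 2) ^ p := pow_mul _ _ _
          rw [e]
          exact mul_nonneg (pow_nonneg (sq_nonneg _) _) (by linarith only [hc])
        exact (ENNReal.ofReal_mul' (p := Kn d γ β (co m σ)) hw).ge

/-- the factor `c^(-2)` as a change of the kernel -/
private lemma sloQ_Kn (d : ℕ) (γ : ℝ) (β : ℝ → ℝ) (c : ℝ) :
    Kn d γ (fun x => β x * ((1 + x) / 2)⁻¹) c = Kn d γ β c * (c ^ 2)⁻¹ := by
  unfold Kn
  have e : (1 + (2 * c ^ 2 - 1)) / 2 = c ^ 2 := by ring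
  simp only [e]
  ring

private lemma sloQ_Kn_nonneg {b : ℝ → ℝ} {C B ε : ℝ} (hC : AngBound b C B) (hε : 0 < ε) (γ : ℝ)
    {m σ : Vec d} (hσ : nsq σ = 1) (hd : 0 < dot m σ) : 0 ≤ Kn d γ (bt b ε) (co m σ) := by
  have hc := co_pos hd
  have hc1 := co_le_one (m := m) hσ
  have hc2 : co m σ ^ 2 ≤ 1 := pow_le_one₀ hc.le hc1
  have hc3 : 0 ≤ co m σ ^ 2 := sq_nonneg _
  unfold Kn
  have h1 := bt_nonneg (ε := ε) hC hε (x := 2 * co m σ ^ 2 - 1) (by linarith only [hc3])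
    (by linarith only [hc2])
  have h2 : 0 ≤ co m σ ^ (-2 - γ) := Real.rpow_nonneg hc.le _
  exact mul_nonneg (mul_nonneg (pow_nonneg (by norm_num) _) h2) h1

private lemma sloQ_Kn_nonneg' {b : ℝ → ℝ} {C B ε : ℝ} (hC : AngBound b C B) (hε : 0 < ε) (γ : ℝ)
    {m σ : Vec d} (hσ : nsq σ = 1) (hd : 0 < dot m σ) :
    0 ≤ Kn d γ (fun x => bt b ε (-x)) (co m σ) := by
  have hc := co_pos hd
  have hc1 := co_le_one (m := m) hσ
  have hc2 : co m σ ^ 2 ≤ 1 := pow_le_one₀ hc.le hc1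
  have hc3 : 0 ≤ co m σ ^ 2 := sq_nonneg _
  unfold Kn
  have h1 := bt_nonneg (ε := ε) hC hε (x := -(2 * co m σ ^ 2 - 1)) (by linarith only [hc2])
    (by linarith only [hc3])
  have h2 : 0 ≤ co m σ ^ (-2 - γ) := Real.rpow_nonneg hc.le _
  exact mul_nonneg (mul_nonneg (pow_nonneg (by norm_num) _) h2) h1

/-- pointwise bound of the factor `c^(-2)` on the support of the kernel -/
private lemma sloQ_fac {b : ℝ → ℝ} {C B ε : ℝ} (hC : AngBound b C B) (hε : 0 < ε) {γ : ℝ}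
    (hdγ : 2 ≤ (d : ℝ) + γ) {m σ : Vec d} (hσ : nsq σ = 1) (hd : 0 < dot m σ) {g : ℝ}
    (hg0 : 0 ≤ g) (hg1 : g ≤ 1) :
    Kn d γ (bt b ε) (co m σ) * ((co m σ ^ 2)⁻¹ * g) ≤ Kn d γ (bt b ε) (co m σ) * g +
      2 * (Kn d γ (bt b ε) (co m σ) * (1 - co m σ ^ ((d : ℝ) + γ))) := by
  have hk := sloQ_Kn_nonneg hC hε γ hσ hd
  have hc := co_pos hd
  have hc1 := co_le_one (m := m) hσ
  obtain ⟨c, hcdef⟩ : ∃ c, c = co m σ := ⟨_, rfl⟩
  rw [← hcdef] at hk hc hc1 ⊢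
  have hq1 : c ^ ((d : ℝ) + γ) ≤ c ^ 2 := by
    have h1 := Real.rpow_le_rpow_of_exponent_ge hc hc1 hdγ
    rwa [show (2 : ℝ) = ((2 : ℕ) : ℝ) by norm_num, Real.rpow_natCast] at h1
  rcases lt_or_ge (2 * c ^ 2 - 1) 0 with hx | hx
  · have h0 : Kn d γ (bt b ε) c = 0 := by
      unfold Kn
      rw [bt_neg hx, mul_zero]
    rw [h0]
    simp
  · have hc2 : (1 : ℝ) / 2 ≤ c ^ 2 := by linarith only [hx]
    have hcp : 0 < c ^ 2 := pow_pos hc 2
    have hi : (c ^ 2)⁻¹ ≤ 2 := by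
      rw [inv_le_comm₀ hcp (by norm_num)]
      linarith only [hc2]
    have hc21 : 0 ≤ 1 - c ^ 2 := by
      have := pow_le_one₀ hc.le hc1 (n := 2)
      linarith only [this]
    have h1 : (c ^ 2)⁻¹ - 1 ≤ 2 * (1 - c ^ 2) := by
      have h2 : (c ^ 2)⁻¹ - 1 = (c ^ 2)⁻¹ * (1 - c ^ 2) := by
        rw [mul_sub, mul_one, inv_mul_cancel₀ hcp.ne']
      rw [h2]
      exact mul_le_mul_of_nonneg_right hi hc21
    have h3 : (c ^ 2)⁻¹ * g ≤ g + 2 * (1 - c ^ ((d : ℝ) + γ)) := by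
      have h4 : ((c ^ 2)⁻¹ - 1) * g ≤ 2 * (1 - c ^ 2) * g := mul_le_mul_of_nonneg_right h1 hg0
      have h5 : 2 * (1 - c ^ 2) * g ≤ 2 * (1 - c ^ 2) * 1 :=
        mul_le_mul_of_nonneg_left hg1 (by linarith only [hc21])
      linarith only [h4, h5, hq1]
    have h6 := mul_le_mul_of_nonneg_left h3 hk
    linarith only [h6]

theorem sloQ (HL : HypL d γ s b C Ca cb) (h0 : 0 ≤ γ) (hs : 2 * s < 1) {p : ℕ} (hp : d + 12 ≤ p) :
    ∃ δ > 0, δ ≤ 1 / 4 ∧ ∃ a₀ : ℝ, 4 ≤ a₀ ∧ ∃ κ : ℝ, 0 < κ ∧ ∃ K : ℝ, 0 ≤ K ∧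
    ∀ v m : Vec d, m ≠ 0 → ∀ ε : ℝ, 0 < ε → ε ≤ 1 / 64 →
      GEg γ b ε (Wp p) (RS v) v m ≤ ENNReal.ofReal (K * Wp p v) ∧
      (SlowR δ a₀ v (v - m) →
        GMq γ b ε (Wp p) v m + GEg γ b ε (Wp p) (RS v) v m + ENNReal.ofReal (κ * Wp p v) ≤
          ENNReal.ofReal (Wp p v) * BB b ε (dir m)) ∧
      GMq γ b ε (Wp p) v m ≤
        ENNReal.ofReal (Wp p v) * BB b ε (dir m) + ENNReal.ofReal (K * (1 + nsq m)) := by
  have H := HL.H
  have hg2 := H.g2
  have hd2 : (2 : ℝ) ≤ d := by exact_mod_cast H.hd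
  obtain ⟨p', rfl⟩ : ∃ p', p = p' + 1 := ⟨p - 1, by omega⟩
  have hp' : (d : ℝ) + 11 ≤ p' := by
    have : d + 11 ≤ p' := by omega
    exact_mod_cast this
  have hpg : (d : ℝ) + γ + 4 ≤ 2 * p' := by linarith only [hp', hg2, hd2]
  obtain ⟨δs, hδs, hδs4, as, has, κs, hκs, Ks, hKs, hslo⟩ := slo HL h0 hs (p := p' + 1) (by omega)
  obtain ⟨δ₁, hδ₁, η, hη, hη2, hS⟩ := slow_ineq (p' + 1)
  obtain ⟨κ, hκ, hslack⟩ := slack_low HL
  obtain ⟨A₁, hA₁, hone⟩ := ang_one H h0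
  have hW0 : ∀ u : Vec d, 0 ≤ Wp (p' + 1) u := fun u => (Wp_pos (p' + 1) u).le
  have hWm : Measurable (Wp (p' + 1) : Vec d → ℝ) := (Wp_cont (p' + 1)).measurable
  refine ⟨min δs (min δ₁ (min (1 / 4) (η / 6))),
    lt_min hδs (lt_min hδ₁ (lt_min (by norm_num) (by linarith only [hη]))),
    (min_le_right _ _).trans ((min_le_right _ _).trans (min_le_left _ _)),
    max as (max 4 (2 / η)), (le_max_left _ _).trans (le_max_right _ _), κ, hκ,
    Ks + 2 * A₁, by linarith only [hKs, hA₁], fun v m hm ε hε hε1 => ?_⟩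
  obtain ⟨c1, -, c3⟩ := hslo v m hm ε hε hε1
  refine ⟨c1.trans (ENNReal.ofReal_le_ofReal ?_), fun hsl => ?_, ?_⟩
  · exact mul_le_mul_of_nonneg_right (by linarith only [hA₁]) (hW0 v)
  · -- slow background velocities
    have hpt : ∀ σ : Vec d, nsq σ = 1 → 0 < dot m σ →
        Wp (p' + 1) (v + hh σ m) + Wp (p' + 1) (v - hh σ m) ≤
        2 * (Wp (p' + 1) v * (co m σ ^ (2 * (p' + 1)) * (1 + (1 - co m σ ^ 2)))) :=
      fun σ hσ hmσ => sloQ_point hη
        (lt_min hδs (lt_min hδ₁ (lt_min (by norm_num) (by linarith only [hη]))))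
        (((min_le_right _ _).trans ((min_le_right _ _).trans (min_le_left _ _))).trans (by norm_num))
        ((min_le_right _ _).trans ((min_le_right _ _).trans (min_le_right _ _)))
        ((min_le_right _ _).trans (min_le_left _ _)) hS hsl.2
        (((le_max_right _ _).trans (le_max_right _ _)).trans hsl.1) hσ hmσ
    have hbt : Measurable (bt b ε) := measurable_bt H.bm ε
    have hbt' : Measurable fun x : ℝ => bt b ε x * ((1 + x) / 2)⁻¹ :=
      hbt.mul ((measurable_const.add measurable_id).div_const 2).inv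
    have h1 := sloQ_part (γ := γ) (p := p' + 1) H.hd1 hm hbt' hpt
    have h2 := sloQ_part (γ := γ) (p := p' + 1) (β := fun x => bt b ε (-x)) H.hd1 hm
      (hbt.comp measurable_neg) hpt
    have h3 : GMq γ b ε (Wp (p' + 1)) v m = ∫⁻ σ in {σ : Vec d | 0 < dot m σ}, ENNReal.ofReal
        (Kn d γ (fun x => bt b ε x * ((1 + x) / 2)⁻¹) (co m σ) * Wp (p' + 1) (v + hh σ m))
          ∂(surf d) := by
      unfold GMq
      refine lintegral_congr fun σ => ?_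
      rw [sloQ_Kn, mul_assoc]
    have h3' : GEg γ b ε (Wp (p' + 1)) (RS v) v m ≤ ∫⁻ σ in {σ : Vec d | 0 < dot m σ},
        ENNReal.ofReal (Kn d γ (fun x => bt b ε (-x)) (co m σ) * Wp (p' + 1) (v + hh σ m))
          ∂(surf d) := by
      unfold GEg
      refine lintegral_mono fun σ => ?_
      dsimp only
      split_ifs
      · exact bot_le
      · exact le_rfl
    have i1 : ∫⁻ σ in {σ : Vec d | 0 < dot m σ}, ENNReal.ofReal
        (Kn d γ (fun x => bt b ε x * ((1 + x) / 2)⁻¹) (co m σ) *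
          (co m σ ^ (2 * (p' + 1)) * (1 + (1 - co m σ ^ 2)))) ∂(surf d) =
        ∫⁻ σ in {σ : Vec d | 0 < dot m σ}, ENNReal.ofReal (Kn d γ (bt b ε) (co m σ) *
          (co m σ ^ (2 * p') * (1 + (1 - co m σ ^ 2)))) ∂(surf d) := by
      refine setLIntegral_congr_fun (measurableSet_half m) fun σ hσ => ?_
      have hc : 0 < co m σ := co_pos hσ
      have hcp : co m σ ^ 2 ≠ 0 := (pow_pos hc 2).ne'
      congr 1
      rw [sloQ_Kn]
      have e : co m σ ^ (2 * (p' + 1)) = co m σ ^ 2 * co m σ ^ (2 * p') := by ring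
      have e2 : (co m σ ^ 2)⁻¹ * co m σ ^ 2 = 1 := inv_mul_cancel₀ hcp
      rw [e]
      linear_combination (Kn d γ (bt b ε) (co m σ) * co m σ ^ (2 * p') *
        (1 + (1 - co m σ ^ 2))) * e2
    have i2 : ∫⁻ σ in {σ : Vec d | 0 < dot m σ}, ENNReal.ofReal
        (Kn d γ (fun x => bt b ε (-x)) (co m σ) *
          (co m σ ^ (2 * (p' + 1)) * (1 + (1 - co m σ ^ 2)))) ∂(surf d) ≤
        ∫⁻ σ in {σ : Vec d | 0 < dot m σ}, ENNReal.ofReal
          (Kn d γ (fun x => bt b ε (-x)) (co m σ) *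
          (co m σ ^ (2 * p') * (1 + (1 - co m σ ^ 2)))) ∂(surf d) := by
      refine lintegral_mono_ae ?_
      filter_upwards [ae_restrict_of_ae surf_ae, ae_restrict_mem (measurableSet_half m)]
        with σ hσ hd
      have hc : 0 < co m σ := co_pos hd
      have hc1 : co m σ ≤ 1 := co_le_one hσ
      have hc2 : co m σ ^ 2 ≤ 1 := pow_le_one₀ hc.le hc1
      refine ENNReal.ofReal_le_ofReal ?_
      refine mul_le_mul_of_nonneg_left ?_ (sloQ_Kn_nonneg' H.bd hε γ hσ hd)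
      refine mul_le_mul_of_nonneg_right ?_ (by linarith only [hc2])
      exact pow_le_pow_of_le_one hc.le hc1 (by omega)
    have h4 := slow_integralg H.hd γ H.bm H.bd hε hpg
      (fun x y r h4 hx hy h => povzner_slack h4 hx hy h) hm
    have h6 := hslack ε hε hε1 (dir m) (nsq_dir hm)
    rw [h3]
    rw [i1] at h1
    calc _ ≤ (ENNReal.ofReal (Wp (p' + 1) v) * (∫⁻ σ in {σ : Vec d | 0 < dot m σ}, ENNReal.ofReal
          (Kn d γ (bt b ε) (co m σ) * (co m σ ^ (2 * p') * (1 + (1 - co m σ ^ 2)))) ∂(surf d))) +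
          (ENNReal.ofReal (Wp (p' + 1) v) * (∫⁻ σ in {σ : Vec d | 0 < dot m σ}, ENNReal.ofReal
          (Kn d γ (fun x => bt b ε (-x)) (co m σ) * (co m σ ^ (2 * p') * (1 + (1 - co m σ ^ 2))))
            ∂(surf d))) +
          ENNReal.ofReal (Wp (p' + 1) v) *
          ∫⁻ σ, ENNReal.ofReal (bt b ε (dot (dir m) σ) * ((1 - dot (dir m) σ ^ 2) / 4)) ∂(surf d) := by
          refine add_le_add (add_le_add h1 (h3'.trans (h2.trans (mul_le_mul_right i2 _)))) ?_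
          rw [mul_comm κ, ENNReal.ofReal_mul (hW0 v)]
          exact mul_le_mul_right h6 _
      _ ≤ _ := by
          rw [← mul_add, ← mul_add]
          exact mul_le_mul_right h4 _
  · -- the general bound
    have hbt := measurable_bt H.bm ε
    have hco : Measurable fun σ : Vec d => co m σ := by
      unfold co
      exact (dot_cont m).measurable.div_const _
    have hK : Measurable fun σ : Vec d => Kn d γ (bt b ε) (co m σ) :=
      (sloQ_meas_Kn d γ hbt).comp hco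
    have hF : Measurable fun σ : Vec d => ENNReal.ofReal
        (Kn d γ (bt b ε) (co m σ) * (1 - co m σ ^ ((d : ℝ) + γ))) :=
      (hK.mul (measurable_const.sub (hco.pow_const _))).ennreal_ofReal
    have hdγ : (2 : ℝ) ≤ (d : ℝ) + γ := by linarith only [hd2, h0]
    have hGM : GMg γ b ε (Wp (p' + 1)) univ v m = ∫⁻ σ in {σ : Vec d | 0 < dot m σ},
        ENNReal.ofReal (Kn d γ (bt b ε) (co m σ) * Wp (p' + 1) (v + hh σ m)) ∂(surf d) := by
      unfold GMg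
      simp only [mem_univ, if_true]
    have h1 : GMq γ b ε (Wp (p' + 1)) v m ≤ GMg γ b ε (Wp (p' + 1)) univ v m +
        2 * ∫⁻ σ in {σ : Vec d | 0 < dot m σ}, ENNReal.ofReal
          (Kn d γ (bt b ε) (co m σ) * (1 - co m σ ^ ((d : ℝ) + γ))) ∂(surf d) := by
      rw [hGM, ← lintegral_const_mul _ hF, ← lintegral_add_right _ (hF.const_mul _)]
      unfold GMq
      refine lintegral_mono_ae ?_
      filter_upwards [ae_restrict_of_ae surf_ae, ae_restrict_mem (measurableSet_half m)]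
        with σ hσ hd
      have hk := sloQ_Kn_nonneg H.bd hε γ hσ hd
      have hc := co_pos hd
      have hc1 := co_le_one (m := m) hσ
      have hq : co m σ ^ ((d : ℝ) + γ) ≤ 1 :=
        Real.rpow_le_one hc.le hc1 (by linarith only [hdγ])
      have h2 : (2 : ℝ≥0∞) = ENNReal.ofReal 2 := by simp
      rw [h2, ← ENNReal.ofReal_mul (by norm_num), ← ENNReal.ofReal_add
        (mul_nonneg hk (hW0 _)) (mul_nonneg (by norm_num)
          (mul_nonneg hk (by linarith only [hq])))]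
      exact ENNReal.ofReal_le_ofReal
        (sloQ_fac H.bd hε hdγ hσ hd (hW0 _) (Wp_le_one (p' + 1) _))
    have hO := hone ε hε m hm
    have hnm : 0 ≤ nsq m := sq_nonneg' m
    refine h1.trans ((add_le_add c3 (mul_le_mul_right hO 2)).trans ?_)
    rw [add_assoc]
    refine add_le_add le_rfl ?_
    have h2 : (2 : ℝ≥0∞) = ENNReal.ofReal 2 := by simp
    rw [h2, ← ENNReal.ofReal_mul (by norm_num), ← ENNReal.ofReal_add
      (mul_nonneg hKs (by linarith only [hnm])) (mul_nonneg (by norm_num) hA₁)]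
    refine ENNReal.ofReal_le_ofReal ?_
    have h8 : 0 ≤ 2 * A₁ * nsq m := mul_nonneg (mul_nonneg (by norm_num) hA₁) hnm
    linarith only [h8]

end Pool.Agent.H87.QH
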